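import Mathlib

/-!
Rank bounds for linear maps.
-/

namespace Pool.Agent.MP86f994

section Rank

variable {V W Z : Type*} [AddCommGroup V] [Module ℂ V] [AddCommGroup W] [Module ℂ W]
  [AddCommGroup Z] [Module ℂ Z]

/-- `f` has rank at most `n` -/
def RkLE (n : ℕ) (f : V →ₗ[ℂ] W) : Prop :=
  ∃ X : Submodule ℂ W, FiniteDimensional ℂ X ∧ Module.finrank ℂ X ≤ n ∧ ∀ v, f v ∈ X

theorem RkLE.mono {n m : ℕ} (h : n ≤ m) {f : V →ₗ[ℂ] W} (hf : RkLE n f) : RkLE m f := by
  obtain ⟨X, h1, h2, h3⟩ := hf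
  exact ⟨X, h1, h2.trans h, h3⟩

theorem RkLE.add {n m : ℕ} {f g : V →ₗ[ℂ] W} (hf : RkLE n f) (hg : RkLE m g) :
    RkLE (n + m) (f + g) := by
  obtain ⟨X, h1, h2, h3⟩ := hf
  obtain ⟨Y, k1, k2, k3⟩ := hg
  refine ⟨X ⊔ Y, inferInstance, ?_, fun v => ?_⟩
  · exact (Submodule.finrank_add_le_finrank_add_finrank X Y).trans (add_le_add h2 k2)
  · exact Submodule.add_mem_sup (h3 v) (k3 v)

theorem RkLE.smul {n : ℕ} {f : V →ₗ[ℂ] W} (c : ℂ) (hf : RkLE n f) : RkLE n (c • f) := by
  obtain ⟨X, h1, h2, h3⟩ := hf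
  exact ⟨X, h1, h2, fun v => X.smul_mem c (h3 v)⟩

theorem RkLE.neg {n : ℕ} {f : V →ₗ[ℂ] W} (hf : RkLE n f) : RkLE n (-f) := by
  obtain ⟨X, h1, h2, h3⟩ := hf
  exact ⟨X, h1, h2, fun v => X.neg_mem (h3 v)⟩

theorem RkLE.sub {n m : ℕ} {f g : V →ₗ[ℂ] W} (hf : RkLE n f) (hg : RkLE m g) :
    RkLE (n + m) (f - g) := by
  rw [sub_eq_add_neg]; exact hf.add hg.neg

theorem RkLE.zero (n : ℕ) : RkLE n (0 : V →ₗ[ℂ] W) :=
  ⟨⊥, inferInstance, by simp, fun v => by simp⟩

theorem RkLE.comp_left {n : ℕ} {f : V →ₗ[ℂ] W} (hf : RkLE n f) (g : W →ₗ[ℂ] Z) :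
    RkLE n (g ∘ₗ f) := by
  obtain ⟨X, h1, h2, h3⟩ := hf
  exact ⟨X.map g, inferInstance, (Submodule.finrank_map_le g X).trans h2,
    fun v => Submodule.mem_map_of_mem (h3 v)⟩

theorem RkLE.comp_right {n : ℕ} {f : W →ₗ[ℂ] Z} (hf : RkLE n f) (g : V →ₗ[ℂ] W) :
    RkLE n (f ∘ₗ g) := by
  obtain ⟨X, h1, h2, h3⟩ := hf
  exact ⟨X, h1, h2, fun v => h3 _⟩

theorem RkLE.not_linInd {n : ℕ} {f : V →ₗ[ℂ] W} (hf : RkLE n f) (x : Fin (n + 1) → V) :
    ¬ LinearIndependent ℂ (fun i => f (x i)) := by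
  obtain ⟨X, h1, h2, h3⟩ := hf
  intro h
  have h4 : LinearIndependent ℂ (fun i => (⟨f (x i), h3 _⟩ : X)) := by
    apply LinearIndependent.of_comp X.subtype
    exact h
  have := h4.fintype_card_le_finrank
  simp at this
  omega

theorem rkLE_of_not_linInd {n : ℕ} {f : V →ₗ[ℂ] W}
    (h : ∀ x : Fin (n + 1) → V, ¬ LinearIndependent ℂ (fun i => f (x i))) : RkLE n f := by
  have hr : Module.rank ℂ (LinearMap.range f) ≤ n := by
    by_contra hcon
    push Not at hcon
    have h1 : ((n + 1 : ℕ) : Cardinal) ≤ Module.rank ℂ (LinearMap.range f) := by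
      rw [Nat.cast_add, Nat.cast_one]
      rw [← Cardinal.succ_natCast]
      exact Order.succ_le_of_lt hcon
    obtain ⟨v, hv⟩ := exists_linearIndependent_of_le_rank h1
    choose x hx using fun i => (v i).2
    apply h x
    have : (fun i => f (x i)) = fun i => ((v i : LinearMap.range f) : W) := by
      funext i; exact hx i
    rw [this]
    exact hv.map' (LinearMap.range f).subtype (Submodule.ker_subtype _)
  have hfin : FiniteDimensional ℂ (LinearMap.range f) := by
    rw [FiniteDimensional, ← Module.rank_lt_aleph0_iff]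
    exact lt_of_le_of_lt hr (Cardinal.natCast_lt_aleph0)
  exact ⟨LinearMap.range f, hfin, Module.finrank_le_of_rank_le hr, fun v => ⟨v, rfl⟩⟩

theorem rkLE_iff_range {f : V →ₗ[ℂ] W} :
    (∃ n, RkLE n f) ↔ FiniteDimensional ℂ (LinearMap.range f) := by
  constructor
  · rintro ⟨n, X, h1, h2, h3⟩
    exact Submodule.finiteDimensional_of_le (S₂ := X) (by
      rintro _ ⟨v, rfl⟩; exact h3 v)
  · intro h
    exact ⟨_, LinearMap.range f, h, le_rfl, fun v => ⟨v, rfl⟩⟩

/-- a map with finite dimensional range whose composite with something injective up to finite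
dimensions... kernel version: if `f` vanishes on a finite-codimensional subspace -/
theorem rkLE_of_ker_finite {f : V →ₗ[ℂ] W} (h : FiniteDimensional ℂ (V ⧸ LinearMap.ker f)) :
    ∃ n, RkLE n f := by
  rw [rkLE_iff_range]
  exact LinearEquiv.finiteDimensional f.quotKerEquivRange

theorem finite_quot_ker_of_rkLE {f : V →ₗ[ℂ] W} (h : ∃ n, RkLE n f) :
    FiniteDimensional ℂ (V ⧸ LinearMap.ker f) := by
  rw [rkLE_iff_range] at h
  exact LinearEquiv.finiteDimensional f.quotKerEquivRange.symm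

/-- if `g ∘ f` has finite rank and `g` has finite-dimensional kernel then `f` has finite rank -/
theorem rkLE_of_comp {f : V →ₗ[ℂ] W} {g : W →ₗ[ℂ] Z} (h : ∃ n, RkLE n (g ∘ₗ f))
    (hg : FiniteDimensional ℂ (LinearMap.ker g)) : ∃ n, RkLE n f := by
  obtain ⟨n, X, h1, h2, h3⟩ := h
  -- range f ≤ comap g X, which is finite dimensional
  have hfin : FiniteDimensional ℂ (X.comap g) := by
    let g' : X.comap g →ₗ[ℂ] X := g.restrict (fun x hx => hx)
    have hk : FiniteDimensional ℂ (LinearMap.ker g') := by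
      let j : LinearMap.ker g' →ₗ[ℂ] LinearMap.ker g :=
        { toFun := fun x => ⟨x.1.1, by
            have := x.2
            rw [LinearMap.mem_ker] at this ⊢
            exact congrArg Subtype.val this⟩
          map_add' := fun a b => rfl
          map_smul' := fun a b => rfl }
      apply FiniteDimensional.of_injective j
      intro a b hab
      have : a.1.1 = b.1.1 := congrArg (fun z : LinearMap.ker g => (z : W)) hab
      exact Subtype.ext (Subtype.ext this)
    have hr : FiniteDimensional ℂ (LinearMap.range g') := inferInstance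
    have hq : FiniteDimensional ℂ (X.comap g ⧸ LinearMap.ker g') :=
      LinearEquiv.finiteDimensional g'.quotKerEquivRange.symm
    exact Module.Finite.of_submodule_quotient (LinearMap.ker g')
  exact ⟨_, X.comap g, hfin, le_rfl, fun v => h3 v⟩

end Rank

end Pool.Agent.MP86f994
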