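import Mathlib
import Pool.Agent.Lib_MP_86f994_an.Rank

/-!
Linear spaces of maps of bounded rank: the image of the kernel of a maximal rank element.
Limits of maps of bounded rank.
-/

namespace Pool.Agent.MP86f994

open Filter Topology

section MaxRank

variable {D V W : Type*} [AddCommGroup D] [Module ℂ D] [AddCommGroup V] [Module ℂ V]
  [AddCommGroup W] [Module ℂ W]

theorem rkLE_limit {E F : Type*} [AddCommGroup E] [Module ℂ E] [NormedAddCommGroup F]
    [NormedSpace ℂ F] {ι : Type*} (U : Filter ι) [U.NeBot] (f : ι → E →ₗ[ℂ] F) (g : E →ₗ[ℂ] F)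
    (r : ℕ) (hlim : ∀ x, Tendsto (fun k => f k x) U (𝓝 (g x)))
    (hr : ∀ᶠ k in U, RkLE r (f k)) : RkLE r g := by
  apply rkLE_of_not_linInd
  intro x hx
  have h1 : Tendsto (fun k => fun i => f k (x i)) U (𝓝 (fun i => g (x i))) := by
    rw [tendsto_pi_nhds]
    intro i
    exact hlim (x i)
  have h2 := h1.eventually (LinearIndependent.eventually hx)
  obtain ⟨k, hk1, hk2⟩ := (h2.and hr).exists
  exact hk2.not_linInd x hk1

/-- a family of linearly independent vectors has a dual map -/
theorem exists_dual_map {n : ℕ} (w : Fin n → W) (hw : LinearIndependent ℂ w) :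
    ∃ l : W →ₗ[ℂ] (Fin n → ℂ), ∀ i, l (w i) = Pi.single i 1 := by
  obtain ⟨g, hg⟩ := LinearMap.exists_leftInverse_of_injective (Fintype.linearCombination ℂ w)
    (by
      rw [LinearMap.ker_eq_bot]
      exact hw.fintypeLinearCombination_injective)
  refine ⟨g, fun i => ?_⟩
  have h1 : Fintype.linearCombination ℂ w (Pi.single i 1) = w i := by
    simp [Fintype.linearCombination_apply_single]
  rw [← h1]
  exact congrArg (fun f => f (Pi.single i 1)) hg

theorem max_rank (T : D →ₗ[ℂ] (V →ₗ[ℂ] W)) (n : ℕ) (hn : ∀ R, RkLE n (T R)) :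
    ∃ R0, ∀ R y, T R0 y = 0 → T R y ∈ LinearMap.range (T R0) := by
  -- choose R0 of maximal rank
  have hfin : ∀ R, FiniteDimensional ℂ (LinearMap.range (T R)) := fun R =>
    rkLE_iff_range.mp ⟨n, hn R⟩
  have hle : ∀ R, Module.finrank ℂ (LinearMap.range (T R)) ≤ n := by
    intro R
    obtain ⟨X, h1, h2, h3⟩ := hn R
    refine (Submodule.finrank_mono ?_).trans h2
    rintro _ ⟨v, rfl⟩
    exact h3 v
  obtain ⟨R0, hR0⟩ : ∃ R0, ∀ R, Module.finrank ℂ (LinearMap.range (T R))
      ≤ Module.finrank ℂ (LinearMap.range (T R0)) := by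
    have hne : (Set.range fun R => Module.finrank ℂ (LinearMap.range (T R))).Nonempty :=
      Set.range_nonempty _
    have hbdd : BddAbove (Set.range fun R => Module.finrank ℂ (LinearMap.range (T R))) :=
      ⟨n, by rintro _ ⟨R, rfl⟩; exact hle R⟩
    obtain ⟨R0, hR0⟩ := Nat.sSup_mem hne hbdd
    refine ⟨R0, fun R => ?_⟩
    simp only at hR0
    rw [hR0]
    exact le_csSup hbdd ⟨R, rfl⟩
  refine ⟨R0, fun R y hy => ?_⟩
  by_contra hcon
  obtain ⟨r, hr⟩ : ∃ r, r = Module.finrank ℂ (LinearMap.range (T R0)) := ⟨_, rfl⟩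
  have := hfin R0
  let B := Module.finBasisOfFinrankEq ℂ (LinearMap.range (T R0)) hr.symm
  choose x hx using fun i => (B i).2
  let w : Fin (r + 1) → W := Fin.cons (T R y) (fun i => T R0 (x i))
  have hw : LinearIndependent ℂ w := by
    apply LinearIndependent.finCons
    · have h1 : (fun i => T R0 (x i)) = fun i => ((B i : LinearMap.range (T R0)) : W) := by
        funext i; exact hx i
      rw [h1]
      exact B.linearIndependent.map' (LinearMap.range (T R0)).subtype (Submodule.ker_subtype _)
    · intro hmem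
      apply hcon
      have hsub : Submodule.span ℂ (Set.range fun i => T R0 (x i)) ≤ LinearMap.range (T R0) := by
        rw [Submodule.span_le]
        rintro _ ⟨i, rfl⟩
        exact ⟨x i, rfl⟩
      exact hsub hmem
  obtain ⟨l, hl⟩ := exists_dual_map w hw
  -- perturbation
  let wt : ℂ → Fin (r + 1) → W := fun t => Fin.cons (T R y) (fun i => T R0 (x i) + t • T R (x i))
  have hcont : Tendsto (fun t => fun i => l (wt t i)) (𝓝[≠] (0:ℂ)) (𝓝 (fun i => l (w i))) := by
    rw [tendsto_pi_nhds]
    intro i
    refine Fin.cases ?_ (fun j => ?_) i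
    · exact tendsto_const_nhds
    · have h1 : ∀ t, l (wt t j.succ) = l (T R0 (x j)) + t • l (T R (x j)) := by
        intro t
        simp only [wt, Fin.cons_succ, map_add, map_smul]
      have h2 : l (w j.succ) = l (T R0 (x j)) + (0:ℂ) • l (T R (x j)) := by
        simp only [w, Fin.cons_succ, zero_smul, add_zero]
      simp only [h1, h2]
      apply Tendsto.add tendsto_const_nhds
      apply Tendsto.smul _ tendsto_const_nhds
      exact tendsto_nhdsWithin_of_tendsto_nhds tendsto_id
  have hind : LinearIndependent ℂ (fun i => l (w i)) := by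
    have : (fun i => l (w i)) = fun i => (Pi.basisFun ℂ (Fin (r+1))) i := by
      funext i; rw [hl, Pi.basisFun_apply]
    rw [this]
    exact (Pi.basisFun ℂ (Fin (r+1))).linearIndependent
  have hev := hcont.eventually (LinearIndependent.eventually hind)
  obtain ⟨t, ht, ht0⟩ := (hev.and eventually_mem_nhdsWithin).exists
  have ht0' : t ≠ 0 := ht0
  have hwt : LinearIndependent ℂ (wt t) := LinearIndependent.of_comp l ht
  -- these vectors are in the range of T (R0 + t R)
  let u : Fin (r + 1) → V := Fin.cons (t⁻¹ • y) x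
  have hu : ∀ i, T (R0 + t • R) (u i) = wt t i := by
    intro i
    refine Fin.cases ?_ (fun j => ?_) i
    · simp only [u, wt, Fin.cons_zero, map_add, map_smul, LinearMap.add_apply,
        LinearMap.smul_apply, hy, zero_add]
      rw [smul_smul, inv_mul_cancel₀ ht0', one_smul]
    · simp only [u, wt, Fin.cons_succ, map_add, map_smul, LinearMap.add_apply,
        LinearMap.smul_apply]
  have hrk : RkLE r (T (R0 + t • R)) := by
    refine ⟨LinearMap.range (T (R0 + t • R)), hfin _, ?_, fun v => ⟨v, rfl⟩⟩
    rw [hr]; exact hR0 _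
  apply hrk.not_linInd u
  have : (fun i => T (R0 + t • R) (u i)) = wt t := funext hu
  rw [this]
  exact hwt

end MaxRank

end Pool.Agent.MP86f994
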