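import Mathlib

/-!
Jordan homomorphisms onto prime rings (Herstein), in the form needed for MP_86f994_an.
-/

namespace Pool.Agent.MP86f994

section Herstein

variable {R S : Type*} [Ring R] [Ring S]

theorem prime_symm_zero (h2 : ∀ s : S, s + s = 0 → s = 0)
    (hprime : ∀ u v : S, (∀ x, u * x * v = 0) → u = 0 ∨ v = 0)
    (u v : S) (h : ∀ x, u * x * v + v * x * u = 0) : u = 0 ∨ v = 0 := by
  by_cases hv : v = 0
  · exact Or.inr hv
  left
  have key : ∀ x y, (u * x * u) * y * v = 0 := by
    intro x y
    apply h2
    have h1 := h (x * u * y)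
    have h3 := h x
    have h4 := h y
    have e1 : v * (x * u * y) * u = (v * x * u) * (y * u) := by noncomm_ring
    have e2 : v * x * u = -(u * x * v) := by
      rw [eq_neg_iff_add_eq_zero, add_comm]; exact h3
    have e3 : v * y * u = -(u * y * v) := by
      rw [eq_neg_iff_add_eq_zero, add_comm]; exact h4
    have e4 : (v * x * u) * (y * u) = u * x * u * y * v := by
      rw [e2]
      have : -(u * x * v) * (y * u) = -(u * x * (v * y * u)) := by noncomm_ring
      rw [this, e3]; noncomm_ring
    rw [e1, e4] at h1
    have e5 : u * (x * u * y) * v = u * x * u * y * v := by noncomm_ring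
    rw [e5] at h1
    exact h1
  have hx : ∀ x, u * x * u = 0 := by
    intro x
    rcases hprime (u * x * u) v (fun y => key x y) with h5 | h5
    · exact h5
    · exact absurd h5 hv
  rcases hprime u u hx with h6 | h6 <;> exact h6

theorem jordan_hom_or_antihom (f : R →+ S) (hsurj : Function.Surjective f)
    (h2 : ∀ s : S, s + s = 0 → s = 0)
    (hprime : ∀ u v : S, (∀ x, u * x * v = 0) → u = 0 ∨ v = 0)
    (hJ : ∀ a b, f (a * b + b * a) = f a * f b + f b * f a) :
    (∀ a b, f (a * b) = f a * f b) ∨ (∀ a b, f (a * b) = f b * f a) := by
  have sq : ∀ a, f (a * a) = f a * f a := by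
    intro a
    have := hJ a a
    rw [map_add] at this
    have h3 : (f (a * a) - f a * f a) + (f (a * a) - f a * f a) = 0 := by
      have : f (a * a) + f (a * a) - (f a * f a + f a * f a) = 0 := by rw [this]; simp
      rw [← this]; abel
    have := h2 _ h3
    exact sub_eq_zero.mp this
  have aba : ∀ a b, f (a * b * a) = f a * f b * f a := by
    intro a b
    have e1 : (a * b * a) + (a * b * a) = (a * (a * b + b * a) + (a * b + b * a) * a)
        - ((a * a) * b + b * (a * a)) := by noncomm_ring
    have e2 : f (a * b * a) + f (a * b * a) = f a * f b * f a + f a * f b * f a := by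
      rw [← map_add, e1, map_sub, hJ, hJ, hJ, sq]; noncomm_ring
    have h3 : (f (a * b * a) - f a * f b * f a) + (f (a * b * a) - f a * f b * f a) = 0 := by
      have : f (a * b * a) + f (a * b * a) - (f a * f b * f a + f a * f b * f a) = 0 := by
        rw [e2]; simp
      rw [← this]; abel
    exact sub_eq_zero.mp (h2 _ h3)
  have abc : ∀ a b c, f (a * b * c + c * b * a) = f a * f b * f c + f c * f b * f a := by
    intro a b c
    have e1 : a * b * c + c * b * a = (a + c) * b * (a + c) - a * b * a - c * b * c := by
      noncomm_ring
    rw [e1, map_sub, map_sub, aba, aba, aba, map_add]; noncomm_ring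
  have main : ∀ a b, f (a * b) - f a * f b = 0 ∨ f (a * b) - f b * f a = 0 := by
    intro a b
    apply prime_symm_zero h2 hprime
    intro X
    obtain ⟨x, rfl⟩ := hsurj X
    have w1 : f (a * (b * x * b) * a + b * (a * x * a) * b)
        = f a * (f b * f x * f b) * f a + f b * (f a * f x * f a) * f b := by
      rw [map_add, aba, aba, aba, aba]
    have w2 : f ((a * b) * x * (b * a) + (b * a) * x * (a * b))
        = f (a * b) * f x * f (b * a) + f (b * a) * f x * f (a * b) := abc _ _ _
    have w3 : a * (b * x * b) * a + b * (a * x * a) * b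
        = (a * b) * x * (b * a) + (b * a) * x * (a * b) := by noncomm_ring
    rw [w3] at w1
    rw [w1] at w2
    have w4 : f (b * a) = f a * f b + f b * f a - f (a * b) := by
      rw [← hJ, map_add]; abel
    rw [w4] at w2
    have w5 : (f (a * b) - f a * f b) * f x * (f (a * b) - f b * f a)
        + (f (a * b) - f b * f a) * f x * (f (a * b) - f a * f b)
        = (f a * (f b * f x * f b) * f a + f b * (f a * f x * f a) * f b)
          - (f (a * b) * f x * (f a * f b + f b * f a - f (a * b))
            + (f a * f b + f b * f a - f (a * b)) * f x * f (a * b)) := by noncomm_ring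
    rw [w5, w2, sub_self]
  have fix : ∀ a, (∀ b, f (a * b) = f a * f b) ∨ (∀ b, f (a * b) = f b * f a) := by
    intro a
    by_contra hcon
    push Not at hcon
    obtain ⟨⟨b1, hb1⟩, ⟨b2, hb2⟩⟩ := hcon
    have h3 : f (a * b1) = f b1 * f a := by
      rcases main a b1 with h | h
      · exact absurd (sub_eq_zero.mp h) hb1
      · exact sub_eq_zero.mp h
    have h4 : f (a * b2) = f a * f b2 := by
      rcases main a b2 with h | h
      · exact sub_eq_zero.mp h
      · exact absurd (sub_eq_zero.mp h) hb2
    rcases main a (b1 + b2) with h | h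
    · apply hb1
      have := sub_eq_zero.mp h
      rw [mul_add, map_add, map_add, mul_add, h4] at this
      exact add_right_cancel this
    · apply hb2
      have := sub_eq_zero.mp h
      rw [mul_add, map_add, map_add, add_mul, h3] at this
      exact add_left_cancel this
  by_contra hcon
  push Not at hcon
  obtain ⟨⟨a1, b1, h1⟩, ⟨a2, b2, h2'⟩⟩ := hcon
  have g1 : ∀ b, f (a1 * b) = f b * f a1 := by
    rcases fix a1 with h | h
    · exact absurd (h b1) h1
    · exact h
  have g2 : ∀ b, f (a2 * b) = f a2 * f b := by
    rcases fix a2 with h | h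
    · exact h
    · exact absurd (h b2) h2'
  rcases fix (a1 + a2) with h | h
  · apply h1
    have := h b1
    rw [add_mul, map_add, map_add, add_mul, g2] at this
    exact add_right_cancel this
  · apply h2'
    have := h b2
    rw [add_mul, map_add, map_add, mul_add, g1] at this
    exact add_left_cancel this

end Herstein

end Pool.Agent.MP86f994
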