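import Mathlib
import Pool.Agent.Lib_MP_86f994_an.Herstein

/-!
Abstract algebraic part: linear bijections preserving von Neumann regular elements of an algebra
that behaves like `B(H)/F(H)`.
-/

namespace Pool.Agent.MP86f994

section Abstract

variable {A : Type*} [Ring A] [Algebra ℂ A]

/-- von Neumann regular element -/
def Reg (a : A) : Prop := ∃ x, a * x * a = a
/-- left invertible -/
def LInv (a : A) : Prop := ∃ b, b * a = 1
/-- right invertible -/
def RInv (a : A) : Prop := ∃ b, a * b = 1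
/-- one-sided invertible -/
def SemiInv (a : A) : Prop := LInv a ∨ RInv a

variable (A) in
/-- the abstract properties of `A = B(H)/F(H)`, `J = K(H)/F(H)` that are used -/
structure Good (J : Set A) : Prop where
  nontriv : (1:A) ≠ 0
  mulJ : ∀ a k, k ∈ J → a * k ∈ J
  Jmul : ∀ a k, k ∈ J → k * a ∈ J
  oneSub : ∀ k ∈ J, IsUnit (1 - k)
  sandwich : ∀ f g : A, f ≠ 0 → g ≠ 0 → ∃ k ∈ J, f * k * g ≠ 0
  equi : ∀ e : A, e * e = e → e ≠ 0 → ∃ w w', w' * w = 1 ∧ w * w' = e
  dich : ∀ a : A, LInv a ∨ ∃ w w', w' * w = 1 ∧ a * w ∈ J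
  spec : ∀ u : A, ∃ l : ℂ, ¬ SemiInv (u - algebraMap ℂ A l)
  pert : ∀ c d : A, ∃ ε > 0, ∀ s t : ℂ, ‖s‖ < ε → ‖t‖ < ε → IsUnit (1 + s • c + t • d)
  span : Submodule.span ℂ {e : A | e * e = e} = ⊤

variable {J : Set A}

set_option linter.unusedSectionVars false

theorem reg_of_linv {a : A} (h : LInv a) : Reg a := by
  obtain ⟨b, hb⟩ := h
  exact ⟨b, by rw [mul_assoc, hb, mul_one]⟩

theorem reg_of_rinv {a : A} (h : RInv a) : Reg a := by
  obtain ⟨b, hb⟩ := h
  exact ⟨b, by rw [hb, one_mul]⟩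

theorem reg_of_semi {a : A} (h : SemiInv a) : Reg a := h.elim reg_of_linv reg_of_rinv

theorem reg_idem {e : A} (h : e * e = e) : Reg e := ⟨1, by rw [mul_one, h]⟩

theorem reg_mul_unit_left (u : Aˣ) (a : A) : Reg ((u : A) * a) ↔ Reg a := by
  constructor
  · rintro ⟨x, hx⟩
    refine ⟨x * u, ?_⟩
    have : (u : A) * (a * (x * u) * a) = u * a := by
      have e : (u : A) * (a * (x * u) * a) = (u : A) * a * x * (u * a) := by noncomm_ring
      rw [e, hx]
    exact u.mul_right_inj.mp this
  · rintro ⟨x, hx⟩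
    refine ⟨x * ↑u⁻¹, ?_⟩
    have e : (u : A) * a * (x * ↑u⁻¹) * (u * a) = u * (a * x * ((↑u⁻¹ : A) * u) * a) := by
      noncomm_ring
    rw [e, Units.inv_mul, mul_one, hx]

theorem Good.J_reg (hG : Good A J) {k : A} (hk : k ∈ J) (hr : Reg k) : k = 0 := by
  obtain ⟨x, hx⟩ := hr
  obtain ⟨u, hu⟩ := hG.oneSub (k * x) (hG.Jmul x k hk)
  have : (1 - k * x) * k = 0 := by rw [sub_mul, one_mul, hx, sub_self]
  rw [← hu] at this
  exact (Units.mul_right_eq_zero u).mp this

theorem Good.semi_iff (hG : Good A J) (a : A) :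
    SemiInv a ↔ Reg a ∧ ∀ s : A, ∃ ε > 0, ∀ t : ℂ, ‖t‖ < ε → Reg (a + t • s) := by
  constructor
  · intro h
    refine ⟨reg_of_semi h, ?_⟩
    intro s
    rcases h with ⟨b, hb⟩ | ⟨b, hb⟩
    · obtain ⟨ε, hε, H⟩ := hG.pert (b * s) 0
      refine ⟨ε, hε, fun t ht => reg_of_linv ?_⟩
      obtain ⟨u, hu⟩ := H t 0 ht (by simpa using hε)
      refine ⟨↑u⁻¹ * b, ?_⟩
      have : b * (a + t • s) = u := by
        rw [hu, mul_add, hb, mul_smul_comm]; simp
      rw [mul_assoc, this, Units.inv_mul]
    · obtain ⟨ε, hε, H⟩ := hG.pert (s * b) 0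
      refine ⟨ε, hε, fun t ht => reg_of_rinv ?_⟩
      obtain ⟨u, hu⟩ := H t 0 ht (by simpa using hε)
      refine ⟨b * ↑u⁻¹, ?_⟩
      have : (a + t • s) * b = u := by
        rw [hu, add_mul, hb, smul_mul_assoc]; simp
      rw [← mul_assoc, this, Units.mul_inv]
  · rintro ⟨⟨x, hx⟩, H⟩
    by_contra hs
    have hf : (1 - a * x) ≠ 0 := by
      intro h0
      exact hs (Or.inr ⟨x, (sub_eq_zero.mp h0).symm⟩)
    have hg : (1 - x * a) ≠ 0 := by
      intro h0
      exact hs (Or.inl ⟨x, (sub_eq_zero.mp h0).symm⟩)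
    obtain ⟨k, hk, hne⟩ := hG.sandwich _ _ hf hg
    set f := 1 - a * x with hfdef
    set g := 1 - x * a with hgdef
    have hff : f * f = f := by
      rw [hfdef]
      have : (1 - a * x) * (1 - a * x) = 1 - a * x - a * x + (a * x * a) * x := by noncomm_ring
      rw [this, hx]; noncomm_ring
    have hgg : g * g = g := by
      rw [hgdef]
      have : (1 - x * a) * (1 - x * a) = 1 - x * a - x * a + x * (a * x * a) := by noncomm_ring
      rw [this, hx]; noncomm_ring
    have hfa : f * a = 0 := by rw [hfdef, sub_mul, one_mul, hx, sub_self]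
    have hag : a * g = 0 := by rw [hgdef, mul_sub, mul_one, ← mul_assoc, hx, sub_self]
    obtain ⟨ε, hε, Ht⟩ := H (f * k * g)
    have ht0 : ((ε / 2 : ℝ) : ℂ) ≠ 0 := by
      simp [hε.ne']
    obtain ⟨y, hy⟩ := Ht ((ε / 2 : ℝ) : ℂ) (by
      rw [Complex.norm_real, Real.norm_eq_abs, abs_of_pos (by positivity)]; linarith)
    set t : ℂ := ((ε / 2 : ℝ) : ℂ) with htdef
    set s := f * k * g with hsdef
    have hfs : f * s = s := by rw [hsdef, mul_assoc f k g, ← mul_assoc f f, hff]
    have hsg : s * g = s := by rw [hsdef, mul_assoc (f * k), hgg]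
    have hfz : f * (a + t • s) = t • s := by
      rw [mul_add, hfa, zero_add, mul_smul_comm, hfs]
    have hzg : (a + t • s) * g = t • s := by
      rw [add_mul, hag, zero_add, smul_mul_assoc, hsg]
    have h1 : f * ((a + t • s) * y * (a + t • s)) * g = f * (a + t • s) * g := by rw [hy]
    have h2 : f * ((a + t • s) * y * (a + t • s)) * g
        = (f * (a + t • s)) * y * ((a + t • s) * g) := by noncomm_ring
    have h5 : (t • s) * g = t • s := by rw [smul_mul_assoc, hsg]
    rw [h2, hfz, hzg, h5] at h1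
    have h3 : s * (t • y) * s = s := by
      have h4 : t • (s * (t • y) * s) = t • s := by
        rw [← h1]
        simp only [smul_mul_assoc, mul_smul_comm]
      exact smul_right_injective A ht0 h4
    have hsJ : s ∈ J := by
      rw [hsdef]
      exact hG.Jmul _ _ (hG.mulJ _ _ hk)
    exact hne (hG.J_reg hsJ ⟨_, h3⟩)

theorem Good.unit_iff (hG : Good A J) (a : A) :
    IsUnit a ↔ SemiInv a ∧ ∀ s : A, ∃ x y : ℂ, (x ≠ 0 ∨ y ≠ 0) ∧ ¬ SemiInv (x • a + y • s) := by
  constructor
  · rintro ⟨u, rfl⟩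
    refine ⟨Or.inl ⟨↑u⁻¹, u.inv_mul⟩, ?_⟩
    intro s
    obtain ⟨l, hl⟩ := hG.spec (↑u⁻¹ * s)
    refine ⟨-l, 1, Or.inr one_ne_zero, ?_⟩
    intro h
    apply hl
    have e : ↑u⁻¹ * s - algebraMap ℂ A l = ↑u⁻¹ * ((-l) • (u : A) + (1:ℂ) • s) := by
      rw [mul_add, mul_smul_comm, Units.inv_mul, mul_smul_comm, one_smul, neg_smul,
        Algebra.algebraMap_eq_smul_one]
      abel
    rw [e]
    rcases h with ⟨b, hb⟩ | ⟨b, hb⟩
    · left
      refine ⟨b * u, ?_⟩
      have : b * ↑u * (↑u⁻¹ * ((-l) • (u : A) + (1:ℂ) • s))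
          = b * (↑u * ↑u⁻¹) * ((-l) • (u : A) + (1:ℂ) • s) := by simp only [mul_assoc]
      rw [this, Units.mul_inv, mul_one, hb]
    · right
      refine ⟨b * u, ?_⟩
      have : ↑u⁻¹ * ((-l) • (u : A) + (1:ℂ) • s) * (b * ↑u)
          = ↑u⁻¹ * (((-l) • (u : A) + (1:ℂ) • s) * b) * ↑u := by simp only [mul_assoc]
      rw [this, hb, mul_one, Units.inv_mul]
  · rintro ⟨hs, H⟩
    rcases hs with ⟨b, hb⟩ | ⟨b, hb⟩
    · by_cases he : 1 - a * b = 0
      · exact ⟨⟨a, b, (sub_eq_zero.mp he).symm, hb⟩, rfl⟩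
      exfalso
      have hee : (1 - a * b) * (1 - a * b) = 1 - a * b := by
        have : (1 - a * b) * (1 - a * b) = 1 - a * b - a * b + a * (b * a) * b := by noncomm_ring
        rw [this, hb]; noncomm_ring
      obtain ⟨w, w', hw, hw'⟩ := hG.equi _ hee he
      obtain ⟨x, y, hxy, hn⟩ := H w
      apply hn
      left
      have hbe : b * (1 - a * b) = 0 := by
        have : b * (1 - a * b) = b - (b * a) * b := by noncomm_ring
        rw [this, hb]; noncomm_ring
      have hbw : b * w = 0 := by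
        have : b * w = b * (w * w') * w := by
          have : b * (w * w') * w = b * w * (w' * w) := by noncomm_ring
          rw [this, hw, mul_one]
        rw [this, hw', hbe, zero_mul]
      by_cases hx : x = 0
      · have hy : y ≠ 0 := by
          rcases hxy with h | h
          · exact absurd hx h
          · exact h
        refine ⟨y⁻¹ • w', ?_⟩
        rw [hx, zero_smul, zero_add, smul_mul_smul_comm, hw, inv_mul_cancel₀ hy, one_smul]
      · refine ⟨x⁻¹ • b, ?_⟩
        rw [mul_add, smul_mul_smul_comm, smul_mul_smul_comm, hb, hbw, inv_mul_cancel₀ hx, one_smul,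
          smul_zero, add_zero]
    · by_cases he : 1 - b * a = 0
      · exact ⟨⟨a, b, hb, (sub_eq_zero.mp he).symm⟩, rfl⟩
      exfalso
      have hee : (1 - b * a) * (1 - b * a) = 1 - b * a := by
        have : (1 - b * a) * (1 - b * a) = 1 - b * a - b * a + b * (a * b) * a := by noncomm_ring
        rw [this, hb]; noncomm_ring
      obtain ⟨w, w', hw, hw'⟩ := hG.equi _ hee he
      obtain ⟨x, y, hxy, hn⟩ := H w'
      apply hn
      right
      have hbe : (1 - b * a) * b = 0 := by
        have : (1 - b * a) * b = b - b * (a * b) := by noncomm_ring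
        rw [this, hb]; noncomm_ring
      have hbw : w' * b = 0 := by
        have : w' * b = w' * ((w * w') * b) := by
          have : w' * ((w * w') * b) = (w' * w) * (w' * b) := by noncomm_ring
          rw [this, hw, one_mul]
        rw [this, hw', hbe, mul_zero]
      by_cases hx : x = 0
      · have hy : y ≠ 0 := by
          rcases hxy with h | h
          · exact absurd hx h
          · exact h
        refine ⟨y⁻¹ • w, ?_⟩
        rw [hx, zero_smul, zero_add, smul_mul_smul_comm, hw, mul_inv_cancel₀ hy, one_smul]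
      · refine ⟨x⁻¹ • b, ?_⟩
        rw [add_mul, smul_mul_smul_comm, smul_mul_smul_comm, hb, hbw, mul_inv_cancel₀ hx, one_smul,
          smul_zero, add_zero]

/-- if `a + b = 1` and `a`, `b` are regular then `a b` is regular -/
theorem reg_mul_of_add_eq_one {a b : A} (hab : a + b = 1) (ha : Reg a) (hb : Reg b) :
    Reg (a * b) := by
  obtain ⟨x, hx⟩ := ha
  obtain ⟨y, hy⟩ := hb
  have hb' : b = 1 - a := by rw [← hab]; abel
  have hcomm : a * b = b * a := by rw [hb']; noncomm_ring
  -- a (x a b) = a b ; x a b - b ∈ ker a ⊆ im b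
  refine ⟨y * x, ?_⟩
  -- b y (x a b) = x a b
  have h1 : a * (x * (a * b) - b) = 0 := by
    have : a * (x * (a * b) - b) = (a * x * a) * b - a * b := by noncomm_ring
    rw [this, hx, sub_self]
  have h2 : x * (a * b) - b = b * (x * (a * b) - b) := by
    have : b * (x * (a * b) - b) = (x * (a * b) - b) - a * (x * (a * b) - b) := by
      rw [hb']; noncomm_ring
    rw [this, h1, sub_zero]
  have h3 : b * y * (x * (a * b) - b) = x * (a * b) - b := by
    rw [h2]
    have : b * y * (b * (x * (a * b) - b)) = (b * y * b) * (x * (a * b) - b) := by noncomm_ring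
    rw [this, hy]
  have h4 : b * y * (x * (a * b)) = x * (a * b) := by
    have : b * y * (x * (a * b)) = b * y * (x * (a * b) - b) + b * y * b := by noncomm_ring
    rw [this, h3, hy]; abel
  have : a * b * (y * x) * (a * b) = a * (b * y * (x * (a * b))) := by noncomm_ring
  rw [this, h4]
  have : a * (x * (a * b)) = (a * x * a) * b := by noncomm_ring
  rw [this, hx]

end Abstract

end Pool.Agent.MP86f994
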