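import Mathlib

/-!
Hilbert space tools: isometries from orthonormal families, block diagonal operators.
-/

namespace Pool.Agent.MP86f994

set_option linter.unusedSectionVars false

open InnerProductSpace ContinuousLinearMap
open scoped ENNReal InnerProductSpace InnerProduct

section Tools

variable {H : Type*} [NormedAddCommGroup H] [InnerProductSpace ℂ H] [CompleteSpace H]

theorem diag_memLp (T : ℕ → H →L[ℂ] H) (C : ℝ) (hC : ∀ k, ‖T k‖ ≤ C)
    (f : lp (fun _ : ℕ => H) 2) : Memℓp (fun k => T k (f k)) 2 := by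
  have h2 : (0:ℝ) < (2:ℝ≥0∞).toReal := by norm_num
  apply memℓp_gen
  have hs := (lp.memℓp f).summable h2
  refine Summable.of_nonneg_of_le (fun k => by positivity) (fun k => ?_)
    (hs.mul_left (C ^ (2:ℝ≥0∞).toReal))
  have h0 : 0 ≤ C := (norm_nonneg _).trans (hC 0)
  rw [← Real.mul_rpow h0 (norm_nonneg _)]
  apply Real.rpow_le_rpow (norm_nonneg _) _ h2.le
  exact ((T k).le_opNorm _).trans (by gcongr; exact hC k)

/-- coordinatewise operator on `ℓ²(ℕ; H)` -/
noncomputable def diagLp (T : ℕ → H →L[ℂ] H) (C : ℝ) (hC : ∀ k, ‖T k‖ ≤ C) :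
    lp (fun _ : ℕ => H) 2 →L[ℂ] lp (fun _ : ℕ => H) 2 :=
  LinearMap.mkContinuous
    { toFun := fun f => ⟨fun k => T k (f k), diag_memLp T C hC f⟩
      map_add' := fun f g => by
        ext k
        change T k (f k + g k) = T k (f k) + T k (g k)
        exact map_add _ _ _
      map_smul' := fun c f => by
        ext k
        simp } C (by
    intro f
    have h2 : (0:ℝ) < (2:ℝ≥0∞).toReal := by norm_num
    have h0 : 0 ≤ C := (norm_nonneg _).trans (hC 0)
    apply lp.norm_le_of_tsum_le h2 (by positivity)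
    have hs := (lp.memℓp f).summable h2
    have : ∀ k, ‖T k (f k)‖ ^ (2:ℝ≥0∞).toReal
        ≤ C ^ (2:ℝ≥0∞).toReal * ‖f k‖ ^ (2:ℝ≥0∞).toReal := by
      intro k
      rw [← Real.mul_rpow h0 (norm_nonneg _)]
      apply Real.rpow_le_rpow (norm_nonneg _) _ h2.le
      exact ((T k).le_opNorm _).trans (by gcongr; exact hC k)
    calc ∑' k, ‖T k (f k)‖ ^ (2:ℝ≥0∞).toReal
        ≤ ∑' k, C ^ (2:ℝ≥0∞).toReal * ‖f k‖ ^ (2:ℝ≥0∞).toReal :=
          Summable.tsum_le_tsum this
            (Summable.of_nonneg_of_le (fun k => by positivity) this (hs.mul_left _))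
            (hs.mul_left _)
      _ = C ^ (2:ℝ≥0∞).toReal * ∑' k, ‖f k‖ ^ (2:ℝ≥0∞).toReal := tsum_mul_left
      _ = (C * ‖f‖) ^ (2:ℝ≥0∞).toReal := by
          rw [← lp.norm_rpow_eq_tsum h2, Real.mul_rpow h0 (norm_nonneg _)])

theorem diagLp_apply (T : ℕ → H →L[ℂ] H) (C : ℝ) (hC : ∀ k, ‖T k‖ ≤ C)
    (f : lp (fun _ : ℕ => H) 2) (k : ℕ) : diagLp T C hC f k = T k (f k) := rfl

theorem diagLp_single (T : ℕ → H →L[ℂ] H) (C : ℝ) (hC : ∀ k, ‖T k‖ ≤ C) (k : ℕ) (x : H) :
    diagLp T C hC (lp.single 2 k x) = lp.single 2 k (T k x) := by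
  ext j
  rw [diagLp_apply, lp.single_apply, lp.single_apply]
  by_cases h : j = k
  · subst h; simp
  · simp [h]

theorem diagLp_norm (T : ℕ → H →L[ℂ] H) (C : ℝ) (hC : ∀ k, ‖T k‖ ≤ C) :
    ‖diagLp T C hC‖ ≤ C :=
  LinearMap.mkContinuous_norm_le _ ((norm_nonneg _).trans (hC 0)) _

variable (b : HilbertBasis ℕ ℂ H)

/-- the linear isometry sending the basis to a given orthonormal sequence -/
noncomputable def isomI (v : ℕ → H) (hv : Orthonormal ℂ v) : H →ₗᵢ[ℂ] H :=
  (hv.orthogonalFamily.linearIsometry).comp b.repr.toLinearIsometry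

/-- the same as a continuous linear map -/
noncomputable def isom (v : ℕ → H) (hv : Orthonormal ℂ v) : H →L[ℂ] H :=
  (isomI b v hv).toContinuousLinearMap

theorem mulA (S T : H →L[ℂ] H) (x : H) : (S * T) x = S (T x) := rfl

theorem oneA (x : H) : (1 : H →L[ℂ] H) x = x := rfl

theorem isom_apply (v : ℕ → H) (hv : Orthonormal ℂ v) (n : ℕ) : isom b v hv (b n) = v n := by
  simp only [isom, isomI, LinearIsometry.coe_toContinuousLinearMap, LinearIsometry.coe_comp,
    Function.comp_apply, LinearIsometryEquiv.coe_toLinearIsometry]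
  rw [b.repr_self]
  rw [OrthogonalFamily.linearIsometry_apply_single]
  simp

theorem isom_norm (v : ℕ → H) (hv : Orthonormal ℂ v) (x : H) : ‖isom b v hv x‖ = ‖x‖ :=
  (isomI b v hv).norm_map x

theorem isom_adj (v : ℕ → H) (hv : Orthonormal ℂ v) :
    adjoint (isom b v hv) * isom b v hv = 1 :=
  (ContinuousLinearMap.norm_map_iff_adjoint_comp_self _).mp (isom_norm b v hv)

theorem ext_basis {F : Type*} [NormedAddCommGroup F] [NormedSpace ℂ F] {S T : H →L[ℂ] F}
    (h : ∀ n, S (b n) = T (b n)) : S = T := by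
  apply ContinuousLinearMap.ext_on (s := Set.range b)
    (Submodule.dense_iff_topologicalClosure_eq_top.mpr b.dense_span)
  rintro _ ⟨n, rfl⟩
  exact h n

theorem ext_inner_basis {x y : H} (h : ∀ n, ⟪b n, x⟫_ℂ = ⟪b n, y⟫_ℂ) : x = y := by
  apply b.repr.injective
  ext n
  rw [b.repr_apply_apply, b.repr_apply_apply, h n]

end Tools

end Pool.Agent.MP86f994
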