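import Mathlib
import Pool.Agent.Lib_MP_86f994_an.Tools

/-!
Block diagonal operators, the two commuting copies of `B(H)` inside `B(H)`, Bergman's lemma.
-/

namespace Pool.Agent.MP86f994

set_option linter.unusedSectionVars false

open InnerProductSpace ContinuousLinearMap
open scoped ENNReal InnerProductSpace InnerProduct

section Blocks

variable {H : Type*} [NormedAddCommGroup H] [InnerProductSpace ℂ H] [CompleteSpace H]

/-- block diagonal operator along an orthogonal family of isometries -/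
noncomputable def blk (W : ℕ → H →ₗᵢ[ℂ] H) (hW : OrthogonalFamily ℂ (fun _ : ℕ => H) W)
    (T : ℕ → H →L[ℂ] H) (C : ℝ) (hC : ∀ k, ‖T k‖ ≤ C) : H →L[ℂ] H :=
  hW.linearIsometry.toContinuousLinearMap ∘L (diagLp T C hC) ∘L
    (adjoint hW.linearIsometry.toContinuousLinearMap)

theorem blk_apply (W : ℕ → H →ₗᵢ[ℂ] H) (hW : OrthogonalFamily ℂ (fun _ : ℕ => H) W)
    (T : ℕ → H →L[ℂ] H) (C : ℝ) (hC : ∀ k, ‖T k‖ ≤ C) (k : ℕ) (x : H) :
    blk W hW T C hC (W k x) = W k (T k x) := by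
  have h1 : hW.linearIsometry.toContinuousLinearMap (lp.single 2 k x) = W k x := by
    rw [LinearIsometry.coe_toContinuousLinearMap, OrthogonalFamily.linearIsometry_apply_single]
  have h2 : adjoint hW.linearIsometry.toContinuousLinearMap ∘L
      hW.linearIsometry.toContinuousLinearMap = 1 :=
    (ContinuousLinearMap.norm_map_iff_adjoint_comp_self _).mp
      (fun x => hW.linearIsometry.norm_map x)
  have h3 : adjoint hW.linearIsometry.toContinuousLinearMap (W k x) = lp.single 2 k x := by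
    rw [← h1]
    exact congrArg (fun S => S (lp.single 2 k x)) h2
  simp only [blk, ContinuousLinearMap.comp_apply]
  rw [h3, diagLp_single, LinearIsometry.coe_toContinuousLinearMap,
    OrthogonalFamily.linearIsometry_apply_single]

theorem blk_norm (W : ℕ → H →ₗᵢ[ℂ] H) (hW : OrthogonalFamily ℂ (fun _ : ℕ => H) W)
    (T : ℕ → H →L[ℂ] H) (C : ℝ) (hC : ∀ k, ‖T k‖ ≤ C) : ‖blk W hW T C hC‖ ≤ C := by
  have h0 : 0 ≤ C := (norm_nonneg _).trans (hC 0)
  apply ContinuousLinearMap.opNorm_le_bound _ h0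
  intro x
  simp only [blk, ContinuousLinearMap.comp_apply]
  rw [LinearIsometry.coe_toContinuousLinearMap, LinearIsometry.norm_map]
  refine ((diagLp T C hC).le_opNorm _).trans ?_
  refine mul_le_mul (diagLp_norm T C hC) ?_ (norm_nonneg _) h0
  refine (ContinuousLinearMap.le_opNorm _ _).trans ?_
  have : ‖adjoint hW.linearIsometry.toContinuousLinearMap‖ ≤ 1 := by
    rw [LinearIsometryEquiv.norm_map]
    exact LinearIsometry.norm_toContinuousLinearMap_le _
  calc _ ≤ 1 * ‖x‖ := by gcongr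
    _ = ‖x‖ := one_mul _

variable (b : HilbertBasis ℕ ℂ H)

theorem isom_adj_apply (v : ℕ → H) (hv : Orthonormal ℂ v) (n : ℕ) (y : H) :
    ⟪b n, adjoint (isom b v hv) y⟫_ℂ = ⟪v n, y⟫_ℂ := by
  rw [adjoint_inner_right, isom_apply]

theorem isom_orth (v w : ℕ → H) (hv : Orthonormal ℂ v) (hw : Orthonormal ℂ w)
    (h : ∀ i j, ⟪v i, w j⟫_ℂ = 0) : adjoint (isom b v hv) * isom b w hw = 0 := by
  apply ext_basis b
  intro n
  apply ext_inner_basis b
  intro m
  rw [mulA, isom_adj_apply, isom_apply, h]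
  simp

theorem pl_orth (k : ℕ) : Orthonormal ℂ (fun j => b (Nat.pair k j)) :=
  b.orthonormal.comp _ (fun _ _ h => (Nat.pair_eq_pair.mp h).2)

theorem pr_orth (j : ℕ) : Orthonormal ℂ (fun k => b (Nat.pair k j)) :=
  b.orthonormal.comp _ (fun _ _ h => (Nat.pair_eq_pair.mp h).1)

/-- isometries `b j ↦ b (pair k j)` -/
noncomputable def Vl (k : ℕ) : H →L[ℂ] H := isom b _ (pl_orth b k)
/-- isometries `b k ↦ b (pair k j)` -/
noncomputable def Vr (j : ℕ) : H →L[ℂ] H := isom b _ (pr_orth b j)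

theorem Vl_basis (k j : ℕ) : Vl b k (b j) = b (Nat.pair k j) := isom_apply _ _ _ _
theorem Vr_basis (k j : ℕ) : Vr b j (b k) = b (Nat.pair k j) := isom_apply _ _ _ _

theorem Vl_adj_self (k : ℕ) : adjoint (Vl b k) * Vl b k = 1 := isom_adj _ _ _
theorem Vr_adj_self (k : ℕ) : adjoint (Vr b k) * Vr b k = 1 := isom_adj _ _ _

theorem Vl_adj_ne {k l : ℕ} (h : k ≠ l) : adjoint (Vl b k) * Vl b l = 0 := by
  apply isom_orth
  intro i j
  apply b.orthonormal.2
  intro h'
  exact h (Nat.pair_eq_pair.mp h').1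

theorem Vr_adj_ne {k l : ℕ} (h : k ≠ l) : adjoint (Vr b k) * Vr b l = 0 := by
  apply isom_orth
  intro i j
  apply b.orthonormal.2
  intro h'
  exact h (Nat.pair_eq_pair.mp h').2

theorem Vl_family : OrthogonalFamily ℂ (fun _ : ℕ => H) (fun k => isomI b _ (pl_orth b k)) := by
  intro k l hkl x y
  have := Vl_adj_ne b hkl
  change ⟪Vl b k x, Vl b l y⟫_ℂ = 0
  rw [← adjoint_inner_right, ← mulA, this]
  simp

theorem Vr_family : OrthogonalFamily ℂ (fun _ : ℕ => H) (fun k => isomI b _ (pr_orth b k)) := by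
  intro k l hkl x y
  have := Vr_adj_ne b hkl
  change ⟪Vr b k x, Vr b l y⟫_ℂ = 0
  rw [← adjoint_inner_right, ← mulA, this]
  simp

/-- Bergman's lemma: a filtration of the unit ball compatible with products is trivial. -/
theorem bergman (W : ℕ → Set (H →L[ℂ] H)) (C : ℕ)
    (hmul : ∀ m n S T, ‖S‖ ≤ 1 → ‖T‖ ≤ 1 → S ∈ W m → T ∈ W n → S * T ∈ W (m + n + C))
    (hcov : ∀ S : H →L[ℂ] H, ‖S‖ ≤ 1 → ∃ n, S ∈ W n) (b : HilbertBasis ℕ ℂ H) :
    ∃ n, ∀ S : H →L[ℂ] H, ‖S‖ ≤ 1 → S ∈ W n := by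
  by_contra hcon
  push Not at hcon
  have hV1 : ∀ k, ‖Vl b k‖ ≤ 1 := fun k => LinearIsometry.norm_toContinuousLinearMap_le _
  have hV2 : ∀ k, ‖adjoint (Vl b k)‖ ≤ 1 := fun k => by
    rw [LinearIsometryEquiv.norm_map]; exact hV1 k
  choose p hp using fun k => hcov _ (hV1 k)
  choose q hq using fun k => hcov _ (hV2 k)
  choose T hT1 hT2 using fun k => hcon (q k + (k + p k + C) + C)
  obtain ⟨m, hm⟩ := hcov _ (blk_norm _ (Vl_family b) T 1 hT1)
  apply hT2 m
  have hB : blk _ (Vl_family b) T 1 hT1 * Vl b m = Vl b m * T m := by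
    ext x
    exact blk_apply _ (Vl_family b) T 1 hT1 m x
  have h1 := hmul m (p m) _ _ (blk_norm _ (Vl_family b) T 1 hT1) (hV1 m) hm (hp m)
  rw [hB] at h1
  have hn : ‖Vl b m * T m‖ ≤ 1 := by
    refine (norm_mul_le _ _).trans ?_
    exact mul_le_one₀ (hV1 m) (norm_nonneg _) (hT1 m)
  have h2 := hmul (q m) _ _ _ (hV2 m) hn (hq m) h1
  rw [← mul_assoc, Vl_adj_self, one_mul] at h2
  exact h2

/-- the copy `R ⊗ 1` -/
noncomputable def iota (R : H →L[ℂ] H) : H →L[ℂ] H :=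
  blk _ (Vl_family b) (fun _ => R) ‖R‖ (fun _ => le_rfl)

/-- the copy `1 ⊗ Q` -/
noncomputable def kappa (Q : H →L[ℂ] H) : H →L[ℂ] H :=
  blk _ (Vr_family b) (fun _ => Q) ‖Q‖ (fun _ => le_rfl)

theorem iota_V (R : H →L[ℂ] H) (k : ℕ) (x : H) : iota b R (Vl b k x) = Vl b k (R x) :=
  blk_apply _ (Vl_family b) _ _ _ k x

theorem kappa_V (Q : H →L[ℂ] H) (j : ℕ) (x : H) : kappa b Q (Vr b j x) = Vr b j (Q x) :=
  blk_apply _ (Vr_family b) _ _ _ j x

theorem ext_pair {F : Type*} [NormedAddCommGroup F] [NormedSpace ℂ F] {S T : H →L[ℂ] F}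
    (h : ∀ k j, S (b (Nat.pair k j)) = T (b (Nat.pair k j))) : S = T := by
  apply ext_basis b
  intro n
  rw [← Nat.pair_unpair n]
  exact h _ _

theorem iota_add (R S : H →L[ℂ] H) : iota b (R + S) = iota b R + iota b S := by
  apply ext_pair b
  intro k j
  rw [← Vl_basis, add_apply, iota_V, iota_V, iota_V, add_apply, map_add]

theorem iota_smul (c : ℂ) (R : H →L[ℂ] H) : iota b (c • R) = c • iota b R := by
  apply ext_pair b
  intro k j
  rw [← Vl_basis, smul_apply, iota_V, iota_V, smul_apply, map_smul]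

theorem iota_mul (R S : H →L[ℂ] H) : iota b (R * S) = iota b R * iota b S := by
  apply ext_pair b
  intro k j
  rw [← Vl_basis, mulA, iota_V, iota_V, iota_V, mulA]

theorem iota_one : iota b (1 : H →L[ℂ] H) = 1 := by
  apply ext_pair b
  intro k j
  rw [← Vl_basis, iota_V]; rfl

theorem kappa_mul (R S : H →L[ℂ] H) : kappa b (R * S) = kappa b R * kappa b S := by
  apply ext_pair b
  intro k j
  rw [← Vr_basis, mulA, kappa_V, kappa_V, kappa_V, mulA]

theorem kappa_zero : kappa b (0 : H →L[ℂ] H) = 0 := by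
  apply ext_pair b
  intro k j
  rw [← Vr_basis, kappa_V]; simp

theorem iota_adj (R : H →L[ℂ] H) (l : ℕ) :
    adjoint (Vl b l) * iota b R = R * adjoint (Vl b l) := by
  apply ext_pair b
  intro k j
  rw [← Vl_basis, mulA, iota_V, mulA, ← mulA (adjoint (Vl b l)),
    ← mulA (adjoint (Vl b l))]
  by_cases h : l = k
  · subst h; rw [Vl_adj_self]; simp
  · rw [Vl_adj_ne b h]; simp

theorem kappa_adj (R : H →L[ℂ] H) (l : ℕ) :
    adjoint (Vr b l) * kappa b R = R * adjoint (Vr b l) := by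
  apply ext_pair b
  intro k j
  rw [← Vr_basis, mulA, kappa_V, mulA, ← mulA (adjoint (Vr b l)),
    ← mulA (adjoint (Vr b l))]
  by_cases h : l = j
  · subst h; rw [Vr_adj_self]; simp
  · rw [Vr_adj_ne b h]; simp

theorem Vl_adj_Vr (l j : ℕ) : adjoint (Vl b l) * Vr b j = rankOne ℂ (b j) (b l) := by
  apply ext_basis b
  intro k
  rw [mulA, Vr_basis, ← Vl_basis, ← mulA, rankOne_apply]
  by_cases h : l = k
  · subst h; rw [Vl_adj_self]
    have : ⟪b l, b l⟫_ℂ = 1 := by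
      rw [inner_self_eq_norm_sq_to_K, b.orthonormal.1]; simp
    rw [this]; simp
  · rw [Vl_adj_ne b h, b.orthonormal.2 h]; simp

theorem Vr_adj_Vl (k i : ℕ) : adjoint (Vr b i) * Vl b k = rankOne ℂ (b k) (b i) := by
  have := congrArg (star : (H →L[ℂ] H) → _) (Vl_adj_Vr b k i)
  rw [star_mul, star_eq_adjoint, star_eq_adjoint, star_eq_adjoint, adjoint_adjoint,
    adjoint_rankOne] at this
  exact this

theorem iota_kappa_comm (R Q : H →L[ℂ] H) : iota b R * kappa b Q = kappa b Q * iota b R := by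
  apply ext_pair b
  intro k j
  apply ext_inner_basis b
  intro n
  rw [← Nat.pair_unpair n]
  obtain ⟨l, i⟩ := Nat.unpair n
  dsimp only
  have e1 : ⟪b (Nat.pair l i), (iota b R * kappa b Q) (b (Nat.pair k j))⟫_ℂ
      = ⟪b i, R (b j)⟫_ℂ * ⟪b l, Q (b k)⟫_ℂ := by
    rw [← Vr_basis b k j, mulA, kappa_V, ← Vl_basis b l i, ← adjoint_inner_right,
      ← mulA, iota_adj, mulA, ← mulA (adjoint (Vl b l)), Vl_adj_Vr, rankOne_apply,
      map_smul, inner_smul_right, mul_comm]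
  have e2 : ⟪b (Nat.pair l i), (kappa b Q * iota b R) (b (Nat.pair k j))⟫_ℂ
      = ⟪b i, R (b j)⟫_ℂ * ⟪b l, Q (b k)⟫_ℂ := by
    rw [← Vl_basis b k j, mulA, iota_V, ← Vr_basis b l i, ← adjoint_inner_right,
      ← mulA, kappa_adj, mulA, ← mulA (adjoint (Vr b i)), Vr_adj_Vl, rankOne_apply,
      map_smul, inner_smul_right]
  rw [e1, e2]

/-- `V_k = κ(E_{k0}) V_0` -/
theorem kappa_unit_V (k : ℕ) : kappa b (rankOne ℂ (b k) (b 0)) * Vl b 0 = Vl b k := by
  apply ext_basis b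
  intro j
  rw [mulA, Vl_basis, ← Vr_basis, kappa_V, rankOne_apply, Vl_basis, ← Vr_basis]
  have : ⟪b 0, b 0⟫_ℂ = 1 := by
    rw [inner_self_eq_norm_sq_to_K, b.orthonormal.1]; simp
  rw [this, one_smul]

end Blocks

end Pool.Agent.MP86f994
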