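import Mathlib

/-!
Definitions for MP_86f994_an: generalized inverses, finite rank, Fredholm operators, maps
preserving generalized invertibility.
-/

namespace Pool.Agent.MP86f994

/-- `T` has a generalized inverse: there is a bounded `S` with `T S T = T` and `S T S = S`. -/
def GenInvertible {H : Type*} [NormedAddCommGroup H] [InnerProductSpace ℂ H]
    (T : H →L[ℂ] H) : Prop :=
  ∃ S : H →L[ℂ] H, T * S * T = T ∧ S * T * S = S

/-- finite rank operators -/
def FiniteRank {H : Type*} [NormedAddCommGroup H] [InnerProductSpace ℂ H] (T : H →L[ℂ] H) : Prop :=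
  FiniteDimensional ℂ (LinearMap.range (T : H →ₗ[ℂ] H))

/-- Fredholm operators: closed range, finite dimensional kernel and cokernel -/
def IsFredholm {H : Type*} [NormedAddCommGroup H] [InnerProductSpace ℂ H] (A : H →L[ℂ] H) : Prop :=
  IsClosed (Set.range A) ∧ FiniteDimensional ℂ (LinearMap.ker (A : H →ₗ[ℂ] H)) ∧
    FiniteDimensional ℂ (H ⧸ LinearMap.range (A : H →ₗ[ℂ] H))

/-- `φ` preserves generalized invertibility in both directions -/
def PreservesGenInvertible {H : Type*} [NormedAddCommGroup H] [InnerProductSpace ℂ H]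
    (φ : (H →L[ℂ] H) →ₗ[ℂ] (H →L[ℂ] H)) : Prop :=
  ∀ T, GenInvertible T ↔ GenInvertible (φ T)

/-- `φ` is surjective up to finite rank operators -/
def SurjectiveUpToFiniteRank {H : Type*} [NormedAddCommGroup H] [InnerProductSpace ℂ H]
    (φ : (H →L[ℂ] H) →ₗ[ℂ] (H →L[ℂ] H)) : Prop :=
  ∀ A, ∃ B, FiniteRank (A - φ B)

end Pool.Agent.MP86f994
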