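import Mathlib
import Pool.Agent.Lib_MP_86f994_an.Defs
import Pool.Agent.Lib_MP_86f994_an.Rank
import Pool.Agent.Lib_MP_86f994_an.Blocks

/-!
The space of bounded sequences modulo sequences converging along a free ultrafilter, with the
action of `B(H)`; finite rank operators act as zero.
-/

namespace Pool.Agent.MP86f994

set_option linter.unusedSectionVars false

open InnerProductSpace ContinuousLinearMap Filter Topology
open scoped ENNReal InnerProductSpace InnerProduct BoundedContinuousFunction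

section HatSpace

variable (H : Type*) [NormedAddCommGroup H] [InnerProductSpace ℂ H] [CompleteSpace H]

/-- sequences converging along the ultrafilter -/
def cvg : Submodule ℂ (ℕ →ᵇ H) where
  carrier := {x | ∃ g, Tendsto (fun k => x k) (hyperfilter ℕ : Filter ℕ) (𝓝 g)}
  add_mem' := by
    rintro x y ⟨g, hg⟩ ⟨h, hh⟩
    exact ⟨g + h, hg.add hh⟩
  zero_mem' := ⟨0, tendsto_const_nhds⟩
  smul_mem' := by
    rintro c x ⟨g, hg⟩
    exact ⟨c • g, hg.const_smul c⟩

theorem mem_cvg (x : ℕ →ᵇ H) :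
    x ∈ cvg H ↔ ∃ g, Tendsto (fun k => x k) (hyperfilter ℕ : Filter ℕ) (𝓝 g) := Iff.rfl

instance cvg_closed : IsClosed (cvg H : Set (ℕ →ᵇ H)) := by
  rw [← isSeqClosed_iff_isClosed]
  intro x y hx hxy
  rw [SetLike.mem_coe, mem_cvg]
  have hcau : Cauchy (Filter.map (fun k => y k) (hyperfilter ℕ : Filter ℕ)) := by
    rw [Metric.cauchy_iff]
    refine ⟨inferInstance, fun ε hε => ?_⟩
    obtain ⟨n, hn⟩ := (Metric.tendsto_atTop.mp hxy) (ε / 4) (by positivity)
    have hn' := hn n le_rfl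
    obtain ⟨g, hg⟩ := hx n
    have h1 := (Metric.tendsto_nhds.mp hg) (ε / 4) (by positivity)
    refine ⟨_, Filter.image_mem_map h1, ?_⟩
    rintro _ ⟨k, hk, rfl⟩ _ ⟨l, hl, rfl⟩
    simp only [Set.mem_ofPred_eq] at hk hl
    have a1 : dist (x n k) (y k) ≤ dist (x n) y := BoundedContinuousFunction.dist_coe_le_dist k
    have a2 : dist (x n l) (y l) ≤ dist (x n) y := BoundedContinuousFunction.dist_coe_le_dist l
    calc dist (y k) (y l) ≤ dist (y k) (x n k) + dist (x n k) g + dist g (x n l)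
          + dist (x n l) (y l) := by
          have t1 := dist_triangle (y k) (x n k) (y l)
          have t2 := dist_triangle (x n k) g (y l)
          have t3 := dist_triangle g (x n l) (y l)
          linarith
      _ < ε := by
          rw [dist_comm (y k), dist_comm g]
          linarith
  obtain ⟨g, hg⟩ := CompleteSpace.complete hcau
  exact ⟨g, hg⟩

/-- bounded sequences modulo convergent (along the ultrafilter) sequences -/
abbrev Hat := (ℕ →ᵇ H) ⧸ (cvg H)

noncomputable example : NormedAddCommGroup (Hat H) := inferInstance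
noncomputable example : NormedSpace ℂ (Hat H) := inferInstance
example : CompleteSpace (Hat H) := inferInstance

variable {H}

theorem cvg_le (T : H →L[ℂ] H) :
    cvg H ≤ ((cvg H).mkQL ∘L T.compLeftContinuousBounded ℕ).ker := by
  rintro x ⟨g, hg⟩
  rw [LinearMap.mem_ker]
  change (cvg H).mkQ (T.compLeftContinuousBounded ℕ x) = 0
  rw [Submodule.mkQ_apply, Submodule.Quotient.mk_eq_zero, mem_cvg]
  exact ⟨T g, (T.continuous.tendsto g).comp hg⟩

/-- the action of operators -/
noncomputable def act (T : H →L[ℂ] H) : Hat H →L[ℂ] Hat H :=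
  (cvg H).liftQL ((cvg H).mkQL ∘L T.compLeftContinuousBounded ℕ) (cvg_le T)

theorem act_mk (T : H →L[ℂ] H) (x : ℕ →ᵇ H) :
    act T ((cvg H).mkQ x) = (cvg H).mkQ (T.compLeftContinuousBounded ℕ x) := rfl

theorem act_add (S T : H →L[ℂ] H) : act (S + T) = act S + act T := by
  ext x
  obtain ⟨y, rfl⟩ := (cvg H).mkQ_surjective x
  rw [add_apply, act_mk, act_mk, act_mk, ← map_add]
  rfl

theorem act_smul (c : ℂ) (T : H →L[ℂ] H) : act (c • T) = c • act T := by
  ext x
  obtain ⟨y, rfl⟩ := (cvg H).mkQ_surjective x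
  rw [smul_apply, act_mk, act_mk, ← map_smul]
  rfl

theorem act_mul (S T : H →L[ℂ] H) : act (S * T) = act S * act T := by
  ext x
  obtain ⟨y, rfl⟩ := (cvg H).mkQ_surjective x
  change _ = act S (act T ((cvg H).mkQ y))
  rw [act_mk, act_mk, act_mk]
  rfl

theorem act_one : act (1 : H →L[ℂ] H) = 1 := by
  ext x
  obtain ⟨y, rfl⟩ := (cvg H).mkQ_surjective x
  rw [act_mk]
  rfl

theorem act_zero_of_finiteRank (T : H →L[ℂ] H) (hT : FiniteRank T) : act T = 0 := by
  ext x
  obtain ⟨y, rfl⟩ := (cvg H).mkQ_surjective x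
  rw [act_mk, zero_apply, Submodule.mkQ_apply, Submodule.Quotient.mk_eq_zero, mem_cvg]
  have : FiniteDimensional ℂ (LinearMap.range (T : H →ₗ[ℂ] H)) := hT
  have hcomp : IsCompact ((fun z : LinearMap.range (T : H →ₗ[ℂ] H) => (z : H)) ''
      Metric.closedBall 0 (‖T‖ * ‖y‖)) := by
    have : ProperSpace (LinearMap.range (T : H →ₗ[ℂ] H)) := FiniteDimensional.proper ℂ _
    exact (isCompact_closedBall _ _).image continuous_subtype_val
  have hmem : ∀ k, T (y k) ∈ ((fun z : LinearMap.range (T : H →ₗ[ℂ] H) => (z : H)) ''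
      Metric.closedBall 0 (‖T‖ * ‖y‖)) := by
    intro k
    refine ⟨⟨T (y k), ⟨y k, rfl⟩⟩, ?_, rfl⟩
    rw [mem_closedBall_zero_iff]
    calc ‖T (y k)‖ ≤ ‖T‖ * ‖y k‖ := T.le_opNorm _
      _ ≤ ‖T‖ * ‖y‖ := by gcongr; exact y.norm_coe_le_norm k
  obtain ⟨g, _, hg⟩ := hcomp.ultrafilter_le_nhds ((hyperfilter ℕ).map (fun k => T (y k))) (by
    rw [le_principal_iff]
    change (fun k => T (y k)) ⁻¹' _ ∈ (hyperfilter ℕ : Filter ℕ)
    exact Filter.univ_mem' hmem)
  exact ⟨g, hg⟩

theorem hat_nontrivial (b : HilbertBasis ℕ ℂ H) : Nontrivial (Hat H) := by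
  let y : ℕ →ᵇ H := BoundedContinuousFunction.ofNormedAddCommGroup (fun k => b k)
    (continuous_of_discreteTopology) 1 (fun k => (b.orthonormal.1 k).le)
  refine ⟨⟨(cvg H).mkQ y, 0, ?_⟩⟩
  rw [Ne, Submodule.mkQ_apply, Submodule.Quotient.mk_eq_zero, mem_cvg]
  rintro ⟨g, hg⟩
  have h1 := (Metric.tendsto_nhds.mp hg) (1/2) (by positivity)
  obtain ⟨k, hk⟩ := h1.exists
  have h2 : ∀ᶠ l in (hyperfilter ℕ : Filter ℕ), l ≠ k := by
    apply hyperfilter_le_cofinite
    exact (Set.finite_singleton k).compl_mem_cofinite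
  obtain ⟨l, hl, hlk⟩ := (h1.and h2).exists
  have hk' : dist (b k) g < 1 / 2 := hk
  have hl' : dist (b l) g < 1 / 2 := hl
  have h3 : dist (b k) (b l) < 1 := by
    calc dist (b k) (b l) ≤ dist (b k) g + dist (b l) g := dist_triangle_right _ _ _
      _ < 1 := by linarith
  have h4 : ‖b k - b l‖ ^ 2 = 2 := by
    have := @norm_sub_sq ℂ H _ _ _ (b k) (b l)
    rw [this, b.orthonormal.2 (Ne.symm hlk), b.orthonormal.1, b.orthonormal.1]
    simp; norm_num
  rw [dist_eq_norm] at h3
  nlinarith [norm_nonneg (b k - b l)]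

end HatSpace

end Pool.Agent.MP86f994
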