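import Mathlib
import Pool.Agent.Lib_MP_86f994_an.Hat
import Pool.Agent.Lib_MP_86f994_an.Algebra

/-!
The quotient algebra `B(H)/F(H)`.
-/

namespace Pool.Agent.MP86f994

set_option linter.unusedSectionVars false

open InnerProductSpace ContinuousLinearMap Filter Topology
open scoped ENNReal InnerProductSpace InnerProduct

section Quot

variable {H : Type*} [NormedAddCommGroup H] [InnerProductSpace ℂ H]

theorem finiteRank_iff (T : H →L[ℂ] H) :
    FiniteRank T ↔ ∃ n, RkLE n (T : H →ₗ[ℂ] H) := rkLE_iff_range.symm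

theorem FiniteRank.add {S T : H →L[ℂ] H} (hS : FiniteRank S) (hT : FiniteRank T) :
    FiniteRank (S + T) := by
  rw [finiteRank_iff] at *
  obtain ⟨n, hn⟩ := hS
  obtain ⟨m, hm⟩ := hT
  exact ⟨_, hn.add hm⟩

theorem FiniteRank.zero : FiniteRank (0 : H →L[ℂ] H) := by
  rw [finiteRank_iff]; exact ⟨0, RkLE.zero 0⟩

theorem FiniteRank.neg {S : H →L[ℂ] H} (hS : FiniteRank S) : FiniteRank (-S) := by
  rw [finiteRank_iff] at *
  obtain ⟨n, hn⟩ := hS
  exact ⟨n, hn.neg⟩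

theorem FiniteRank.sub {S T : H →L[ℂ] H} (hS : FiniteRank S) (hT : FiniteRank T) :
    FiniteRank (S - T) := by
  rw [sub_eq_add_neg]; exact hS.add hT.neg

theorem FiniteRank.mul_left {T : H →L[ℂ] H} (hT : FiniteRank T) (S : H →L[ℂ] H) :
    FiniteRank (S * T) := by
  rw [finiteRank_iff] at *
  obtain ⟨n, hn⟩ := hT
  exact ⟨n, hn.comp_left (S : H →ₗ[ℂ] H)⟩

theorem FiniteRank.mul_right {T : H →L[ℂ] H} (hT : FiniteRank T) (S : H →L[ℂ] H) :
    FiniteRank (T * S) := by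
  rw [finiteRank_iff] at *
  obtain ⟨n, hn⟩ := hT
  exact ⟨n, hn.comp_right (S : H →ₗ[ℂ] H)⟩

theorem finiteRank_rankOne (x y : H) : FiniteRank (rankOne ℂ x y) := by
  rw [finiteRank_iff]
  refine ⟨Module.finrank ℂ (Submodule.span ℂ {x}), Submodule.span ℂ {x}, inferInstance, le_rfl,
    fun v => ?_⟩
  rw [Submodule.mem_span_singleton]
  exact ⟨_, rfl⟩

variable (H) in
/-- the ideal of finite rank operators -/
def finIdeal : Ideal (H →L[ℂ] H) where
  carrier := {T | FiniteRank T}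
  add_mem' := fun ha hb => FiniteRank.add ha hb
  zero_mem' := FiniteRank.zero
  smul_mem' := fun c _ hx => FiniteRank.mul_left hx c

theorem mem_finIdeal (T : H →L[ℂ] H) : T ∈ finIdeal H ↔ FiniteRank T := Iff.rfl

instance : (finIdeal H).IsTwoSided := ⟨fun b ha => FiniteRank.mul_right ha b⟩

variable (H) in
/-- the algebra `B(H)/F(H)` -/
abbrev QF := (H →L[ℂ] H) ⧸ finIdeal H

/-- the quotient map -/
noncomputable def qf : (H →L[ℂ] H) →ₐ[ℂ] QF H := Ideal.Quotient.mkₐ ℂ (finIdeal H)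

theorem qf_surj : Function.Surjective (qf : (H →L[ℂ] H) → QF H) := Ideal.Quotient.mkₐ_surjective _ _

theorem qf_eq_zero (T : H →L[ℂ] H) : qf T = 0 ↔ FiniteRank T :=
  Ideal.Quotient.eq_zero_iff_mem

theorem qf_eq (S T : H →L[ℂ] H) : qf S = qf T ↔ FiniteRank (S - T) := by
  rw [← sub_eq_zero, ← map_sub, qf_eq_zero]

variable (H) in
/-- operators that are norm limits of finite rank operators -/
def clF : Set (H →L[ℂ] H) := closure {T | FiniteRank T}

theorem clF_mul_left {T : H →L[ℂ] H} (hT : T ∈ clF H) (S : H →L[ℂ] H) : S * T ∈ clF H := by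
  apply map_mem_closure (continuous_const_mul S) hT
  intro R hR
  exact FiniteRank.mul_left hR S

theorem clF_mul_right {T : H →L[ℂ] H} (hT : T ∈ clF H) (S : H →L[ℂ] H) : T * S ∈ clF H := by
  apply map_mem_closure (continuous_mul_const S) hT
  intro R hR
  exact FiniteRank.mul_right hR S

variable (H) in
/-- the ideal `K(H)/F(H)` -/
def JJ : Set (QF H) := qf '' clF H

theorem JJ_mul (a k : QF H) (hk : k ∈ JJ H) : a * k ∈ JJ H := by
  obtain ⟨T, hT, rfl⟩ := hk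
  obtain ⟨S, rfl⟩ := qf_surj a
  exact ⟨S * T, clF_mul_left hT S, map_mul _ _ _⟩

theorem JJ_mul' (a k : QF H) (hk : k ∈ JJ H) : k * a ∈ JJ H := by
  obtain ⟨T, hT, rfl⟩ := hk
  obtain ⟨S, rfl⟩ := qf_surj a
  exact ⟨T * S, clF_mul_right hT S, map_mul _ _ _⟩

theorem isUnit_of_close [CompleteSpace H] (T : H →L[ℂ] H) (h : ‖T‖ < 1) :
    IsUnit (1 - T) := isUnit_one_sub_of_norm_lt_one h

theorem JJ_oneSub [CompleteSpace H] (k : QF H) (hk : k ∈ JJ H) : IsUnit (1 - k) := by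
  obtain ⟨T, hT, rfl⟩ := hk
  obtain ⟨F, hF, hd⟩ := Metric.mem_closure_iff.mp hT 1 one_pos
  have h1 : qf T = qf (T - F) := by
    rw [qf_eq]
    have : T - (T - F) = F := by abel
    rw [this]; exact hF
  rw [h1, ← map_one qf, ← map_sub]
  apply IsUnit.map
  apply isUnit_of_close
  rwa [dist_eq_norm] at hd

theorem QF_pert [CompleteSpace H] (c d : QF H) : ∃ ε > 0, ∀ s t : ℂ, ‖s‖ < ε → ‖t‖ < ε →
    IsUnit (1 + s • c + t • d) := by
  obtain ⟨C, rfl⟩ := qf_surj c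
  obtain ⟨D, rfl⟩ := qf_surj d
  refine ⟨1 / (‖C‖ + ‖D‖ + 1), by positivity, fun s t hs ht => ?_⟩
  have h1 : (1 : QF H) + s • qf C + t • qf D = qf (1 - (-(s • C + t • D))) := by
    rw [sub_neg_eq_add, map_add, map_one, map_add, map_smul, map_smul, add_assoc]
  rw [h1]
  apply IsUnit.map
  apply isUnit_of_close
  rw [norm_neg]
  calc ‖s • C + t • D‖ ≤ ‖s‖ * ‖C‖ + ‖t‖ * ‖D‖ := by
        refine (norm_add_le _ _).trans ?_
        rw [norm_smul, norm_smul]
    _ ≤ (1 / (‖C‖ + ‖D‖ + 1)) * ‖C‖ + (1 / (‖C‖ + ‖D‖ + 1)) * ‖D‖ := by gcongr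
    _ = (‖C‖ + ‖D‖) / (‖C‖ + ‖D‖ + 1) := by ring
    _ < 1 := by
        rw [div_lt_one (by positivity)]; linarith

/-- in a complex Banach algebra some `u - l` is not one-sided invertible -/
theorem exists_not_semiInv {B : Type*} [NormedRing B] [NormedAlgebra ℂ B] [CompleteSpace B]
    [Nontrivial B] (u : B) : ∃ l : ℂ, ¬ SemiInv (u - algebraMap ℂ B l) := by
  obtain ⟨l, hl, hmax⟩ := (spectrum.isCompact (𝕜 := ℂ) u).exists_isMaxOn
    (spectrum.nonempty u) Complex.continuous_re.continuousOn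
  refine ⟨l, ?_⟩
  have hunit : ∀ n : ℕ, IsUnit (u - algebraMap ℂ B (l + ((1 / ((n:ℝ) + 1) : ℝ) : ℂ))) := by
    intro n
    by_contra hcon
    have h1 : (l + ((1 / ((n:ℝ) + 1) : ℝ) : ℂ)) ∈ spectrum ℂ u := by
      rw [spectrum.mem_iff]
      intro h
      apply hcon
      have := h.neg
      rwa [neg_sub] at this
    have h2 := hmax h1
    have h3 : (l + ((1 / ((n:ℝ) + 1) : ℝ) : ℂ)).re ≤ l.re := h2
    rw [Complex.add_re, Complex.ofReal_re] at h3
    have : (0:ℝ) < 1 / ((n:ℝ) + 1) := by positivity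
    linarith
  have hsmall : ∀ b : B, ∃ n : ℕ, ‖((1 / ((n:ℝ) + 1) : ℝ) : ℂ) • b‖ < 1 := by
    intro b
    obtain ⟨n, hn⟩ := exists_nat_gt ‖b‖
    refine ⟨n, ?_⟩
    rw [norm_smul, Complex.norm_real, Real.norm_eq_abs, abs_of_pos (by positivity), one_div,
      inv_mul_lt_iff₀ (by positivity)]
    linarith
  have hl' : ¬ IsUnit (u - algebraMap ℂ B l) := by
    intro h
    apply spectrum.mem_iff.mp hl
    have := h.neg
    rwa [neg_sub] at this
  have split : ∀ n : ℕ, u - algebraMap ℂ B (l + ((1 / ((n:ℝ) + 1) : ℝ) : ℂ))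
      = (u - algebraMap ℂ B l) - ((1 / ((n:ℝ) + 1) : ℝ) : ℂ) • (1 : B) := by
    intro n
    rw [map_add, Algebra.algebraMap_eq_smul_one (((1 / ((n:ℝ) + 1) : ℝ) : ℂ))]
    abel
  rintro (⟨b, hb⟩ | ⟨b, hb⟩)
  · obtain ⟨n, hn⟩ := hsmall b
    obtain ⟨w, hw⟩ := hunit n
    obtain ⟨z, hz⟩ := isUnit_one_sub_of_norm_lt_one hn
    have e : b * (w : B) = z := by
      rw [hw, hz, split, mul_sub, hb, mul_smul_comm, mul_one]
    have hbz : b = z * ↑w⁻¹ := by rw [← e, mul_assoc, Units.mul_inv, mul_one]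
    apply hl'
    have hbu : IsUnit b := by rw [hbz]; exact ⟨z * w⁻¹, by simp⟩
    obtain ⟨b', rfl⟩ := hbu
    have : u - algebraMap ℂ B l = ↑b'⁻¹ := by
      rw [← mul_one (↑b'⁻¹ : B), ← hb, ← mul_assoc, Units.inv_mul, one_mul]
    rw [this]; exact ⟨b'⁻¹, rfl⟩
  · obtain ⟨n, hn⟩ := hsmall b
    obtain ⟨w, hw⟩ := hunit n
    obtain ⟨z, hz⟩ := isUnit_one_sub_of_norm_lt_one hn
    have e : (w : B) * b = z := by
      rw [hw, hz, split, sub_mul, hb, smul_mul_assoc, one_mul]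
    have hbz : b = ↑w⁻¹ * z := by rw [← e, ← mul_assoc, Units.inv_mul, one_mul]
    apply hl'
    have hbu : IsUnit b := by rw [hbz]; exact ⟨w⁻¹ * z, by simp⟩
    obtain ⟨b', rfl⟩ := hbu
    have : u - algebraMap ℂ B l = ↑b'⁻¹ := by
      rw [← one_mul (↑b'⁻¹ : B), ← hb, mul_assoc, Units.mul_inv, mul_one]
    rw [this]; exact ⟨b'⁻¹, rfl⟩

/-- the action of the quotient algebra on bounded sequences modulo convergent ones -/
noncomputable def actHom [CompleteSpace H] : (H →L[ℂ] H) →ₐ[ℂ] (Hat H →L[ℂ] Hat H) :=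
  AlgHom.ofLinearMap
    { toFun := act
      map_add' := act_add
      map_smul' := act_smul } act_one act_mul

noncomputable def actQ [CompleteSpace H] : QF H →ₐ[ℂ] (Hat H →L[ℂ] Hat H) :=
  Ideal.Quotient.liftₐ (finIdeal H) actHom (fun T hT => act_zero_of_finiteRank T hT)

theorem QF_spec [CompleteSpace H] (b : HilbertBasis ℕ ℂ H) (u : QF H) :
    ∃ l : ℂ, ¬ SemiInv (u - algebraMap ℂ (QF H) l) := by
  have := hat_nontrivial b
  obtain ⟨l, hl⟩ := exists_not_semiInv (actQ u)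
  refine ⟨l, fun h => hl ?_⟩
  have e : actQ u - algebraMap ℂ _ l = actQ (u - algebraMap ℂ (QF H) l) := by
    rw [map_sub, AlgHom.commutes]
  rw [e]
  rcases h with ⟨c, hc⟩ | ⟨c, hc⟩
  · exact Or.inl ⟨actQ c, by rw [← map_mul, hc, map_one]⟩
  · exact Or.inr ⟨actQ c, by rw [← map_mul, hc, map_one]⟩

theorem QF_nontrivial [CompleteSpace H] (b : HilbertBasis ℕ ℂ H) : (1 : QF H) ≠ 0 := by
  have := hat_nontrivial b
  intro h
  have : actQ (1 : QF H) = actQ 0 := by rw [h]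
  rw [map_one, map_zero] at this
  exact one_ne_zero this

end Quot

end Pool.Agent.MP86f994
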