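import Mathlib
import Pool.Agent.Lib_MP_86f994_an.QF

/-!
Isometries onto closed infinite dimensional subspaces; lower bounds and left inverses modulo
finite rank.
-/

namespace Pool.Agent.MP86f994

set_option linter.unusedSectionVars false

open InnerProductSpace ContinuousLinearMap Filter Topology
open scoped ENNReal InnerProductSpace InnerProduct

section IsomOnto

variable {H : Type*} [NormedAddCommGroup H] [InnerProductSpace ℂ H] [CompleteSpace H]

theorem separable_of_basis (b : HilbertBasis ℕ ℂ H) : TopologicalSpace.SeparableSpace H := by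
  rw [← TopologicalSpace.isSeparable_univ_iff]
  have h1 : TopologicalSpace.IsSeparable (Set.range b) := (Set.countable_range b).isSeparable
  have h2 := (h1.span (R := ℂ)).closure
  have h3 : closure (Submodule.span ℂ (Set.range b) : Set H) = Set.univ := by
    have := b.dense_span
    rw [← Submodule.topologicalClosure_coe, this]; rfl
  rw [h3] at h2
  exact h2

theorem exists_isometry_onto (b : HilbertBasis ℕ ℂ H) (E : Submodule ℂ H)
    (hE : IsClosed (E : Set H)) (hinf : ¬ FiniteDimensional ℂ E) :
    ∃ w : H →L[ℂ] H, adjoint w * w = 1 ∧ (∀ x, w x ∈ E) ∧ ∀ x ∈ E, w (adjoint w x) = x := by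
  have : CompleteSpace E := hE.completeSpace_coe
  have hsep := separable_of_basis b
  have : SecondCountableTopology H := UniformSpace.secondCountable_of_separable H
  obtain ⟨s, bs, hbs⟩ := exists_hilbertBasis ℂ E
  have hdisc : DiscreteTopology s := by
    apply DiscreteTopology.of_forall_le_dist (r := 1) one_pos
    intro x y hxy
    have horth : ⟪bs x, bs y⟫_ℂ = 0 := bs.orthonormal.2 hxy
    have e := @norm_sub_sq ℂ E _ _ _ (bs x) (bs y)
    rw [horth, bs.orthonormal.1, bs.orthonormal.1] at e
    have e2 : dist x y = ‖bs x - bs y‖ := by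
      rw [← dist_eq_norm, Subtype.dist_eq, hbs]
    change (1:ℝ) ≤ dist x y
    rw [e2]
    have e3 : ‖bs x - bs y‖ ^ 2 = 2 := by rw [e]; simp; norm_num
    nlinarith [norm_nonneg (bs x - bs y)]
  have hcount : Countable s := TopologicalSpace.separableSpace_iff_countable.mp inferInstance
  have hinfs : Infinite s := by
    by_contra hcon
    rw [not_infinite_iff_finite] at hcon
    have := Fintype.ofFinite s
    exact hinf (Module.Finite.of_basis bs.toOrthonormalBasis.toBasis)
  obtain ⟨e⟩ : Nonempty (ℕ ≃ s) := nonempty_equiv_of_countable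
  have hv : Orthonormal ℂ (fun n => ((bs (e n) : E) : H)) := by
    have h1 : Orthonormal ℂ (fun n => bs (e n)) := bs.orthonormal.comp _ e.injective
    exact h1.comp_linearIsometry E.subtypeₗᵢ
  refine ⟨isom b _ hv, isom_adj b _ hv, ?_, ?_⟩
  · -- range in E
    have hP : E.starProjection * isom b _ hv = isom b _ hv := by
      apply ext_basis b
      intro n
      rw [mulA, isom_apply, Submodule.starProjection_eq_self_iff]
      exact (bs (e n)).2
    intro x
    rw [← hP, mulA]
    exact Submodule.starProjection_apply_mem _ _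
  · intro x hx
    have hP : ∀ x, isom b _ hv x ∈ E := by
      have hP : E.starProjection * isom b _ hv = isom b _ hv := by
        apply ext_basis b
        intro n
        rw [mulA, isom_apply, Submodule.starProjection_eq_self_iff]
        exact (bs (e n)).2
      intro x
      rw [← hP, mulA]
      exact Submodule.starProjection_apply_mem _ _
    obtain ⟨y, hy⟩ : ∃ y : E, (y : H) = x - isom b _ hv (adjoint (isom b _ hv) x) :=
      ⟨⟨_, E.sub_mem hx (hP _)⟩, rfl⟩
    have hy0 : y = 0 := by
      apply bs.repr.injective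
      rw [map_zero]
      ext i
      rw [bs.repr_apply_apply]
      obtain ⟨n, rfl⟩ := e.surjective i
      have h1 : ⟪bs (e n), y⟫_ℂ = ⟪isom b _ hv (b n), (y : H)⟫_ℂ := by
        rw [isom_apply]; rfl
      rw [h1, ← adjoint_inner_right, hy, map_sub, ← mulA (adjoint (isom b _ hv)) (isom b _ hv),
        isom_adj]
      simp
    have : x - isom b _ hv (adjoint (isom b _ hv) x) = 0 := by rw [← hy, hy0]; rfl
    exact (sub_eq_zero.mp this).symm

/-- bounded below on a closed subspace of finite codimension implies left invertible modulo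
finite rank -/
theorem left_inverse_of_bddBelow (T : H →L[ℂ] H) (K : Submodule ℂ H) [FiniteDimensional ℂ K]
    (c : ℝ) (hc : 0 < c) (h : ∀ x ∈ Kᗮ, c * ‖x‖ ≤ ‖T x‖) :
    ∃ B : H →L[ℂ] H, FiniteRank (B * T - 1) := by
  let f : Kᗮ →L[ℂ] H := T ∘L Kᗮ.subtypeL
  have hanti : AntilipschitzWith (Real.toNNReal (1 / c)) f := by
    apply AddMonoidHomClass.antilipschitz_of_bound f
    intro x
    have h1 := h x x.2
    rw [Real.coe_toNNReal _ (by positivity)]
    change ‖(x : H)‖ ≤ 1 / c * ‖T x‖
    rw [div_mul_eq_mul_div, le_div_iff₀ hc]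
    linarith
  have hcl : IsClosed (Set.range f) := hanti.isClosed_range f.uniformContinuous
  let eq := ContinuousLinearMap.equivRange (f := f) hanti.injective hcl
  have : CompleteSpace f.range := hcl.completeSpace_coe
  let B : H →L[ℂ] H := Kᗮ.subtypeL ∘L (eq.symm : f.range →L[ℂ] Kᗮ) ∘L
    f.range.orthogonalProjectionOnto
  refine ⟨B, ?_⟩
  have hB : ∀ x ∈ Kᗮ, B (T x) = x := by
    intro x hx
    have h1 : T x = ((⟨f ⟨x, hx⟩, by simp⟩ : f.range) : H) := rfl
    have h2 : f.range.orthogonalProjectionOnto (T x) = ⟨f ⟨x, hx⟩, by simp⟩ := by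
      rw [h1]
      exact Submodule.orthogonalProjectionOnto_mem_subspace_eq_self _
    change ((eq.symm (f.range.orthogonalProjectionOnto (T x)) : Kᗮ) : H) = x
    rw [h2]
    have := ContinuousLinearMap.equivRange_symm_apply (f := f) hanti.injective hcl ⟨x, hx⟩
    exact congrArg (fun z : Kᗮ => (z : H)) this
  rw [finiteRank_iff]
  refine ⟨_, K.map ((B * T - 1 : H →L[ℂ] H) : H →ₗ[ℂ] H), inferInstance, le_rfl, fun x => ?_⟩
  refine ⟨K.starProjection x, Submodule.starProjection_apply_mem _ _, ?_⟩
  have h1 : x = K.starProjection x + (x - K.starProjection x) := by abel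
  have h2 : x - K.starProjection x ∈ Kᗮ := Submodule.sub_starProjection_mem_orthogonal x
  have h3 : (B * T - 1) (x - K.starProjection x) = 0 := by
    rw [sub_apply, mulA, hB _ h2]
    simp
  change (B * T - 1) (K.starProjection x) = (B * T - 1) x
  conv_rhs => rw [h1, map_add, h3, add_zero]

end IsomOnto

end Pool.Agent.MP86f994
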