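import Mathlib
import Pool.Agent.Lib_MP_86f994_an.Isom

/-!
Concrete properties of `B(H)/F(H)`: idempotents, dichotomy, primeness.
-/

namespace Pool.Agent.MP86f994

set_option linter.unusedSectionVars false

open InnerProductSpace ContinuousLinearMap Filter Topology
open scoped ENNReal InnerProductSpace InnerProduct

section Calkin

variable {H : Type*} [NormedAddCommGroup H] [InnerProductSpace ℂ H] [CompleteSpace H]

theorem infinite_dim (b : HilbertBasis ℕ ℂ H) : ¬ FiniteDimensional ℂ H := by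
  intro h
  have h1 := b.orthonormal.linearIndependent
  have := h1.finite
  exact not_finite ℕ

theorem finiteRank_of_comp {S T : H →L[ℂ] H} (h : FiniteRank (S * T))
    (hS : FiniteDimensional ℂ (LinearMap.ker (S : H →ₗ[ℂ] H))) : FiniteRank T := by
  rw [finiteRank_iff] at *
  exact rkLE_of_comp (g := (S : H →ₗ[ℂ] H)) h hS

theorem finiteRank_of_comp_inj {S T : H →L[ℂ] H} (h : FiniteRank (S * T))
    (hS : ∀ x, S x = 0 → x = 0) : FiniteRank T := by
  apply finiteRank_of_comp h
  have : LinearMap.ker (S : H →ₗ[ℂ] H) = ⊥ := by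
    rw [Submodule.eq_bot_iff]
    intro x hx
    exact hS x hx
  rw [this]
  infer_instance

theorem finiteRank_of_ker_le {S T : H →L[ℂ] H} (hS : FiniteRank S)
    (h : ∀ x, S x = 0 → T x = 0) : FiniteRank T := by
  rw [finiteRank_iff] at *
  have h1 := finite_quot_ker_of_rkLE hS
  apply rkLE_of_ker_finite
  have hle : LinearMap.ker (S : H →ₗ[ℂ] H) ≤ LinearMap.ker (T : H →ₗ[ℂ] H) := fun x hx => h x hx
  exact Module.Finite.of_surjective (Submodule.factor hle) (Submodule.factor_surjective hle)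

theorem QF_equi (b : HilbertBasis ℕ ℂ H) (e : QF H) (he : e * e = e) (h0 : e ≠ 0) :
    ∃ w w' : QF H, w' * w = 1 ∧ w * w' = e := by
  obtain ⟨S, rfl⟩ := qf_surj e
  have hG : FiniteRank (S * S - S) := by
    rw [← qf_eq, map_mul]; exact he
  let E : Submodule ℂ H := LinearMap.ker ((S - 1 : H →L[ℂ] H) : H →ₗ[ℂ] H)
  have hE : IsClosed (E : Set H) := ContinuousLinearMap.isClosed_ker (S - 1)
  have hmemE : ∀ x, x ∈ E ↔ S x = x := by
    intro x
    change (S - 1) x = 0 ↔ S x = x
    rw [sub_apply, oneA, sub_eq_zero]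
  have hinf : ¬ FiniteDimensional ℂ E := by
    intro hfin
    apply h0
    rw [qf_eq_zero]
    have h1 : (S - 1) * S = S * S - S := by noncomm_ring
    exact finiteRank_of_comp (S := S - 1) (by rw [h1]; exact hG) hfin
  obtain ⟨w, hw1, hw2, hw3⟩ := exists_isometry_onto b E hE hinf
  have hSw : S * w = w := by
    ext x
    exact (hmemE _).mp (hw2 x)
  refine ⟨qf w, qf (adjoint w * S), ?_, ?_⟩
  · rw [← map_mul, mul_assoc, hSw, hw1, map_one]
  · rw [← map_mul, qf_eq]
    apply finiteRank_of_ker_le hG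
    intro x hx
    have h1 : S (S x) = S x := by
      have := hx
      rw [sub_apply, mulA, sub_eq_zero] at this
      exact this
    have h2 := hw3 (S x) ((hmemE _).mpr h1)
    rw [sub_apply, mulA, mulA, h2, sub_self]

theorem exists_sum_rankOne (b : HilbertBasis ℕ ℂ H) (y : ℕ → H)
    (hy : Summable (fun n => ‖y n‖)) : ∃ S ∈ clF H, ∀ m, S (b m) = y m := by
  have hs : Summable (fun n => rankOne ℂ (y n) (b n)) := by
    apply Summable.of_norm
    simpa [b.orthonormal.1] using hy
  refine ⟨∑' n, rankOne ℂ (y n) (b n), ?_, ?_⟩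
  · apply mem_closure_of_tendsto hs.hasSum
    apply Filter.Eventually.of_forall
    intro s
    change FiniteRank _
    induction s using Finset.induction_on with
    | empty => simpa using FiniteRank.zero
    | insert a s ha ih =>
      rw [Finset.sum_insert ha]
      exact (finiteRank_rankOne _ _).add ih
  · intro m
    have h1 : HasSum (fun n => (rankOne ℂ (y n) (b n)) (b m))
        ((∑' n, rankOne ℂ (y n) (b n)) (b m)) :=
      hs.hasSum.mapL (ContinuousLinearMap.apply ℂ H (b m))
    have h2 := hasSum_single (f := fun n => (rankOne ℂ (y n) (b n)) (b m)) m (by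
      intro n hn
      rw [rankOne_apply, b.orthonormal.2 hn, zero_smul])
    rw [h1.unique h2, rankOne_apply]
    have : ⟪b m, b m⟫_ℂ = 1 := by
      rw [inner_self_eq_norm_sq_to_K, b.orthonormal.1]; simp
    rw [this, one_smul]

theorem exists_inj_compact (b : HilbertBasis ℕ ℂ H) : ∃ K ∈ clF H, ∀ x, K x = 0 → x = 0 := by
  obtain ⟨K, hK, hKb⟩ := exists_sum_rankOne b (fun n => ((1/2:ℂ)^n) • b n) (by
    have : (fun n => ‖((1/2:ℂ)^n) • b n‖) = fun n => (1/2:ℝ)^n := by
      funext n
      rw [norm_smul, b.orthonormal.1, norm_pow]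
      norm_num
    rw [this]
    exact summable_geometric_of_lt_one (by norm_num) (by norm_num))
  refine ⟨K, hK, fun x hx => ?_⟩
  have hadj : ∀ n, adjoint K (b n) = ((1/2:ℂ)^n) • b n := by
    intro n
    apply ext_inner_basis b
    intro m
    rw [adjoint_inner_right, hKb]
    rw [inner_smul_left, inner_smul_right]
    by_cases h : m = n
    · subst h; simp [map_ofNat]
    · rw [b.orthonormal.2 h]; simp
  apply ext_inner_basis b
  intro n
  have h1 : ⟪adjoint K (b n), x⟫_ℂ = 0 := by
    rw [adjoint_inner_left, hx, inner_zero_right]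
  rw [hadj, inner_smul_left] at h1
  rw [inner_zero_right]
  rcases mul_eq_zero.mp h1 with h | h
  · exfalso
    simp at h
  · exact h

theorem QF_sandwich (b : HilbertBasis ℕ ℂ H) (f g : QF H) (hf : f ≠ 0) (hg : g ≠ 0) :
    ∃ k ∈ JJ H, f * k * g ≠ 0 := by
  obtain ⟨S, rfl⟩ := qf_surj f
  obtain ⟨T, rfl⟩ := qf_surj g
  rw [Ne, qf_eq_zero] at hf hg
  obtain ⟨K, hK, hKinj⟩ := exists_inj_compact b
  have hT1 : ¬ FiniteRank (K * T) := fun h => hg (finiteRank_of_comp_inj h hKinj)
  let R : Submodule ℂ H := LinearMap.range ((K * T : H →L[ℂ] H) : H →ₗ[ℂ] H)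
  have hE1 : ¬ FiniteDimensional ℂ R.topologicalClosure := by
    intro h
    exact hT1 (Submodule.finiteDimensional_of_le (S₂ := R.topologicalClosure)
      R.le_topologicalClosure)
  let N : Submodule ℂ H := LinearMap.ker (S : H →ₗ[ℂ] H)
  have hNcl : IsClosed (N : Set H) := S.isClosed_ker
  have : CompleteSpace N := hNcl.completeSpace_coe
  have hE2 : ¬ FiniteDimensional ℂ Nᗮ := by
    intro h
    apply hf
    rw [finiteRank_iff]
    refine ⟨_, (Nᗮ).map (S : H →ₗ[ℂ] H), inferInstance, le_rfl, fun x => ?_⟩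
    refine ⟨Nᗮ.starProjection x, Submodule.starProjection_apply_mem _ _, ?_⟩
    have h2 : x - Nᗮ.starProjection x ∈ Nᗮᗮ := Submodule.sub_starProjection_mem_orthogonal x
    rw [Submodule.orthogonal_orthogonal] at h2
    have h3 : S (x - Nᗮ.starProjection x) = 0 := h2
    rw [map_sub, sub_eq_zero] at h3
    exact h3.symm
  obtain ⟨w1, h11, h12, h13⟩ := exists_isometry_onto b _ R.isClosed_topologicalClosure hE1
  obtain ⟨w2, h21, h22, h23⟩ := exists_isometry_onto b _ N.isClosed_orthogonal hE2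
  refine ⟨qf (w2 * adjoint w1 * K), ⟨_, clF_mul_left hK _, rfl⟩, ?_⟩
  rw [Ne, ← map_mul, ← map_mul, qf_eq_zero]
  intro hfin
  apply hT1
  have e1 : w1 * (adjoint w1 * (K * T)) = K * T := by
    ext x
    exact h13 _ (R.le_topologicalClosure ⟨x, rfl⟩)
  rw [← e1]
  apply FiniteRank.mul_left
  apply finiteRank_of_comp_inj (S := S * w2)
  · have : S * w2 * (adjoint w1 * (K * T)) = S * (w2 * adjoint w1 * K) * T := by noncomm_ring
    rw [this]; exact hfin
  · intro x hx
    have h1 : w2 x ∈ N := hx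
    have h2 : w2 x = 0 := by
      have := Submodule.inner_right_of_mem_orthogonal h1 (h22 x)
      exact inner_self_eq_zero.mp this
    have : x = (adjoint w2 * w2) x := by rw [h21]; rfl
    rw [this, mulA, h2, map_zero]

theorem QF_dich (b : HilbertBasis ℕ ℂ H) (a : QF H) :
    LInv a ∨ ∃ w w' : QF H, w' * w = 1 ∧ a * w ∈ JJ H := by
  obtain ⟨T, rfl⟩ := qf_surj a
  by_cases hT : ∃ (K : Submodule ℂ H) (_ : FiniteDimensional ℂ K) (c : ℝ), 0 < c ∧
      ∀ x ∈ Kᗮ, c * ‖x‖ ≤ ‖T x‖
  · left
    obtain ⟨K, hK, c, hc, h⟩ := hT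
    obtain ⟨B, hB⟩ := left_inverse_of_bddBelow T K c hc h
    refine ⟨qf B, ?_⟩
    rw [← map_mul, ← map_one qf, qf_eq]
    exact hB
  · right
    push Not at hT
    have step : ∀ s : Finset (ℕ × H), (∀ p ∈ s, ‖p.2‖ = 1 ∧ ‖T p.2‖ ≤ (1/2:ℝ)^p.1) →
        ∃ q : ℕ × H, (‖q.2‖ = 1 ∧ ‖T q.2‖ ≤ (1/2:ℝ)^q.1) ∧
          ∀ p ∈ s, ⟪p.2, q.2⟫_ℂ = 0 ∧ p.1 < q.1 := by
      classical
      intro s _
      obtain ⟨N, hN⟩ : ∃ N : ℕ, ∀ p ∈ s, p.1 < N := by
        refine ⟨s.sup (fun p => p.1) + 1, fun p hp => ?_⟩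
        have := Finset.le_sup (f := fun p : ℕ × H => p.1) hp
        exact Nat.lt_succ_of_le this
      let K : Submodule ℂ H := Submodule.span ℂ ((s.image (fun p => p.2) : Finset H) : Set H)
      have hKf : FiniteDimensional ℂ K := inferInstance
      obtain ⟨x, hx, hlt⟩ := hT K hKf ((1/2:ℝ)^N) (by positivity)
      have hx0 : ‖x‖ ≠ 0 := by
        intro h0
        rw [h0, mul_zero] at hlt
        exact absurd hlt (not_lt.mpr (norm_nonneg _))
      have hxpos : 0 < ‖x‖ := lt_of_le_of_ne (norm_nonneg _) (Ne.symm hx0)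
      refine ⟨(N, ((‖x‖⁻¹ : ℝ) : ℂ) • x), ⟨?_, ?_⟩, ?_⟩
      · simp only
        rw [norm_smul, Complex.norm_real, Real.norm_eq_abs, abs_of_pos (inv_pos.mpr hxpos),
          inv_mul_cancel₀ hx0]
      · simp only
        rw [map_smul, norm_smul, Complex.norm_real, Real.norm_eq_abs,
          abs_of_pos (inv_pos.mpr hxpos), inv_mul_le_iff₀ hxpos]
        rw [mul_comm]; exact hlt.le
      · intro p hp
        refine ⟨?_, hN p hp⟩
        simp only
        rw [inner_smul_right]
        have : p.2 ∈ K := Submodule.subset_span (by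
          simp only [Finset.coe_image]
          exact ⟨p, hp, rfl⟩)
        rw [Submodule.inner_right_of_mem_orthogonal this hx, mul_zero]
    obtain ⟨f, hf1, hf2⟩ := exists_seq_of_forall_finset_exists
      (fun p : ℕ × H => ‖p.2‖ = 1 ∧ ‖T p.2‖ ≤ (1/2:ℝ)^p.1)
      (fun p q => ⟪p.2, q.2⟫_ℂ = 0 ∧ p.1 < q.1) step
    have hge : ∀ n, n ≤ (f n).1 := by
      intro n
      induction n with
      | zero => exact Nat.zero_le _
      | succ n ih => exact lt_of_le_of_lt ih (hf2 n (n+1) (Nat.lt_succ_self n)).2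
    have horth : Orthonormal ℂ (fun n => (f n).2) := by
      refine ⟨fun n => (hf1 n).1, ?_⟩
      intro m n hmn
      rcases lt_or_gt_of_ne hmn with h | h
      · exact (hf2 m n h).1
      · rw [← inner_conj_symm, (hf2 n m h).1, map_zero]
    have hsum : Summable (fun n => ‖T (f n).2‖) := by
      refine Summable.of_nonneg_of_le (fun n => norm_nonneg _) (fun n => ?_)
        (summable_geometric_of_lt_one (r := (1/2:ℝ)) (by norm_num) (by norm_num))
      refine (hf1 n).2.trans ?_
      exact pow_le_pow_of_le_one (by norm_num) (by norm_num) (hge n)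
    obtain ⟨S, hS, hSb⟩ := exists_sum_rankOne b _ hsum
    have hSe : T * isom b _ horth = S := by
      apply ext_basis b
      intro n
      rw [hSb, mulA, isom_apply]
    refine ⟨qf (isom b _ horth), qf (adjoint (isom b _ horth)), ?_, ?_⟩
    · rw [← map_mul, isom_adj, map_one]
    · exact ⟨S, hS, by rw [← hSe, map_mul]⟩

end Calkin

end Pool.Agent.MP86f994
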