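import Mathlib
import Pool.Agent.Lib_MP_86f994_an.Calkin

/-!
`B(H)` is spanned by idempotents; `B(H)/F(H)` is `Good`.
-/

namespace Pool.Agent.MP86f994

set_option linter.unusedSectionVars false

open InnerProductSpace ContinuousLinearMap Filter Topology
open scoped ENNReal InnerProductSpace InnerProduct

section SpanAlg

variable {A : Type*} [Ring A] [Algebra ℂ A]

/-- span of the idempotents -/
def idSpan (A : Type*) [Ring A] [Algebra ℂ A] : Submodule ℂ A :=
  Submodule.span ℂ {e : A | e * e = e}

theorem idem_mem {e : A} (he : e * e = e) : e ∈ idSpan A := Submodule.subset_span he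

theorem off_mem1 {e x : A} (he : e * e = e) (h1 : e * x = x) (h2 : x * e = 0) : x ∈ idSpan A := by
  have hxx : x * x = 0 := by
    have : x * x = (x * e) * x := by rw [mul_assoc, h1]
    rw [this, h2, zero_mul]
  have : x = (e + x) - e := by abel
  rw [this]
  refine Submodule.sub_mem _ (idem_mem ?_) (idem_mem he)
  have : (e + x) * (e + x) = e * e + e * x + x * e + x * x := by noncomm_ring
  rw [this, he, h1, h2, hxx]; abel

theorem off_mem2 {e x : A} (he : e * e = e) (h1 : e * x = 0) (h2 : x * e = x) : x ∈ idSpan A := by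
  have hxx : x * x = 0 := by
    have : x * x = x * (e * x) := by rw [← mul_assoc, h2]
    rw [this, h1, mul_zero]
  have : x = (e + x) - e := by abel
  rw [this]
  refine Submodule.sub_mem _ (idem_mem ?_) (idem_mem he)
  have : (e + x) * (e + x) = e * e + e * x + x * e + x * x := by noncomm_ring
  rw [this, he, h1, h2, hxx]; abel

theorem comm_mem {e x y : A} (he : e * e = e) (h1 : e * x = x) (h2 : x * e = 0)
    (h3 : e * y = 0) (h4 : y * e = y) : x * y - y * x ∈ idSpan A := by
  have hxx : x * x = 0 := by
    have : x * x = (x * e) * x := by rw [mul_assoc, h1]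
    rw [this, h2, zero_mul]
  have hyy : y * y = 0 := by
    have : y * y = y * (e * y) := by rw [← mul_assoc, h4]
    rw [this, h3, mul_zero]
  -- idempotent p = (1+x)(e+y)(1-x)
  have hp : (e + y) * (e + y) = e + y := by
    have : (e + y) * (e + y) = e * e + e * y + y * e + y * y := by noncomm_ring
    rw [this, he, h3, h4, hyy]; abel
  have hxm : (1 - x) * (1 + x) = 1 := by
    have : (1 - x) * (1 + x) = 1 - x * x := by noncomm_ring
    rw [this, hxx, sub_zero]
  have hid : ((1 + x) * (e + y) * (1 - x)) * ((1 + x) * (e + y) * (1 - x))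
      = (1 + x) * (e + y) * (1 - x) := by
    have : ((1 + x) * (e + y) * (1 - x)) * ((1 + x) * (e + y) * (1 - x))
        = (1 + x) * ((e + y) * (((1 - x) * (1 + x)) * (e + y))) * (1 - x) := by noncomm_ring
    rw [this, hxm, one_mul, hp]
  have hexp : (1 + x) * (e + y) * (1 - x) = e + y + x * y - x - y * x - x * y * x := by
    have : (1 + x) * (e + y) * (1 - x)
        = e + y + x * e + x * y - e * x - y * x - (x * e) * x - x * y * x := by noncomm_ring
    rw [this, h1, h2]; noncomm_ring
  have hxyx : x * y * x ∈ idSpan A := by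
    apply off_mem1 he
    · have : e * (x * y * x) = (e * x) * y * x := by noncomm_ring
      rw [this, h1]
    · rw [mul_assoc (x * y), h2, mul_zero]
  have : x * y - y * x = (1 + x) * (e + y) * (1 - x) - e - y + x + x * y * x := by
    rw [hexp]; abel
  rw [this]
  exact Submodule.add_mem _ (Submodule.add_mem _ (Submodule.sub_mem _ (Submodule.sub_mem _
    (idem_mem hid) (idem_mem he)) (off_mem2 he h3 h4)) (off_mem1 he h1 h2)) hxyx

/-- commutators, embedded into a corner -/
theorem corner_comm_mem {A0 A1 A0' A1' a c : A} (h00 : A0' * A0 = 1) (h11 : A1' * A1 = 1)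
    (h01 : A0' * A1 = 0) (h10 : A1' * A0 = 0) :
    A0 * (a * c - c * a) * A0' ∈ idSpan A := by
  have he : (A0 * A0') * (A0 * A0') = A0 * A0' := by
    have : (A0 * A0') * (A0 * A0') = A0 * (A0' * A0) * A0' := by noncomm_ring
    rw [this, h00, mul_one]
  have key : ∀ a c : A, A0 * a * c * A0' - A1 * c * a * A1' ∈ idSpan A := by
    intro a c
    have := comm_mem (x := A0 * a * A1') (y := A1 * c * A0') he
      (by
        have : A0 * A0' * (A0 * a * A1') = A0 * (A0' * A0) * a * A1' := by noncomm_ring
        rw [this, h00, mul_one])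
      (by
        have : A0 * a * A1' * (A0 * A0') = A0 * a * (A1' * A0) * A0' := by noncomm_ring
        rw [this, h10]; simp)
      (by
        have : A0 * A0' * (A1 * c * A0') = A0 * (A0' * A1) * c * A0' := by noncomm_ring
        rw [this, h01]; simp)
      (by
        have : A1 * c * A0' * (A0 * A0') = A1 * c * (A0' * A0) * A0' := by noncomm_ring
        rw [this, h00, mul_one])
    have e : A0 * a * A1' * (A1 * c * A0') - A1 * c * A0' * (A0 * a * A1')
        = A0 * a * (A1' * A1) * c * A0' - A1 * c * (A0' * A0) * a * A1' := by noncomm_ring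
    rw [e, h00, h11] at this
    simpa using this
  have h1 := key a c
  have h2 := key (c * a) 1
  have : A0 * (a * c - c * a) * A0'
      = (A0 * a * c * A0' - A1 * c * a * A1') - (A0 * (c * a) * 1 * A0' - A1 * 1 * (c * a) * A1') := by
    noncomm_ring
  rw [this]
  exact Submodule.sub_mem _ h1 h2

theorem span_all {W W' U U' : A} (hW : W' * W = 1) (hU : U' * U = 1)
    (hUW : U' * W = 0) (hsum : W * W' + U * U' = 1)
    (hin : ∀ z : A, W * z * W' ∈ idSpan A) (z : A) : z ∈ idSpan A := by
  have hWU : W' * U = 0 := by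
    have : W' * U = W' * (W * W' + U * U') * U := by rw [hsum, mul_one]
    have e : W' * (W * W' + U * U') * U = (W' * W) * (W' * U) + (W' * U) * (U' * U) := by
      noncomm_ring
    rw [e, hW, hU, one_mul, mul_one] at this
    -- this : W'U = W'U + W'U
    have h2 : W' * U + W' * U - W' * U = 0 := by rw [← this, sub_self]
    simpa using h2
  have he : (W * W') * (W * W') = W * W' := by
    have : (W * W') * (W * W') = W * (W' * W) * W' := by noncomm_ring
    rw [this, hW, mul_one]
  have m2 : ∀ y, W * y * U' ∈ idSpan A := by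
    intro y
    apply off_mem1 he
    · have : W * W' * (W * y * U') = W * (W' * W) * y * U' := by noncomm_ring
      rw [this, hW, mul_one]
    · have : W * y * U' * (W * W') = W * y * (U' * W) * W' := by noncomm_ring
      rw [this, hUW]; simp
  have m3 : ∀ y, U * y * W' ∈ idSpan A := by
    intro y
    apply off_mem2 he
    · have : W * W' * (U * y * W') = W * (W' * U) * y * W' := by noncomm_ring
      rw [this, hWU]; simp
    · have : U * y * W' * (W * W') = U * y * (W' * W) * W' := by noncomm_ring
      rw [this, hW, mul_one]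
  have m4 : ∀ t, U * t * U' ∈ idSpan A := by
    intro t
    have := comm_mem (x := W * t * U') (y := U * W') he
      (by
        have : W * W' * (W * t * U') = W * (W' * W) * t * U' := by noncomm_ring
        rw [this, hW, mul_one])
      (by
        have : W * t * U' * (W * W') = W * t * (U' * W) * W' := by noncomm_ring
        rw [this, hUW]; simp)
      (by
        have : W * W' * (U * W') = W * (W' * U) * W' := by noncomm_ring
        rw [this, hWU]; simp)
      (by
        have : U * W' * (W * W') = U * (W' * W) * W' := by noncomm_ring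
        rw [this, hW, mul_one])
    have e : W * t * U' * (U * W') - U * W' * (W * t * U')
        = W * t * (U' * U) * W' - U * (W' * W) * t * U' := by noncomm_ring
    rw [e, hU, hW, mul_one, mul_one] at this
    have h2 : U * t * U' = W * t * W' - (W * t * W' - U * t * U') := by abel
    rw [h2]
    exact Submodule.sub_mem _ (hin t) this
  have hz : z = W * (W' * z * W) * W' + W * (W' * z * U) * U' + U * (U' * z * W) * W'
      + U * (U' * z * U) * U' := by
    have : W * (W' * z * W) * W' + W * (W' * z * U) * U' + U * (U' * z * W) * W'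
      + U * (U' * z * U) * U' = (W * W' + U * U') * z * (W * W' + U * U') := by noncomm_ring
    rw [this, hsum]; simp
  rw [hz]
  exact Submodule.add_mem _ (Submodule.add_mem _ (Submodule.add_mem _ (hin _) (m2 _)) (m3 _)) (m4 _)

end SpanAlg

section SpanH

variable {H : Type*} [NormedAddCommGroup H] [InnerProductSpace ℂ H] [CompleteSpace H]

theorem kappa_one (b : HilbertBasis ℕ ℂ H) : kappa b (1 : H →L[ℂ] H) = 1 := by
  apply ext_pair b
  intro k j
  rw [← Vr_basis, kappa_V]; rfl

theorem kappa_sub (b : HilbertBasis ℕ ℂ H) (R S : H →L[ℂ] H) :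
    kappa b (R - S) = kappa b R - kappa b S := by
  apply ext_pair b
  intro k j
  rw [← Vr_basis, sub_apply, kappa_V, kappa_V, kappa_V, sub_apply, map_sub]

theorem shift_orth (b : HilbertBasis ℕ ℂ H) : Orthonormal ℂ (fun n => b (n + 1)) :=
  b.orthonormal.comp _ (fun _ _ h => Nat.succ_injective h)

theorem shift_mul (b : HilbertBasis ℕ ℂ H) :
    isom b _ (shift_orth b) * adjoint (isom b _ (shift_orth b)) = 1 - rankOne ℂ (b 0) (b 0) := by
  apply ext_basis b
  intro n
  rw [mulA, sub_apply, oneA, rankOne_apply]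
  cases n with
  | zero =>
    have h1 : adjoint (isom b _ (shift_orth b)) (b 0) = 0 := by
      apply ext_inner_basis b
      intro m
      rw [isom_adj_apply, b.orthonormal.2 (Nat.succ_ne_zero m), inner_zero_right]
    have : ⟪b 0, b 0⟫_ℂ = 1 := by
      rw [inner_self_eq_norm_sq_to_K, b.orthonormal.1]; simp
    rw [h1, this]; simp
  | succ n =>
    have h1 : adjoint (isom b _ (shift_orth b)) (b (n + 1)) = b n := by
      rw [← isom_apply b _ (shift_orth b) n, ← mulA, isom_adj]; rfl
    rw [h1, isom_apply, b.orthonormal.2 (Nat.succ_ne_zero n).symm]; simp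

theorem kappa_unit (b : HilbertBasis ℕ ℂ H) :
    kappa b (rankOne ℂ (b 0) (b 0)) = Vl b 0 * adjoint (Vl b 0) := by
  apply ext_pair b
  intro k j
  have e1 : kappa b (rankOne ℂ (b 0) (b 0)) (b (Nat.pair k j))
      = Vr b j (⟪b 0, b k⟫_ℂ • b 0) := by
    rw [← Vr_basis, kappa_V, rankOne_apply]
  have e2 : (Vl b 0 * adjoint (Vl b 0)) (b (Nat.pair k j))
      = Vl b 0 ((adjoint (Vl b 0) * Vl b k) (b j)) := by
    rw [← Vl_basis]; rfl
  rw [e1, e2]
  by_cases h : k = 0
  · subst h
    have : ⟪b 0, b 0⟫_ℂ = 1 := by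
      rw [inner_self_eq_norm_sq_to_K, b.orthonormal.1]; simp
    rw [this, one_smul, Vl_adj_self, Vr_basis, oneA, Vl_basis]
  · rw [b.orthonormal.2 (Ne.symm h), Vl_adj_ne b (Ne.symm h)]; simp

theorem idSpan_BH (b : HilbertBasis ℕ ℂ H) (T : H →L[ℂ] H) : T ∈ idSpan (H →L[ℂ] H) := by
  have hne : ∀ i j : ℕ, i ≠ j → adjoint (Vl b i) * Vl b j = 0 := fun i j h => Vl_adj_ne b h
  obtain ⟨W, hWdef⟩ : ∃ W, W = Vl b 0 * Vl b 0 := ⟨_, rfl⟩
  have hWa : adjoint W = adjoint (Vl b 0) * adjoint (Vl b 0) := by
    rw [hWdef]; exact star_mul (Vl b 0) (Vl b 0)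
  have hW : adjoint W * W = 1 := by
    rw [hWa, hWdef]
    have : adjoint (Vl b 0) * adjoint (Vl b 0) * (Vl b 0 * Vl b 0)
        = adjoint (Vl b 0) * (adjoint (Vl b 0) * Vl b 0) * Vl b 0 := by noncomm_ring
    rw [this, Vl_adj_self, mul_one, Vl_adj_self]
  -- W z W* in span
  have hin : ∀ z : H →L[ℂ] H, W * z * adjoint W ∈ idSpan (H →L[ℂ] H) := by
    intro z
    obtain ⟨s, hs⟩ : ∃ s, s = isom b _ (shift_orth b) := ⟨_, rfl⟩
    have hs1 : adjoint s * s = 1 := by rw [hs]; exact isom_adj _ _ _
    have hs2 : s * adjoint s = 1 - rankOne ℂ (b 0) (b 0) := by rw [hs]; exact shift_mul b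
    have hc : kappa b (adjoint s) * (iota b z * kappa b s) - (iota b z * kappa b s) *
        kappa b (adjoint s) = Vl b 0 * z * adjoint (Vl b 0) := by
      have e1 : kappa b (adjoint s) * (iota b z * kappa b s) = iota b z := by
        rw [← mul_assoc, ← iota_kappa_comm, mul_assoc, ← kappa_mul, hs1, kappa_one, mul_one]
      have e2 : (iota b z * kappa b s) * kappa b (adjoint s)
          = iota b z - Vl b 0 * z * adjoint (Vl b 0) := by
        rw [mul_assoc, ← kappa_mul, hs2, kappa_sub, kappa_one, kappa_unit, mul_sub, mul_one,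
          ← mul_assoc]
        have : iota b z * Vl b 0 = Vl b 0 * z := by
          ext x; exact iota_V b z 0 x
        rw [this]
      rw [e1, e2]; abel
    have := corner_comm_mem (A0 := Vl b 0) (A1 := Vl b 1) (A0' := adjoint (Vl b 0))
      (A1' := adjoint (Vl b 1)) (a := kappa b (adjoint s)) (c := iota b z * kappa b s)
      (Vl_adj_self b 0) (Vl_adj_self b 1) (hne 0 1 (by norm_num)) (hne 1 0 (by norm_num))
    rw [hc] at this
    have e3 : W * z * adjoint W = Vl b 0 * (Vl b 0 * z * adjoint (Vl b 0)) * adjoint (Vl b 0) := by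
      rw [hWa, hWdef]; noncomm_ring
    rw [e3]; exact this
  -- complementary isometry
  let E : Submodule ℂ H := LinearMap.ker (adjoint W : H →ₗ[ℂ] H)
  have hE : IsClosed (E : Set H) := (adjoint W).isClosed_ker
  have hEinf : ¬ FiniteDimensional ℂ E := by
    intro hfin
    apply infinite_dim b
    let g : H →ₗ[ℂ] E := LinearMap.codRestrict E (Vl b 1 : H →ₗ[ℂ] H) (fun x => by
      change adjoint W (Vl b 1 x) = 0
      rw [hWa, mulA, ← mulA (adjoint (Vl b 0)) (Vl b 1), hne 0 1 (by norm_num)]
      simp)
    apply FiniteDimensional.of_injective g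
    intro x y hxy
    have h1 : Vl b 1 x = Vl b 1 y := congrArg (fun z : E => (z : H)) hxy
    have h2 : (adjoint (Vl b 1) * Vl b 1) x = (adjoint (Vl b 1) * Vl b 1) y := by
      rw [mulA, mulA, h1]
    rwa [Vl_adj_self] at h2
  obtain ⟨U, hU1, hU2, hU3⟩ := exists_isometry_onto b E hE hEinf
  have hWU : adjoint W * U = 0 := by
    ext x
    exact hU2 x
  have hUW : adjoint U * W = 0 := by
    have h := congrArg (star : (H →L[ℂ] H) → _) hWU
    rw [star_mul, star_eq_adjoint, star_eq_adjoint, adjoint_adjoint, star_zero] at h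
    exact h
  have hsum : W * adjoint W + U * adjoint U = 1 := by
    ext x
    have h1 : x - W (adjoint W x) ∈ E := by
      change adjoint W (x - W (adjoint W x)) = 0
      rw [map_sub, ← mulA (adjoint W) W, hW, oneA, sub_self]
    have h2 := hU3 _ h1
    rw [map_sub, ← mulA (adjoint U) W, hUW, zero_apply, sub_zero] at h2
    rw [add_apply, mulA, mulA, h2, oneA]
    abel
  exact span_all hW hU1 hUW hsum hin T

/-- `B(H)/F(H)` has all the properties needed for the abstract part. -/
theorem good_QF (b : HilbertBasis ℕ ℂ H) : Good (QF H) (JJ H) where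
  nontriv := QF_nontrivial b
  mulJ := JJ_mul
  Jmul := JJ_mul'
  oneSub := JJ_oneSub
  sandwich := QF_sandwich b
  equi := QF_equi b
  dich := QF_dich b
  spec := QF_spec b
  pert := QF_pert
  span := by
    rw [eq_top_iff]
    intro a _
    obtain ⟨T, rfl⟩ := qf_surj a
    have hT := idSpan_BH b T
    have h1 : (qf T) ∈ (idSpan (H →L[ℂ] H)).map (qf : (H →L[ℂ] H) →ₐ[ℂ] QF H).toLinearMap :=
      Submodule.mem_map_of_mem hT
    have h2 : (idSpan (H →L[ℂ] H)).map (qf : (H →L[ℂ] H) →ₐ[ℂ] QF H).toLinearMap
        ≤ Submodule.span ℂ {e : QF H | e * e = e} := by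
      rw [idSpan, Submodule.map_span_le]
      intro e he
      apply Submodule.subset_span
      change qf e * qf e = qf e
      rw [← map_mul]
      congr 1
    exact h2 h1

end SpanH

end Pool.Agent.MP86f994
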