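import Mathlib
import Pool.Agent.Lib_MP_86f994_an.MaxRank
import Pool.Agent.Lib_MP_86f994_an.Span

/-!
Maps `H → Hat H` given by bounded sequences of operators.
-/

namespace Pool.Agent.MP86f994

set_option linter.unusedSectionVars false

open InnerProductSpace ContinuousLinearMap Filter Topology
open scoped ENNReal InnerProductSpace InnerProduct BoundedContinuousFunction

section Ultra

variable {H : Type*} [NormedAddCommGroup H] [InnerProductSpace ℂ H] [CompleteSpace H]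

/-- rank bound for bounded operators -/
abbrev rk (n : ℕ) (T : H →L[ℂ] H) : Prop := RkLE n (T : H →ₗ[ℂ] H)

/-- bounded sequence of vectors obtained from a bounded sequence of operators -/
noncomputable def bseq (G : ℕ → H →L[ℂ] H) (hG : ∃ M : ℝ, ∀ k, ‖G k‖ ≤ M) : H →L[ℂ] (ℕ →ᵇ H) :=
  LinearMap.mkContinuousOfExistsBound
    { toFun := fun h => BoundedContinuousFunction.ofNormedAddCommGroup (fun k => G k h)
        continuous_of_discreteTopology (hG.choose * ‖h‖) (fun k =>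
          ((G k).le_opNorm h).trans (by gcongr; exact hG.choose_spec k))
      map_add' := fun x y => by
        ext k; exact map_add (G k) x y
      map_smul' := fun c x => by
        ext k; exact map_smul (G k) c x }
    (by
      refine ⟨hG.choose, fun h => ?_⟩
      have h0 : 0 ≤ hG.choose := (norm_nonneg _).trans (hG.choose_spec 0)
      rw [BoundedContinuousFunction.norm_le (by positivity)]
      intro k
      exact ((G k).le_opNorm h).trans (by gcongr; exact hG.choose_spec k))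

theorem bseq_apply (G : ℕ → H →L[ℂ] H) (hG : ∃ M : ℝ, ∀ k, ‖G k‖ ≤ M) (h : H) (k : ℕ) :
    bseq G hG h k = G k h := rfl

/-- the map `H → Hat H` -/
noncomputable def seqMap (G : ℕ → H →L[ℂ] H) (hG : ∃ M : ℝ, ∀ k, ‖G k‖ ≤ M) : H →L[ℂ] Hat H :=
  (cvg H).mkQL ∘L bseq G hG

theorem seqMap_eq_zero (G : ℕ → H →L[ℂ] H) (hG : ∃ M : ℝ, ∀ k, ‖G k‖ ≤ M) (h : H) :
    seqMap G hG h = 0 ↔ ∃ g, Tendsto (fun k => G k h) (hyperfilter ℕ : Filter ℕ) (𝓝 g) := by
  change (cvg H).mkQ (bseq G hG h) = 0 ↔ _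
  rw [Submodule.mkQ_apply, Submodule.Quotient.mk_eq_zero, mem_cvg]
  rfl

theorem act_seqMap (T : H →L[ℂ] H) (G : ℕ → H →L[ℂ] H) (hG : ∃ M : ℝ, ∀ k, ‖G k‖ ≤ M)
    (hG' : ∃ M : ℝ, ∀ k, ‖T * G k‖ ≤ M) (h : H) :
    act T (seqMap G hG h) = seqMap (fun k => T * G k) hG' h := rfl

theorem seqMap_comp (T : H →L[ℂ] H) (G : ℕ → H →L[ℂ] H) (hG : ∃ M : ℝ, ∀ k, ‖G k‖ ≤ M)
    (hG' : ∃ M : ℝ, ∀ k, ‖G k * T‖ ≤ M) (h : H) :
    seqMap G hG (T h) = seqMap (fun k => G k * T) hG' h := rfl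

theorem seqMap_sub (G G' : ℕ → H →L[ℂ] H) (hG : ∃ M : ℝ, ∀ k, ‖G k‖ ≤ M)
    (hG' : ∃ M : ℝ, ∀ k, ‖G' k‖ ≤ M) (hG'' : ∃ M : ℝ, ∀ k, ‖G k - G' k‖ ≤ M) (h : H) :
    seqMap G hG h - seqMap G' hG' h = seqMap (fun k => G k - G' k) hG'' h := by
  change (cvg H).mkQ (bseq G hG h) - (cvg H).mkQ (bseq G' hG' h) = _
  rw [← map_sub]
  rfl

/-- a linear dependence with coefficients of norm one -/
theorem exists_dep_norm_one {W : Type*} [AddCommGroup W] [Module ℂ W] {n : ℕ} (v : Fin n → W)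
    (h : ¬ LinearIndependent ℂ v) : ∃ c : Fin n → ℂ, ‖c‖ = 1 ∧ ∑ i, c i • v i = 0 := by
  rw [Fintype.not_linearIndependent_iff] at h
  obtain ⟨g, hg, i, hi⟩ := h
  have hg0 : g ≠ 0 := fun h0 => hi (by rw [h0]; rfl)
  have hn : ‖g‖ ≠ 0 := norm_ne_zero_iff.mpr hg0
  refine ⟨((‖g‖⁻¹ : ℝ) : ℂ) • g, ?_, ?_⟩
  · rw [norm_smul, Complex.norm_real, Real.norm_eq_abs, abs_of_nonneg (by positivity),
      inv_mul_cancel₀ hn]
  · have : ∑ i, (((‖g‖⁻¹ : ℝ) : ℂ) • g) i • v i = ((‖g‖⁻¹ : ℝ) : ℂ) • ∑ i, g i • v i := by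
      rw [Finset.smul_sum]
      apply Finset.sum_congr rfl
      intro i _
      rw [Pi.smul_apply, smul_assoc]
    rw [this, hg, smul_zero]

theorem seqMap_rk (G : ℕ → H →L[ℂ] H) (hG : ∃ M : ℝ, ∀ k, ‖G k‖ ≤ M) (r : ℕ)
    (hr : ∀ k, rk r (G k)) : RkLE r (seqMap G hG : H →ₗ[ℂ] Hat H) := by
  apply rkLE_of_not_linInd
  intro x hx
  choose c hc1 hc2 using fun k => exists_dep_norm_one _ ((hr k).not_linInd x)
  -- limit of the coefficients
  obtain ⟨d, hd1, hd2⟩ := (isCompact_sphere (0 : Fin (r + 1) → ℂ) 1).ultrafilter_le_nhds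
    ((hyperfilter ℕ).map c) (by
      rw [le_principal_iff]
      change c ⁻¹' _ ∈ (hyperfilter ℕ : Filter ℕ)
      apply Filter.univ_mem'
      intro k
      change c k ∈ Metric.sphere 0 1
      rw [mem_sphere_zero_iff_norm]
      exact hc1 k)
  have hd : Tendsto c (hyperfilter ℕ : Filter ℕ) (𝓝 d) := hd2
  rw [mem_sphere_zero_iff_norm] at hd1
  obtain ⟨M, hM⟩ := hG
  have hlim : Tendsto (fun k => G k (∑ i, d i • x i)) (hyperfilter ℕ : Filter ℕ) (𝓝 0) := by
    have h1 : ∀ k, G k (∑ i, d i • x i) = ∑ i, (d i - c k i) • G k (x i) := by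
      intro k
      have : ∑ i, (d i - c k i) • G k (x i) = ∑ i, d i • G k (x i) - ∑ i, c k i • G k (x i) := by
        rw [← Finset.sum_sub_distrib]
        apply Finset.sum_congr rfl
        intro i _
        rw [sub_smul]
      rw [this]
      have h2 : ∑ i, c k i • G k (x i) = 0 := hc2 k
      rw [h2, sub_zero, map_sum]
      apply Finset.sum_congr rfl
      intro i _
      rw [map_smul]
    have h3 : ∀ k, ‖G k (∑ i, d i • x i)‖ ≤ ∑ i, ‖d i - c k i‖ * (M * ‖x i‖) := by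
      intro k
      rw [h1]
      refine (norm_sum_le _ _).trans ?_
      apply Finset.sum_le_sum
      intro i _
      rw [norm_smul]
      gcongr
      exact ((G k).le_opNorm _).trans (by gcongr; exact hM k)
    have h4 : Tendsto (fun k => ∑ i, ‖d i - c k i‖ * (M * ‖x i‖)) (hyperfilter ℕ : Filter ℕ)
        (𝓝 (∑ i, ‖d i - d i‖ * (M * ‖x i‖))) := by
      apply tendsto_finsetSum
      intro i _
      apply Tendsto.mul_const
      apply Tendsto.norm
      apply Tendsto.const_sub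
      exact (tendsto_pi_nhds.mp hd) i
    have h5 : ∑ i, ‖d i - d i‖ * (M * ‖x i‖) = 0 := by simp
    rw [h5] at h4
    exact squeeze_zero_norm h3 h4
  have hzero : seqMap G ⟨M, hM⟩ (∑ i, d i • x i) = 0 := (seqMap_eq_zero _ _ _).mpr ⟨0, hlim⟩
  rw [Fintype.linearIndependent_iff] at hx
  have h6 : ∑ i, d i • (seqMap G ⟨M, hM⟩ : H →ₗ[ℂ] Hat H) (x i) = 0 := by
    have : ∑ i, d i • (seqMap G ⟨M, hM⟩ : H →ₗ[ℂ] Hat H) (x i)
        = seqMap G ⟨M, hM⟩ (∑ i, d i • x i) := by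
      rw [map_sum]
      apply Finset.sum_congr rfl
      intro i _
      rw [map_smul]; rfl
    rw [this, hzero]
  have h7 := hx d h6
  have h8 : d = 0 := funext h7
  rw [h8, norm_zero] at hd1
  exact zero_ne_one hd1

/-- kernel of the map built from almost-orthogonal isometry-like operators -/
theorem seqMap_ker (V Wd : ℕ → H →L[ℂ] H) (hV : ∃ M : ℝ, ∀ k, ‖V k‖ ≤ M)
    (hW : ∃ M : ℝ, ∀ k, ‖Wd k‖ ≤ M) (r : ℕ)
    (h1 : ∀ k l, k ≠ l → rk r (Wd k * V l)) (h2 : ∀ k, rk r (Wd k * V k - 1)) :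
    FiniteDimensional ℂ (LinearMap.ker (seqMap V hV : H →ₗ[ℂ] Hat H)) := by
  obtain ⟨L, hL⟩ : ∃ L, L = LinearMap.ker (seqMap V hV : H →ₗ[ℂ] Hat H) := ⟨_, rfl⟩
  rw [← hL]
  have hmem : ∀ h ∈ L, ∃ g, Tendsto (fun k => V k h) (hyperfilter ℕ : Filter ℕ) (𝓝 g) := by
    intro h hh
    rw [hL, LinearMap.mem_ker] at hh
    exact (seqMap_eq_zero _ _ _).mp hh
  choose! g hg using hmem
  let Vinf : L →ₗ[ℂ] H :=
    { toFun := fun h => g h
      map_add' := fun x y => by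
        apply tendsto_nhds_unique (hg _ (x + y).2)
        have := (hg _ x.2).add (hg _ y.2)
        simpa using this
      map_smul' := fun c x => by
        apply tendsto_nhds_unique (hg _ (c • x).2)
        have := (hg _ x.2).const_smul c
        simpa using this }
  have hne : ∀ k, ∀ᶠ l in (hyperfilter ℕ : Filter ℕ), l ≠ k := by
    intro k
    apply hyperfilter_le_cofinite
    exact (Set.finite_singleton k).compl_mem_cofinite
  -- W_k V_inf has rank ≤ r
  have s1 : ∀ k, RkLE r ((Wd k : H →ₗ[ℂ] H) ∘ₗ Vinf) := by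
    intro k
    apply rkLE_limit (hyperfilter ℕ : Filter ℕ)
      (fun l => ((Wd k * V l : H →L[ℂ] H) : H →ₗ[ℂ] H) ∘ₗ L.subtype)
    · intro x
      exact ((Wd k).continuous.tendsto _).comp (hg _ x.2)
    · filter_upwards [hne k] with l hl
      exact (h1 k l (Ne.symm hl)).comp_right _
  have s2 : ∀ k, RkLE (r + r) ((Wd k : H →ₗ[ℂ] H) ∘ₗ Vinf
      - ((Wd k * V k - 1 : H →L[ℂ] H) : H →ₗ[ℂ] H) ∘ₗ L.subtype) := fun k =>
    (s1 k).sub ((h2 k).comp_right _)
  obtain ⟨M, hM⟩ := hW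
  have s3 : RkLE (r + r) L.subtype := by
    apply rkLE_limit (hyperfilter ℕ : Filter ℕ) _ _ _ ?_ (Filter.Eventually.of_forall s2)
    intro x
    have e1 : ∀ k, (((Wd k : H →ₗ[ℂ] H) ∘ₗ Vinf
      - ((Wd k * V k - 1 : H →L[ℂ] H) : H →ₗ[ℂ] H) ∘ₗ L.subtype) x)
        = Wd k (g x - V k x) + x := by
      intro k
      rw [map_sub]
      change Wd k (g x) - (Wd k (V k x) - x) = _
      abel
    simp only [e1]
    have e2 : Tendsto (fun k => Wd k (g x - V k x)) (hyperfilter ℕ : Filter ℕ) (𝓝 0) := by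
      have e3 : ∀ k, ‖Wd k (g x - V k x)‖ ≤ M * ‖g x - V k x‖ := fun k =>
        ((Wd k).le_opNorm _).trans (by gcongr; exact hM k)
      have e4 : Tendsto (fun k => M * ‖g x - V k x‖) (hyperfilter ℕ : Filter ℕ)
          (𝓝 (M * ‖g (x:H) - g (x:H)‖)) := by
        apply Tendsto.const_mul
        apply Tendsto.norm
        exact (hg _ x.2).const_sub _
      rw [sub_self, norm_zero, mul_zero] at e4
      exact squeeze_zero_norm e3 e4
    have e5 := e2.add_const (x : H)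
    rw [zero_add] at e5
    exact e5
  obtain ⟨X, hX1, hX2, hX3⟩ := s3
  exact Submodule.finiteDimensional_of_le (S₂ := X) (fun x hx => hX3 ⟨x, hx⟩)

end Ultra

end Pool.Agent.MP86f994
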