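import Mathlib
import Pool.Agent.Lib_MP_86f994_an.Ultra

/-!
The almost disjoint family argument: a separable module on which rank one operators act as zero
is zero.
-/

namespace Pool.Agent.MP86f994

set_option linter.unusedSectionVars false

open InnerProductSpace ContinuousLinearMap Filter Topology
open scoped ENNReal InnerProductSpace InnerProduct

section AD

variable {H : Type*} [NormedAddCommGroup H] [InnerProductSpace ℂ H] [CompleteSpace H]

/-- code of the length `n` prefix of `l` -/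
def pcode (l : ℕ → Bool) (n : ℕ) : ℕ := Encodable.encode (List.ofFn (fun i : Fin n => l i))

theorem pcode_eq {l m : ℕ → Bool} {i j : ℕ} (h : pcode l i = pcode m j) :
    i = j ∧ ∀ k < j, l k = m k := by
  have h1 := Encodable.encode_injective h
  have h2 : i = j := by
    have := congrArg List.length h1
    simpa using this
  subst h2
  refine ⟨rfl, fun k hk => ?_⟩
  have := congrFun (List.ofFn_injective h1) ⟨k, hk⟩
  exact this

theorem ad_orth (b : HilbertBasis ℕ ℂ H) (l : ℕ → Bool) :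
    Orthonormal ℂ (fun n => b (pcode l n)) :=
  b.orthonormal.comp _ (fun _ _ h => (pcode_eq h).1)

/-- isometries attached to branches of the binary tree -/
noncomputable def wad (b : HilbertBasis ℕ ℂ H) (l : ℕ → Bool) : H →L[ℂ] H :=
  isom b _ (ad_orth b l)

theorem wad_basis (b : HilbertBasis ℕ ℂ H) (l : ℕ → Bool) (n : ℕ) :
    wad b l (b n) = b (pcode l n) := isom_apply _ _ _ _

theorem wad_adj (b : HilbertBasis ℕ ℂ H) (l : ℕ → Bool) : adjoint (wad b l) * wad b l = 1 :=
  isom_adj _ _ _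

theorem op_eq_sum (b : HilbertBasis ℕ ℂ H) (T : H →L[ℂ] H) (N : ℕ) (hT : ∀ n, N ≤ n → T (b n) = 0) :
    T = ∑ n ∈ Finset.range N, rankOne ℂ (T (b n)) (b n) := by
  apply ext_basis b
  intro m
  rw [sum_apply]
  by_cases hm : m < N
  · rw [Finset.sum_eq_single m]
    · rw [rankOne_apply]
      have : ⟪b m, b m⟫_ℂ = 1 := by
        rw [inner_self_eq_norm_sq_to_K, b.orthonormal.1]; simp
      rw [this, one_smul]
    · intro n _ hn
      rw [rankOne_apply, b.orthonormal.2 hn, zero_smul]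
    · intro h
      exact absurd (Finset.mem_range.mpr hm) h
  · rw [hT m (not_lt.mp hm)]
    symm
    apply Finset.sum_eq_zero
    intro n hn
    have : n ≠ m := by
      intro h
      rw [h] at hn
      exact hm (Finset.mem_range.mp hn)
    rw [rankOne_apply, b.orthonormal.2 this, zero_smul]

theorem wad_cross (b : HilbertBasis ℕ ℂ H) {l m : ℕ → Bool} (h : l ≠ m) :
    ∃ N, ∀ n, N ≤ n → (adjoint (wad b l) * wad b m) (b n) = 0 := by
  obtain ⟨N, hN⟩ := Function.ne_iff.mp h
  refine ⟨N + 1, fun n hn => ?_⟩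
  apply ext_inner_basis b
  intro k
  rw [mulA, wad_basis, wad, isom_adj_apply, inner_zero_right]
  apply b.orthonormal.2
  intro he
  have := pcode_eq he
  exact hN (this.2 N (by omega))

theorem ad_lemma {X : Type*} [NormedAddCommGroup X] [NormedSpace ℂ X] (b : HilbertBasis ℕ ℂ H)
    (P : (H →L[ℂ] H) →ₐ[ℂ] (X →L[ℂ] X)) (N : Submodule ℂ X)
    (hinv : ∀ R, ∀ m ∈ N, P R m ∈ N) (hsep : TopologicalSpace.IsSeparable (N : Set X))
    (hrk : ∀ m ∈ N, ∀ g f, P (rankOne ℂ g f) m = 0) : ∀ m ∈ N, m = 0 := by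
  intro m0 hm0
  by_contra hne
  have hpos : 0 < ‖m0‖ := norm_pos_iff.mpr hne
  obtain ⟨c, hc, hcl⟩ := hsep
  let f : (ℕ → Bool) → (X →L[ℂ] X) := fun l => P (adjoint (wad b l))
  let q : (ℕ → Bool) → X := fun l => P (wad b l) m0
  have hq : ∀ l, q l ∈ closure c := fun l => hcl (hinv _ _ hm0)
  have happ : ∀ l, ∃ d ∈ c, ‖q l - d‖ < ‖m0‖ / (2 * (‖f l‖ + 1)) := by
    intro l
    obtain ⟨d, hd, hdd⟩ := Metric.mem_closure_iff.mp (hq l) (‖m0‖ / (2 * (‖f l‖ + 1)))
      (by positivity)
    exact ⟨d, hd, by rwa [dist_eq_norm] at hdd⟩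
  choose d hd1 hd2 using happ
  have hff : ∀ l, f l (q l) = m0 := by
    intro l
    change P (adjoint (wad b l)) (P (wad b l) m0) = m0
    have : P (adjoint (wad b l)) (P (wad b l) m0) = (P (adjoint (wad b l) * wad b l)) m0 := by
      rw [map_mul]; rfl
    rw [this, wad_adj, map_one]; rfl
  have hfq : ∀ l m, l ≠ m → f l (q m) = 0 := by
    intro l m hlm
    change P (adjoint (wad b l)) (P (wad b m) m0) = 0
    have : P (adjoint (wad b l)) (P (wad b m) m0) = (P (adjoint (wad b l) * wad b m)) m0 := by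
      rw [map_mul]; rfl
    rw [this]
    obtain ⟨n, hn⟩ := wad_cross b hlm
    rw [op_eq_sum b _ n hn, map_sum, sum_apply]
    apply Finset.sum_eq_zero
    intro i _
    exact hrk m0 hm0 _ _
  have key : ∀ l m, l ≠ m → ‖f l‖ ≤ ‖f m‖ → d l = d m → False := by
    intro l m hlm hle hdm
    have h1 : ‖m0‖ ≤ ‖f l‖ * (‖q l - d l‖ + ‖q m - d m‖) := by
      have e : m0 = f l (q l - q m) := by rw [map_sub, hff, hfq l m hlm, sub_zero]
      calc ‖m0‖ = ‖f l (q l - q m)‖ := by rw [← e]
        _ ≤ ‖f l‖ * ‖q l - q m‖ := (f l).le_opNorm _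
        _ ≤ ‖f l‖ * (‖q l - d l‖ + ‖q m - d m‖) := by
          gcongr
          have : q l - q m = (q l - d l) - (q m - d m) := by rw [hdm]; abel
          rw [this]
          exact norm_sub_le _ _
    have h2 : ‖q m - d m‖ < ‖m0‖ / (2 * (‖f l‖ + 1)) := by
      refine (hd2 m).trans_le ?_
      gcongr
    have h3 : ‖f l‖ * (‖q l - d l‖ + ‖q m - d m‖)
        ≤ ‖f l‖ * (‖m0‖ / (2 * (‖f l‖ + 1)) + ‖m0‖ / (2 * (‖f l‖ + 1))) := by
      gcongr
      exact (hd2 l).le
    have h4 : ‖f l‖ * (‖m0‖ / (2 * (‖f l‖ + 1)) + ‖m0‖ / (2 * (‖f l‖ + 1))) < ‖m0‖ := by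
      have : ‖f l‖ * (‖m0‖ / (2 * (‖f l‖ + 1)) + ‖m0‖ / (2 * (‖f l‖ + 1)))
          = ‖m0‖ * (‖f l‖ / (‖f l‖ + 1)) := by
        field_simp
        ring
      rw [this]
      have h5 : ‖f l‖ / (‖f l‖ + 1) < 1 := by
        rw [div_lt_one (by positivity)]; linarith
      calc ‖m0‖ * (‖f l‖ / (‖f l‖ + 1)) < ‖m0‖ * 1 := by gcongr
        _ = ‖m0‖ := mul_one _
    linarith
  have hinj : Function.Injective (fun l => (⟨d l, hd1 l⟩ : c)) := by
    intro l m hlm
    by_contra hne'
    have hdm : d l = d m := congrArg Subtype.val hlm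
    rcases le_total ‖f l‖ ‖f m‖ with h | h
    · exact key l m hne' h hdm
    · exact key m l (Ne.symm hne') h hdm.symm
  have hcc : Countable c := hc.to_subtype
  have : Countable (ℕ → Bool) := hinj.countable
  classical
  obtain ⟨F, hF⟩ := exists_injective_nat (ℕ → Bool)
  apply Function.cantor_injective (fun s : Set ℕ => F (fun n => decide (n ∈ s)))
  intro s t hst
  have h1 := hF hst
  ext n
  have h2 := congrFun h1 n
  simpa using h2

end AD

end Pool.Agent.MP86f994
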