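import Mathlib
import Pool.Agent.Lib_MP_86f994_an.AD

/-!
Uniform lifts: for a unital homomorphism `ψ : B(H) → B(H)/F(H)` the elements `ψ(κ(Q))`,
`‖Q‖ ≤ 1`, have lifts whose commutators with lifts of `ψ(ι(R))` have uniformly bounded rank.
-/

namespace Pool.Agent.MP86f994

set_option linter.unusedSectionVars false

open InnerProductSpace ContinuousLinearMap Filter Topology
open scoped ENNReal InnerProductSpace InnerProduct

section Lifts

variable {H : Type*} [NormedAddCommGroup H] [InnerProductSpace ℂ H] [CompleteSpace H]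

theorem rk_add {n m : ℕ} {S T : H →L[ℂ] H} (hS : rk n S) (hT : rk m T) : rk (n + m) (S + T) :=
  RkLE.add hS hT

theorem rk_sub {n m : ℕ} {S T : H →L[ℂ] H} (hS : rk n S) (hT : rk m T) : rk (n + m) (S - T) :=
  RkLE.sub hS hT

theorem rk_mul_left {n : ℕ} {T : H →L[ℂ] H} (hT : rk n T) (S : H →L[ℂ] H) : rk n (S * T) :=
  RkLE.comp_left hT (S : H →ₗ[ℂ] H)

theorem rk_mul_right {n : ℕ} {T : H →L[ℂ] H} (hT : rk n T) (S : H →L[ℂ] H) : rk n (T * S) :=
  RkLE.comp_right hT (S : H →ₗ[ℂ] H)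

theorem rank_bound (s0 s1 t0 t1 : H →L[ℂ] H) (h00 : FiniteRank (t0 * s0 - 1))
    (h01 : FiniteRank (t0 * s1)) (h10 : FiniteRank (t1 * s0)) (h11 : FiniteRank (t1 * s1 - 1)) :
    ∃ k0 : ℕ, ∀ G : H →L[ℂ] H, FiniteRank G → ∀ m : ℕ, rk m (G * s0 - s0 * G) →
      rk m (G * s1 - s1 * G) → rk (2 * m + k0) G := by
  rw [finiteRank_iff] at h00 h01 h10 h11
  obtain ⟨_, X00, a00, -, c00⟩ := h00
  obtain ⟨_, X01, a01, -, c01⟩ := h01
  obtain ⟨_, X10, a10, -, c10⟩ := h10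
  obtain ⟨_, X11, a11, -, c11⟩ := h11
  let Sg : H × H →ₗ[ℂ] H := (s0 : H →ₗ[ℂ] H).coprod (s1 : H →ₗ[ℂ] H)
  have hSg : ∀ x y, Sg (x, y) = s0 x + s1 y := fun x y => by simp [Sg]
  have hker : LinearMap.ker Sg ≤ (X00 ⊔ X01).prod (X10 ⊔ X11) := by
    rintro ⟨x, y⟩ hxy
    rw [LinearMap.mem_ker, hSg] at hxy
    rw [Submodule.mem_prod]
    constructor
    · have h1 : t0 (s0 x) + t0 (s1 y) = 0 := by rw [← map_add, hxy, map_zero]
      have h2 : x = -((t0 * s0 - 1) x + (t0 * s1) y) := by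
        rw [sub_apply, mulA, mulA, oneA]
        have : -(t0 (s0 x) - x + t0 (s1 y)) = x - (t0 (s0 x) + t0 (s1 y)) := by abel
        rw [this, h1, sub_zero]
      rw [h2]
      exact Submodule.neg_mem _ (Submodule.add_mem_sup (c00 x) (c01 y))
    · have h1 : t1 (s0 x) + t1 (s1 y) = 0 := by rw [← map_add, hxy, map_zero]
      have h2 : y = -((t1 * s0) x + (t1 * s1 - 1) y) := by
        rw [sub_apply, mulA, mulA, oneA]
        have : -(t1 (s0 x) + (t1 (s1 y) - y)) = y - (t1 (s0 x) + t1 (s1 y)) := by abel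
        rw [this, h1, sub_zero]
      change y ∈ X10 ⊔ X11
      rw [h2]
      exact Submodule.neg_mem _ (Submodule.add_mem_sup (c10 x) (c11 y))
  have hprod : FiniteDimensional ℂ ((X00 ⊔ X01).prod (X10 ⊔ X11) : Submodule ℂ (H × H)) := by
    let j : ((X00 ⊔ X01).prod (X10 ⊔ X11) : Submodule ℂ (H × H)) →ₗ[ℂ]
        (X00 ⊔ X01 : Submodule ℂ H) × (X10 ⊔ X11 : Submodule ℂ H) :=
      { toFun := fun z => (⟨z.1.1, z.2.1⟩, ⟨z.1.2, z.2.2⟩)
        map_add' := fun a b => rfl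
        map_smul' := fun c a => rfl }
    apply FiniteDimensional.of_injective j
    intro z w h
    have h1 : z.1.1 = w.1.1 := congrArg (fun p => ((p.1 : (X00 ⊔ X01 : Submodule ℂ H)) : H)) h
    have h2 : z.1.2 = w.1.2 := congrArg (fun p => ((p.2 : (X10 ⊔ X11 : Submodule ℂ H)) : H)) h
    exact Subtype.ext (Prod.ext h1 h2)
  have hkf : FiniteDimensional ℂ (LinearMap.ker Sg) := Submodule.finiteDimensional_of_le hker
  refine ⟨Module.finrank ℂ (LinearMap.ker Sg), ?_⟩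
  intro G hG m hm0 hm1
  obtain ⟨X0, b0, c0, d0⟩ := hm0
  obtain ⟨X1, b1, c1, d1⟩ := hm1
  let E : Submodule ℂ H := LinearMap.range (G : H →ₗ[ℂ] H)
  have hE : FiniteDimensional ℂ E := hG
  let S : E × E →ₗ[ℂ] H := Sg ∘ₗ (E.subtype.prodMap E.subtype)
  have hS : ∀ x y : E, S (x, y) = s0 x + s1 y := fun x y => by
    simp [S, Sg]
  have hrange : LinearMap.range S ≤ E ⊔ (X0 ⊔ X1) := by
    rintro _ ⟨⟨⟨x, z, rfl⟩, ⟨y, w, rfl⟩⟩, rfl⟩
    rw [hS]
    have e0 : s0 (G z) = G (s0 z) - (G * s0 - s0 * G) z := by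
      rw [sub_apply, mulA, mulA]; abel
    have e1 : s1 (G w) = G (s1 w) - (G * s1 - s1 * G) w := by
      rw [sub_apply, mulA, mulA]; abel
    change s0 (G z) + s1 (G w) ∈ _
    rw [e0, e1]
    have : G (s0 z) - (G * s0 - s0 * G) z + (G (s1 w) - (G * s1 - s1 * G) w)
        = (G (s0 z) + G (s1 w)) + (-(G * s0 - s0 * G) z + -(G * s1 - s1 * G) w) := by abel
    rw [this]
    refine Submodule.add_mem_sup ?_ (Submodule.add_mem_sup (Submodule.neg_mem _ (d0 z))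
      (Submodule.neg_mem _ (d1 w)))
    exact E.add_mem ⟨_, rfl⟩ ⟨_, rfl⟩
  have hr1 : Module.finrank ℂ (LinearMap.range S) ≤ Module.finrank ℂ E + (m + m) := by
    refine (Submodule.finrank_mono hrange).trans ?_
    refine (Submodule.finrank_add_le_finrank_add_finrank _ _).trans ?_
    have := Submodule.finrank_add_le_finrank_add_finrank X0 X1
    omega
  have hk1 : Module.finrank ℂ (LinearMap.ker S) ≤ Module.finrank ℂ (LinearMap.ker Sg) := by
    let j : LinearMap.ker S →ₗ[ℂ] LinearMap.ker Sg :=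
      LinearMap.codRestrict _ ((E.subtype.prodMap E.subtype) ∘ₗ (LinearMap.ker S).subtype)
        (fun x => x.2)
    apply LinearMap.finrank_le_finrank_of_injective (f := j)
    rintro ⟨⟨x, y⟩, hxy⟩ ⟨⟨x', y'⟩, hxy'⟩ h
    have h1 := congrArg (fun z : LinearMap.ker Sg => (z : H × H)) h
    have h2 : (x : H) = x' := congrArg Prod.fst h1
    have h3 : (y : H) = y' := congrArg Prod.snd h1
    exact Subtype.ext (Prod.ext (Subtype.ext h2) (Subtype.ext h3))
  have hrn := LinearMap.finrank_range_add_finrank_ker S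
  rw [Module.finrank_prod] at hrn
  exact ⟨E, hE, by omega, fun v => ⟨v, rfl⟩⟩

/-- a chosen lift of `ψ R` -/
noncomputable def lft (ψ : (H →L[ℂ] H) →ₐ[ℂ] QF H) (R : H →L[ℂ] H) : H →L[ℂ] H :=
  Function.surjInv qf_surj (ψ R)

theorem qf_lft (ψ : (H →L[ℂ] H) →ₐ[ℂ] QF H) (R : H →L[ℂ] H) : qf (lft ψ R) = ψ R :=
  Function.surjInv_eq _ _

theorem finiteRank_of_qf {S T : H →L[ℂ] H} (h : qf S = qf T) : FiniteRank (S - T) :=
  (qf_eq S T).mp h

theorem iota_Vl (b : HilbertBasis ℕ ℂ H) (R : H →L[ℂ] H) (k : ℕ) :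
    iota b R * Vl b k = Vl b k * R := by
  ext x; exact iota_V b R k x

/-- (A): uniform lifts -/
theorem uniform_lifts (b : HilbertBasis ℕ ℂ H) (ψ : (H →L[ℂ] H) →ₐ[ℂ] QF H)
    (s0 s1 : H →L[ℂ] H) (h0 : qf s0 = ψ (iota b (Vl b 0))) (h1 : qf s1 = ψ (iota b (Vl b 1))) :
    ∃ (n0 : ℕ) (lam : (H →L[ℂ] H) → (H →L[ℂ] H)), ∀ Q, ‖Q‖ ≤ 1 →
      qf (lam Q) = ψ (kappa b Q) ∧ rk n0 (lam Q * s0 - s0 * lam Q) ∧
      rk n0 (lam Q * s1 - s1 * lam Q) ∧ ‖lam Q‖ ≤ 2 ^ n0 := by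
  let W : ℕ → Set (H →L[ℂ] H) := fun n => {Q | ∃ Q' : H →L[ℂ] H, qf Q' = ψ (kappa b Q) ∧
    rk n (Q' * s0 - s0 * Q') ∧ rk n (Q' * s1 - s1 * Q') ∧ ‖Q'‖ ≤ 2 ^ n}
  obtain ⟨n0, hn0⟩ := bergman W 0 (by
    rintro m n S T - - ⟨S', a1, a2, a3, a4⟩ ⟨T', b1, b2, b3, b4⟩
    refine ⟨S' * T', ?_, ?_, ?_, ?_⟩
    · rw [map_mul, a1, b1, kappa_mul, map_mul]
    · have : S' * T' * s0 - s0 * (S' * T') = (S' * s0 - s0 * S') * T' + S' * (T' * s0 - s0 * T') := by
        noncomm_ring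
      rw [this, add_zero]
      exact rk_add (rk_mul_right a2 _) (rk_mul_left b2 _)
    · have : S' * T' * s1 - s1 * (S' * T') = (S' * s1 - s1 * S') * T' + S' * (T' * s1 - s1 * T') := by
        noncomm_ring
      rw [this, add_zero]
      exact rk_add (rk_mul_right a3 _) (rk_mul_left b3 _)
    · refine (norm_mul_le _ _).trans ?_
      rw [add_zero, pow_add]
      exact mul_le_mul a4 b4 (norm_nonneg _) (by positivity)) (by
    intro Q _
    have c0 : FiniteRank (lft ψ (kappa b Q) * s0 - s0 * lft ψ (kappa b Q)) := by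
      apply finiteRank_of_qf
      rw [map_mul, map_mul, qf_lft, h0, ← map_mul, ← map_mul, iota_kappa_comm]
    have c1 : FiniteRank (lft ψ (kappa b Q) * s1 - s1 * lft ψ (kappa b Q)) := by
      apply finiteRank_of_qf
      rw [map_mul, map_mul, qf_lft, h1, ← map_mul, ← map_mul, iota_kappa_comm]
    rw [finiteRank_iff] at c0 c1
    obtain ⟨n1, hn1⟩ := c0
    obtain ⟨n2, hn2⟩ := c1
    obtain ⟨n3, hn3⟩ := exists_nat_gt ‖lft ψ (kappa b Q)‖
    refine ⟨n1 + n2 + n3, lft ψ (kappa b Q), qf_lft _ _, hn1.mono (by omega),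
      hn2.mono (by omega), ?_⟩
    refine hn3.le.trans ?_
    have h4 : (n3 : ℝ) ≤ 2 ^ n3 := by exact_mod_cast Nat.lt_two_pow_self.le
    exact h4.trans (pow_le_pow_right₀ (by norm_num) (by omega))) b
  choose! lam hlam using hn0
  exact ⟨n0, lam, hlam⟩

/-- the data produced by the two applications of Bergman's lemma -/
theorem exists_families (b : HilbertBasis ℕ ℂ H) (ψ : (H →L[ℂ] H) →ₐ[ℂ] QF H) :
    ∃ (V W : ℕ → H →L[ℂ] H), (∃ M : ℝ, ∀ k, ‖V k‖ ≤ M) ∧ (∃ M : ℝ, ∀ k, ‖W k‖ ≤ M) ∧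
      (∃ r, (∀ k l, k ≠ l → rk r (W k * V l)) ∧ ∀ k, rk r (W k * V k - 1)) ∧
      (∀ R : H →L[ℂ] H, ∃ r, ∀ k, rk r (lft ψ (iota b R) * V k - V k * lft ψ R)) := by
  obtain ⟨s0, hs0⟩ : ∃ s, s = lft ψ (iota b (Vl b 0)) := ⟨_, rfl⟩
  obtain ⟨s1, hs1⟩ : ∃ s, s = lft ψ (iota b (Vl b 1)) := ⟨_, rfl⟩
  have q0 : qf s0 = ψ (iota b (Vl b 0)) := by rw [hs0, qf_lft]
  have q1 : qf s1 = ψ (iota b (Vl b 1)) := by rw [hs1, qf_lft]
  obtain ⟨t0, ht0⟩ : ∃ s, s = lft ψ (iota b (adjoint (Vl b 0))) := ⟨_, rfl⟩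
  obtain ⟨t1, ht1⟩ : ∃ s, s = lft ψ (iota b (adjoint (Vl b 1))) := ⟨_, rfl⟩
  have p0 : qf t0 = ψ (iota b (adjoint (Vl b 0))) := by rw [ht0, qf_lft]
  have p1 : qf t1 = ψ (iota b (adjoint (Vl b 1))) := by rw [ht1, qf_lft]
  have hz : iota b (0 : H →L[ℂ] H) = 0 := by
    have := iota_smul b 0 (0 : H →L[ℂ] H)
    simpa using this
  have h00 : FiniteRank (t0 * s0 - 1) := by
    apply finiteRank_of_qf
    rw [map_mul, p0, q0, ← map_mul, ← iota_mul, Vl_adj_self, iota_one, map_one, map_one]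
  have h11 : FiniteRank (t1 * s1 - 1) := by
    apply finiteRank_of_qf
    rw [map_mul, p1, q1, ← map_mul, ← iota_mul, Vl_adj_self, iota_one, map_one, map_one]
  have h01 : FiniteRank (t0 * s1) := by
    rw [← qf_eq_zero, map_mul, p0, q1, ← map_mul, ← iota_mul, Vl_adj_ne b (by norm_num), hz,
      map_zero]
  have h10 : FiniteRank (t1 * s0) := by
    rw [← qf_eq_zero, map_mul, p1, q0, ← map_mul, ← iota_mul, Vl_adj_ne b (by norm_num), hz,
      map_zero]
  obtain ⟨k0, hk0⟩ := rank_bound s0 s1 t0 t1 h00 h01 h10 h11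
  obtain ⟨n0, lam, hlam⟩ := uniform_lifts b ψ s0 s1 q0 q1
  -- almost multiplicativity of `lam`
  obtain ⟨g, hg⟩ : ∃ g, g = 2 * (n0 + (n0 + n0)) + k0 := ⟨_, rfl⟩
  have hmul : ∀ S T : H →L[ℂ] H, ‖S‖ ≤ 1 → ‖T‖ ≤ 1 → rk g (lam (S * T) - lam S * lam T) := by
    intro S T hS hT
    have hST : ‖S * T‖ ≤ 1 := (norm_mul_le _ _).trans (mul_le_one₀ hS (norm_nonneg _) hT)
    obtain ⟨a1, a2, a3, -⟩ := hlam S hS
    obtain ⟨b1, b2, b3, -⟩ := hlam T hT
    obtain ⟨c1, c2, c3, -⟩ := hlam (S * T) hST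
    rw [hg]
    apply hk0
    · apply finiteRank_of_qf
      rw [map_mul, a1, b1, c1, kappa_mul, map_mul]
    · have : (lam (S * T) - lam S * lam T) * s0 - s0 * (lam (S * T) - lam S * lam T)
          = (lam (S * T) * s0 - s0 * lam (S * T)) - ((lam S * s0 - s0 * lam S) * lam T
            + lam S * (lam T * s0 - s0 * lam T)) := by noncomm_ring
      rw [this]
      exact rk_sub c2 (rk_add (rk_mul_right a2 _) (rk_mul_left b2 _))
    · have : (lam (S * T) - lam S * lam T) * s1 - s1 * (lam (S * T) - lam S * lam T)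
          = (lam (S * T) * s1 - s1 * lam (S * T)) - ((lam S * s1 - s1 * lam S) * lam T
            + lam S * (lam T * s1 - s1 * lam T)) := by noncomm_ring
      rw [this]
      exact rk_sub c3 (rk_add (rk_mul_right a3 _) (rk_mul_left b3 _))
  -- commutators with lifts of `ι(R)`
  have hcomm : ∀ R : H →L[ℂ] H, ∃ r, ∀ Q, ‖Q‖ ≤ 1 →
      rk r (lam Q * lft ψ (iota b R) - lft ψ (iota b R) * lam Q) := by
    intro R
    obtain ⟨X, hX⟩ : ∃ X, X = lft ψ (iota b R) := ⟨_, rfl⟩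
    rw [← hX]
    obtain ⟨r, hr⟩ := bergman (fun n => {Q | rk n (lam Q * X - X * lam Q)}) (g + g) (by
      intro m n S T hS hT hSm hTn
      have e : lam (S * T) * X - X * lam (S * T)
          = ((lam S * X - X * lam S) * lam T + lam S * (lam T * X - X * lam T))
            + ((lam (S * T) - lam S * lam T) * X - X * (lam (S * T) - lam S * lam T)) := by
        noncomm_ring
      change rk _ (lam (S * T) * X - X * lam (S * T))
      rw [e]
      exact rk_add (rk_add (rk_mul_right hSm _) (rk_mul_left hTn _))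
        (rk_sub (rk_mul_right (hmul S T hS hT) _) (rk_mul_left (hmul S T hS hT) _))) (by
      intro Q hQ
      have : FiniteRank (lam Q * X - X * lam Q) := by
        apply finiteRank_of_qf
        rw [map_mul, map_mul, (hlam Q hQ).1, hX, qf_lft, ← map_mul, ← map_mul, iota_kappa_comm]
      rw [finiteRank_iff] at this
      exact this) b
    exact ⟨r, hr⟩
  -- the families
  have hb1 : ∀ k, ‖b k‖ = 1 := b.orthonormal.1
  have hE1 : ∀ k, ‖rankOne ℂ (b k) (b 0)‖ ≤ 1 := fun k => by simp [hb1]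
  have hE2 : ∀ k, ‖rankOne ℂ (b 0) (b k)‖ ≤ 1 := fun k => by simp [hb1]
  have hin : ⟪b 0, b 0⟫_ℂ = 1 := by
    rw [inner_self_eq_norm_sq_to_K, b.orthonormal.1]; simp
  have hkin : ∀ k, ⟪b k, b k⟫_ℂ = 1 := fun k => by
    rw [inner_self_eq_norm_sq_to_K, b.orthonormal.1]; simp
  refine ⟨fun k => lam (rankOne ℂ (b k) (b 0)) * lft ψ (Vl b 0),
    fun k => lft ψ (adjoint (Vl b 0)) * lam (rankOne ℂ (b 0) (b k)), ?_, ?_, ?_, ?_⟩
  · refine ⟨2 ^ n0 * ‖lft ψ (Vl b 0)‖, fun k => (norm_mul_le _ _).trans ?_⟩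
    gcongr
    exact (hlam _ (hE1 k)).2.2.2
  · refine ⟨‖lft ψ (adjoint (Vl b 0))‖ * 2 ^ n0, fun k => (norm_mul_le _ _).trans ?_⟩
    gcongr
    exact (hlam _ (hE2 k)).2.2.2
  · -- almost orthogonality
    have hz0 : FiniteRank (lam 0) := by
      rw [← qf_eq_zero, (hlam 0 (by simp)).1, kappa_zero, map_zero]
    have hE00 : ‖rankOne ℂ (b 0) (b 0)‖ ≤ 1 := hE1 0
    have hone : FiniteRank (lft ψ (adjoint (Vl b 0)) * lam (rankOne ℂ (b 0) (b 0))
        * lft ψ (Vl b 0) - 1) := by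
      apply finiteRank_of_qf
      rw [map_mul, map_mul, qf_lft, qf_lft, (hlam _ hE00).1, ← map_mul, ← map_mul, mul_assoc,
        kappa_unit_V, Vl_adj_self, map_one, map_one]
    rw [finiteRank_iff] at hz0 hone
    obtain ⟨r1, hr1⟩ := hz0
    obtain ⟨r2, hr2⟩ := hone
    refine ⟨g + r1 + r2, ?_, ?_⟩
    · intro k l hkl
      have e0 : rankOne ℂ (b 0) (b k) * rankOne ℂ (b l) (b 0) = 0 := by
        ext x
        change rankOne ℂ (b 0) (b k) (rankOne ℂ (b l) (b 0) x) = 0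
        rw [rankOne_apply, rankOne_apply, inner_smul_right, b.orthonormal.2 hkl]
        simp
      have e1 := hmul _ _ (hE2 k) (hE1 l)
      rw [e0] at e1
      have e2 : lft ψ (adjoint (Vl b 0)) * lam (rankOne ℂ (b 0) (b k))
          * (lam (rankOne ℂ (b l) (b 0)) * lft ψ (Vl b 0))
          = lft ψ (adjoint (Vl b 0)) * lam 0 * lft ψ (Vl b 0)
            - lft ψ (adjoint (Vl b 0)) * (lam 0 - lam (rankOne ℂ (b 0) (b k))
              * lam (rankOne ℂ (b l) (b 0))) * lft ψ (Vl b 0) := by noncomm_ring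
      change rk _ (lft ψ (adjoint (Vl b 0)) * lam (rankOne ℂ (b 0) (b k))
          * (lam (rankOne ℂ (b l) (b 0)) * lft ψ (Vl b 0)))
      rw [e2]
      exact (rk_sub (rk_mul_right (rk_mul_left hr1 _) _)
        (rk_mul_right (rk_mul_left e1 _) _)).mono (by omega)
    · intro k
      have e0 : rankOne ℂ (b 0) (b k) * rankOne ℂ (b k) (b 0) = rankOne ℂ (b 0) (b 0) := by
        ext x
        change rankOne ℂ (b 0) (b k) (rankOne ℂ (b k) (b 0) x) = _
        rw [rankOne_apply, rankOne_apply, inner_smul_right, hkin, mul_one]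
        rfl
      have e1 := hmul _ _ (hE2 k) (hE1 k)
      rw [e0] at e1
      have e2 : lft ψ (adjoint (Vl b 0)) * lam (rankOne ℂ (b 0) (b k))
          * (lam (rankOne ℂ (b k) (b 0)) * lft ψ (Vl b 0)) - 1
          = (lft ψ (adjoint (Vl b 0)) * lam (rankOne ℂ (b 0) (b 0)) * lft ψ (Vl b 0) - 1)
            - lft ψ (adjoint (Vl b 0)) * (lam (rankOne ℂ (b 0) (b 0))
              - lam (rankOne ℂ (b 0) (b k)) * lam (rankOne ℂ (b k) (b 0))) * lft ψ (Vl b 0) := by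
        noncomm_ring
      change rk _ (lft ψ (adjoint (Vl b 0)) * lam (rankOne ℂ (b 0) (b k))
          * (lam (rankOne ℂ (b k) (b 0)) * lft ψ (Vl b 0)) - 1)
      rw [e2]
      exact (rk_sub hr2 (rk_mul_right (rk_mul_left e1 _) _)).mono (by omega)
  · intro R
    obtain ⟨r1, hr1⟩ := hcomm R
    have hfix : FiniteRank (lft ψ (iota b R) * lft ψ (Vl b 0) - lft ψ (Vl b 0) * lft ψ R) := by
      apply finiteRank_of_qf
      rw [map_mul, map_mul, qf_lft, qf_lft, qf_lft, ← map_mul, ← map_mul, iota_Vl]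
    rw [finiteRank_iff] at hfix
    obtain ⟨r2, hr2⟩ := hfix
    refine ⟨r1 + r2, fun k => ?_⟩
    have e : lft ψ (iota b R) * (lam (rankOne ℂ (b k) (b 0)) * lft ψ (Vl b 0))
        - lam (rankOne ℂ (b k) (b 0)) * lft ψ (Vl b 0) * lft ψ R
        = -((lam (rankOne ℂ (b k) (b 0)) * lft ψ (iota b R)
            - lft ψ (iota b R) * lam (rankOne ℂ (b k) (b 0))) * lft ψ (Vl b 0))
          + lam (rankOne ℂ (b k) (b 0)) * (lft ψ (iota b R) * lft ψ (Vl b 0)
            - lft ψ (Vl b 0) * lft ψ R) := by noncomm_ring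
    change rk _ (lft ψ (iota b R) * (lam (rankOne ℂ (b k) (b 0)) * lft ψ (Vl b 0))
        - lam (rankOne ℂ (b k) (b 0)) * lft ψ (Vl b 0) * lft ψ R)
    rw [e]
    exact rk_add (RkLE.neg (rk_mul_right (hr1 _ (hE1 k)) _)) (rk_mul_left hr2 _)

end Lifts

end Pool.Agent.MP86f994
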