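import Mathlib
import Pool.Agent.Lib_MP_86f994_an.Lifts

/-!
From an almost invariant subspace of a representation to a Fredholm intertwiner.
-/

namespace Pool.Agent.MP86f994

set_option linter.unusedSectionVars false

open InnerProductSpace ContinuousLinearMap Filter Topology
open scoped ENNReal InnerProductSpace InnerProduct

section Inter

variable {H : Type*} [NormedAddCommGroup H] [InnerProductSpace ℂ H] [CompleteSpace H]
variable {X : Type*} [NormedAddCommGroup X] [NormedSpace ℂ X]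

theorem finite_comap {V W : Type*} [AddCommGroup V] [Module ℂ V] [AddCommGroup W] [Module ℂ W]
    (g : V →ₗ[ℂ] W) (hg : FiniteDimensional ℂ (LinearMap.ker g)) (Y : Submodule ℂ W)
    (hY : FiniteDimensional ℂ Y) : FiniteDimensional ℂ (Y.comap g) := by
  obtain ⟨n, Z, h1, h2, h3⟩ := rkLE_of_comp (f := (Y.comap g).subtype) (g := g)
    ⟨_, Y, hY, le_rfl, fun v => v.2⟩ hg
  exact Submodule.finiteDimensional_of_le (S₂ := Z) (fun x hx => h3 ⟨x, hx⟩)

/-- Steps 1-3: there is a finite dimensional `Y0` and a finite codimensional `Y` such that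
`P R (T y) ∈ range T ⊔ Y0` for all `R` and all `y ∈ Y`. -/
theorem almost_invariant (b : HilbertBasis ℕ ℂ H) (P : (H →L[ℂ] H) →ₐ[ℂ] (X →L[ℂ] X))
    (T : H →L[ℂ] X) (phi : (H →L[ℂ] H) → (H →L[ℂ] H))
    (hphi : ∀ R, ∃ r, RkLE r ((P R : X →ₗ[ℂ] X) ∘ₗ (T : H →ₗ[ℂ] X)
      - (T : H →ₗ[ℂ] X) ∘ₗ (phi R : H →ₗ[ℂ] H))) :
    ∃ (Y0 : Submodule ℂ X) (Y : Submodule ℂ H), FiniteDimensional ℂ Y0 ∧
      FiniteDimensional ℂ (H ⧸ Y) ∧
      ∀ R, ∀ y ∈ Y, P R (T y) ∈ LinearMap.range (T : H →ₗ[ℂ] X) ⊔ Y0 := by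
  obtain ⟨M, hM⟩ : ∃ M, M = LinearMap.range (T : H →ₗ[ℂ] X) := ⟨_, rfl⟩
  rw [← hM]
  have hTM : ∀ h, T h ∈ M := fun h => by rw [hM]; exact ⟨h, rfl⟩
  let W : ℕ → Set (H →L[ℂ] H) := fun n => {R | ∃ Y : Submodule ℂ X, FiniteDimensional ℂ Y ∧
    Module.finrank ℂ Y ≤ n ∧ ∀ m ∈ M, P R m ∈ M ⊔ Y}
  obtain ⟨n1, hn1⟩ := bergman W 0 (by
    rintro m n R S - - ⟨Y1, a1, a2, a3⟩ ⟨Y2, b1, b2, b3⟩
    refine ⟨Y1 ⊔ Y2.map (P R : X →ₗ[ℂ] X), inferInstance, ?_, ?_⟩
    · refine (Submodule.finrank_add_le_finrank_add_finrank _ _).trans ?_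
      have := Submodule.finrank_map_le (P R : X →ₗ[ℂ] X) Y2
      omega
    · intro z hz
      obtain ⟨z1, hz1, z2, hz2, hz3⟩ := Submodule.mem_sup.mp (b3 z hz)
      have e : P (R * S) z = P R z1 + P R z2 := by
        rw [map_mul, ← map_add, hz3]; rfl
      rw [e]
      refine Submodule.add_mem _ ?_ ?_
      · have := a3 z1 hz1
        exact (sup_le_sup_left le_sup_left M) this
      · exact Submodule.mem_sup_right (Submodule.mem_sup_right ⟨z2, hz2, rfl⟩)) (by
    intro R _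
    obtain ⟨r, Y, h1, h2, h3⟩ := hphi R
    refine ⟨r, Y, h1, h2, ?_⟩
    intro m hm
    rw [hM] at hm
    obtain ⟨h, rfl⟩ := hm
    have h4 := h3 h
    have e : P R (T h) = T (phi R h) + (((P R : X →ₗ[ℂ] X) ∘ₗ (T : H →ₗ[ℂ] X)
      - (T : H →ₗ[ℂ] X) ∘ₗ (phi R : H →ₗ[ℂ] H)) h) := by
      rw [LinearMap.sub_apply]
      change P R (T h) = T (phi R h) + (P R (T h) - T (phi R h))
      abel
    change P R (T h) ∈ _
    rw [e]
    exact Submodule.add_mem_sup (hTM _) h4) b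
  have hall : ∀ R : H →L[ℂ] H, R ∈ W n1 := by
    intro R
    by_cases hR : R = 0
    · refine ⟨⊥, inferInstance, by simp, fun m hm => ?_⟩
      rw [hR, map_zero]; simp
    · have hn : ‖R‖ ≠ 0 := norm_ne_zero_iff.mpr hR
      obtain ⟨Y, h1, h2, h3⟩ := hn1 (((‖R‖⁻¹ : ℝ) : ℂ) • R) (by
        rw [norm_smul, Complex.norm_real, Real.norm_eq_abs, abs_of_nonneg (by positivity),
          inv_mul_cancel₀ hn])
      refine ⟨Y, h1, h2, fun m hm => ?_⟩
      have h4 := h3 m hm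
      have e : P R m = ((‖R‖ : ℝ) : ℂ) • (P (((‖R‖⁻¹ : ℝ) : ℂ) • R) m) := by
        rw [map_smul, smul_apply, smul_smul, ← Complex.ofReal_mul, mul_inv_cancel₀ hn]
        simp
      rw [e]
      exact Submodule.smul_mem _ _ h4
  -- the linear family
  let D : (H →L[ℂ] H) →ₗ[ℂ] (H →ₗ[ℂ] X ⧸ M) :=
    { toFun := fun R => M.mkQ ∘ₗ (P R : X →ₗ[ℂ] X) ∘ₗ (T : H →ₗ[ℂ] X)
      map_add' := fun R S => by
        ext h
        change M.mkQ (P (R + S) (T h)) = M.mkQ (P R (T h)) + M.mkQ (P S (T h))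
        rw [map_add, add_apply, map_add]
      map_smul' := fun c R => by
        ext h
        change M.mkQ (P (c • R) (T h)) = c • M.mkQ (P R (T h))
        rw [map_smul, smul_apply, map_smul] }
  have hD : ∀ R h, D R h = M.mkQ (P R (T h)) := fun R h => rfl
  have hmk : ∀ (Y : Submodule ℂ X) (x : X), x ∈ M ⊔ Y → M.mkQ x ∈ Y.map M.mkQ := by
    intro Y x hx
    obtain ⟨m, hm, y, hy, rfl⟩ := Submodule.mem_sup.mp hx
    refine ⟨y, hy, ?_⟩
    rw [map_add]
    have : M.mkQ m = 0 := by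
      rw [Submodule.mkQ_apply, Submodule.Quotient.mk_eq_zero]; exact hm
    rw [this, zero_add]
  obtain ⟨R0, hR0⟩ := max_rank D n1 (by
    intro R
    obtain ⟨Y, h1, h2, h3⟩ := hall R
    exact ⟨Y.map M.mkQ, inferInstance, (Submodule.finrank_map_le _ _).trans h2,
      fun h => hmk Y _ (h3 _ (hTM h))⟩)
  obtain ⟨Y0, h1, h2, h3⟩ := hall R0
  refine ⟨Y0, LinearMap.ker (D R0), h1, ?_, ?_⟩
  · apply finite_quot_ker_of_rkLE
    exact ⟨_, Y0.map M.mkQ, inferInstance, le_rfl, fun h => hmk Y0 _ (h3 _ (hTM h))⟩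
  · intro R y hy
    obtain ⟨z, hz⟩ := hR0 R y hy
    rw [hD, hD] at hz
    have h4 : M.mkQ (P R0 (T z) - P R (T y)) = 0 := by rw [map_sub, hz, sub_self]
    rw [Submodule.mkQ_apply, Submodule.Quotient.mk_eq_zero] at h4
    have e : P R (T y) = P R0 (T z) - (P R0 (T z) - P R (T y)) := by abel
    rw [e]
    exact Submodule.sub_mem _ (h3 _ (hTM z)) (Submodule.mem_sup_left h4)

theorem rankOne_mul (x y z w : H) : rankOne ℂ x y * rankOne ℂ z w = ⟪y, z⟫_ℂ • rankOne ℂ x w := by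
  ext h
  change rankOne ℂ x y (rankOne ℂ z w h) = _
  rw [rankOne_apply, rankOne_apply, smul_apply, rankOne_apply, inner_smul_right, smul_smul,
    mul_comm]

theorem mul_rankOne (R : H →L[ℂ] H) (x y : H) : R * rankOne ℂ x y = rankOne ℂ (R x) y := by
  ext h
  rw [mulA, rankOne_apply, rankOne_apply, map_smul]

theorem rankOne_mul' (R : H →L[ℂ] H) (x y : H) :
    rankOne ℂ x y * R = rankOne ℂ x (adjoint R y) := by
  ext h
  rw [mulA, rankOne_apply, rankOne_apply, adjoint_inner_left]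

/-- Steps 4-9 -/
theorem exists_U [CompleteSpace X] (b : HilbertBasis ℕ ℂ H)
    (P : (H →L[ℂ] H) →ₐ[ℂ] (X →L[ℂ] X)) (T : H →L[ℂ] X)
    (hT : FiniteDimensional ℂ (LinearMap.ker (T : H →ₗ[ℂ] X)))
    (Y0 : Submodule ℂ X) (Y : Submodule ℂ H) (hY0 : FiniteDimensional ℂ Y0)
    (hY : FiniteDimensional ℂ (H ⧸ Y))
    (hinv : ∀ R, ∀ y ∈ Y, P R (T y) ∈ LinearMap.range (T : H →ₗ[ℂ] X) ⊔ Y0) :
    ∃ (U : H →L[ℂ] X) (c : ℝ), 0 < c ∧ (∀ h, c * ‖h‖ ≤ ‖U h‖) ∧
      (∀ R h, P R (U h) = U (R h)) ∧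
      (∀ h, U h ∈ LinearMap.range (T : H →ₗ[ℂ] X) ⊔ Y0) := by
  obtain ⟨M, hM⟩ : ∃ M, M = LinearMap.range (T : H →ₗ[ℂ] X) := ⟨_, rfl⟩
  rw [← hM] at hinv ⊢
  let M2 : Submodule ℂ X :=
    { carrier := {m | ∀ R, P R m ∈ M ⊔ Y0}
      add_mem' := fun {x y} hx hy R => by
        rw [map_add]; exact Submodule.add_mem _ (hx R) (hy R)
      zero_mem' := fun R => by rw [map_zero]; exact Submodule.zero_mem _
      smul_mem' := fun c x hx R => by
        rw [map_smul]; exact Submodule.smul_mem _ _ (hx R) }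
  have hM2mem : ∀ m, m ∈ M2 ↔ ∀ R, P R m ∈ M ⊔ Y0 := fun m => Iff.rfl
  have hM2inv : ∀ R, ∀ m ∈ M2, P R m ∈ M2 := by
    intro R m hm S
    have : P S (P R m) = P (S * R) m := by rw [map_mul]; rfl
    rw [this]
    exact hm _
  have hM2le : M2 ≤ M ⊔ Y0 := by
    intro m hm
    have := hm 1
    rw [map_one] at this
    exact this
  obtain ⟨y, hyY, hTy⟩ : ∃ y ∈ Y, T y ≠ 0 := by
    by_contra hcon
    push Not at hcon
    have hle : Y ≤ LinearMap.ker (T : H →ₗ[ℂ] X) := fun z hz => hcon z hz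
    have hYf : FiniteDimensional ℂ Y := Submodule.finiteDimensional_of_le hle
    exact infinite_dim b (Module.Finite.of_submodule_quotient Y)
  have hTyM : T y ∈ M2 := fun R => hinv R y hyY
  have hHsep := separable_of_basis b
  have hsep : TopologicalSpace.IsSeparable ((M ⊔ Y0 : Submodule ℂ X) : Set X) := by
    let F : H × Y0 →L[ℂ] X := T.coprod Y0.subtypeL
    have hs : TopologicalSpace.SeparableSpace Y0 := by
      have : ProperSpace Y0 := FiniteDimensional.proper ℂ Y0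
      infer_instance
    have h1 : TopologicalSpace.IsSeparable (Set.range F) :=
      TopologicalSpace.isSeparable_range F.continuous
    apply h1.mono
    intro x hx
    rw [SetLike.mem_coe] at hx
    obtain ⟨m, hm, z, hz, rfl⟩ := Submodule.mem_sup.mp hx
    rw [hM] at hm
    obtain ⟨h, rfl⟩ := hm
    exact ⟨(h, ⟨z, hz⟩), by simp [F]⟩
  have hM2sep : TopologicalSpace.IsSeparable (M2 : Set X) := hsep.mono hM2le
  obtain ⟨m, hm, g, f, hgf⟩ : ∃ m ∈ M2, ∃ g f, P (rankOne ℂ g f) m ≠ 0 := by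
    by_contra hcon
    push Not at hcon
    exact hTy (ad_lemma b P M2 hM2inv hM2sep hcon _ hTyM)
  obtain ⟨v, hv⟩ : ∃ v, v = P (rankOne ℂ (b 0) f) m := ⟨_, rfl⟩
  have hvM : v ∈ M2 := by rw [hv]; exact hM2inv _ _ hm
  have hin : ⟪b 0, b 0⟫_ℂ = 1 := by
    rw [inner_self_eq_norm_sq_to_K, b.orthonormal.1]; simp
  have hPmul : ∀ R S x, P R (P S x) = P (R * S) x := fun R S x => by rw [map_mul]; rfl
  have hvv : P (rankOne ℂ (b 0) (b 0)) v = v := by
    rw [hv, hPmul, rankOne_mul, hin, one_smul]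
  have hv0 : v ≠ 0 := by
    intro h0
    apply hgf
    have : P (rankOne ℂ g f) m = P (rankOne ℂ g (b 0)) v := by
      rw [hv, hPmul, rankOne_mul, hin, one_smul]
    rw [this, h0, map_zero]
  let U0 : H →ₗ[ℂ] X :=
    { toFun := fun h => P (rankOne ℂ h (b 0)) v
      map_add' := fun x y => by
        rw [map_add, add_apply, map_add, add_apply]
      map_smul' := fun c x => by
        rw [map_smul, smul_apply, map_smul, smul_apply]; rfl }
  have hU0 : ∀ h, U0 h = P (rankOne ℂ h (b 0)) v := fun h => rfl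
  have hU0M : ∀ h, U0 h ∈ M2 := fun h => hM2inv _ _ hvM
  have hU0int : ∀ R h, P R (U0 h) = U0 (R h) := by
    intro R h
    rw [hU0, hU0, hPmul, mul_rankOne]
  have hU0inj : ∀ h, U0 h = 0 → h = 0 := by
    intro h hh
    have h1 : P (rankOne ℂ (b 0) h) (U0 h) = (⟪h, h⟫_ℂ) • v := by
      rw [hU0, hPmul, rankOne_mul, map_smul, smul_apply, hvv]
    rw [hh, map_zero] at h1
    rcases smul_eq_zero.mp h1.symm with h2 | h2
    · exact inner_self_eq_zero.mp h2
    · exact absurd h2 hv0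
  -- the annihilator of rank one operators inside the closure of `M2` is zero
  let Nn : Submodule ℂ X :=
    { carrier := {m | m ∈ M2.topologicalClosure ∧ ∀ g f, P (rankOne ℂ g f) m = 0}
      add_mem' := fun {x y} hx hy => ⟨Submodule.add_mem _ hx.1 hy.1, fun g f => by
        rw [map_add, hx.2, hy.2, add_zero]⟩
      zero_mem' := ⟨Submodule.zero_mem _, fun g f => map_zero _⟩
      smul_mem' := fun c x hx => ⟨Submodule.smul_mem _ _ hx.1, fun g f => by
        rw [map_smul, hx.2, smul_zero]⟩ }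
  have hNinv : ∀ R, ∀ m ∈ Nn, P R m ∈ Nn := by
    rintro R m ⟨h1, h2⟩
    refine ⟨?_, fun g f => ?_⟩
    · rw [← SetLike.mem_coe, Submodule.topologicalClosure_coe] at h1 ⊢
      exact map_mem_closure (P R).continuous h1 (fun x hx => hM2inv R x hx)
    · rw [hPmul, rankOne_mul']
      exact h2 _ _
  have hNsep : TopologicalSpace.IsSeparable (Nn : Set X) := by
    refine hM2sep.closure.mono ?_
    intro x hx
    have := hx.1
    rw [← SetLike.mem_coe, Submodule.topologicalClosure_coe] at this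
    exact this
  have hN0 : ∀ m ∈ Nn, m = 0 := ad_lemma b P Nn hNinv hNsep (fun m hm => hm.2)
  -- continuity of U0
  have hcont : Continuous U0 := by
    apply LinearMap.continuous_of_seq_closed_graph
    intro u x z hu hUu
    have hsub : Tendsto (fun n => U0 (u n - x)) atTop (𝓝 (z - U0 x)) := by
      have : (fun n => U0 (u n - x)) = fun n => U0 (u n) - U0 x := by
        funext n; rw [map_sub]
      rw [this]
      exact hUu.sub_const _
    have hmemN : z - U0 x ∈ Nn := by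
      refine ⟨?_, fun g f => ?_⟩
      · rw [← SetLike.mem_coe, Submodule.topologicalClosure_coe]
        exact mem_closure_of_tendsto hsub (Filter.Eventually.of_forall fun n => hU0M _)
      · have h1 : Tendsto (fun n => P (rankOne ℂ g f) (U0 (u n - x))) atTop
            (𝓝 (P (rankOne ℂ g f) (z - U0 x))) :=
          ((P (rankOne ℂ g f)).continuous.tendsto _).comp hsub
        have h2 : Tendsto (fun n => P (rankOne ℂ g f) (U0 (u n - x))) atTop (𝓝 0) := by
          have e : (fun n => P (rankOne ℂ g f) (U0 (u n - x)))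
              = fun n => ⟪f, u n - x⟫_ℂ • U0 g := by
            funext n
            rw [hU0int, rankOne_apply, map_smul]
          rw [e]
          have h3 : Tendsto (fun n => ⟪f, u n - x⟫_ℂ) atTop (𝓝 0) := by
            have h4 : Tendsto (fun n => u n - x) atTop (𝓝 0) := by
              have := hu.sub_const x
              rwa [sub_self] at this
            have h5 := (tendsto_const_nhds (x := f)).inner h4 (𝕜 := ℂ)
            rwa [inner_zero_right] at h5
          have := h3.smul_const (U0 g)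
          rwa [zero_smul] at this
        exact tendsto_nhds_unique h1 h2
    have := hN0 _ hmemN
    exact sub_eq_zero.mp this
  let U : H →L[ℂ] X := ⟨U0, hcont⟩
  have hUU0 : ∀ h, U h = U0 h := fun h => rfl
  have hb1 : ∀ k, ‖b k‖ = 1 := b.orthonormal.1
  have hUb : 0 < ‖U (b 0)‖ := by
    rw [norm_pos_iff]
    intro h0
    have := hU0inj _ h0
    have h1 := hb1 0
    rw [this, norm_zero] at h1
    exact zero_ne_one h1
  -- bounded below via Banach-Steinhaus
  let ev : {h : H // h ≠ 0} → ((H →L[ℂ] H) →L[ℂ] X) := fun h =>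
    ((‖U h.1‖⁻¹ : ℝ) : ℂ) • (U ∘L (ContinuousLinearMap.apply ℂ H h.1))
  obtain ⟨C, hC⟩ := banach_steinhaus (g := ev) (by
    intro R
    refine ⟨‖P R‖, fun h => ?_⟩
    have hne : 0 < ‖U h.1‖ := by
      rw [norm_pos_iff]
      intro h0
      exact h.2 (hU0inj _ h0)
    change ‖((‖U h.1‖⁻¹ : ℝ) : ℂ) • (U (R h.1))‖ ≤ _
    rw [norm_smul, Complex.norm_real, Real.norm_eq_abs, abs_of_pos (inv_pos.mpr hne),
      inv_mul_le_iff₀ hne, hUU0, ← hU0int, mul_comm]
    exact (P R).le_opNorm _)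
  refine ⟨U, ‖U (b 0)‖ / (|C| + 1), by positivity, ?_, fun R h => hU0int R h,
    fun h => hM2le (hU0M h)⟩
  intro h
  by_cases hh : h = 0
  · rw [hh]; simp
  have hne : 0 < ‖U h‖ := by
    rw [norm_pos_iff]
    intro h0
    exact hh (hU0inj _ h0)
  have hhpos : 0 < ‖h‖ := norm_pos_iff.mpr hh
  have h1 := (ev ⟨h, hh⟩).le_opNorm (rankOne ℂ (b 0) h)
  have h2 : ev ⟨h, hh⟩ (rankOne ℂ (b 0) h)
      = ((‖U h‖⁻¹ : ℝ) : ℂ) • (U (⟪h, h⟫_ℂ • b 0)) := rfl
  rw [h2, map_smul, norm_smul, norm_smul, Complex.norm_real, Real.norm_eq_abs,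
    abs_of_pos (inv_pos.mpr hne), inner_self_eq_norm_sq_to_K, norm_rankOne, hb1, one_mul] at h1
  have h3 : ‖((‖h‖ : ℂ)) ^ 2‖ = ‖h‖ ^ 2 := by
    rw [norm_pow, Complex.norm_real, norm_norm]
  have h4 : ‖((RCLike.ofReal ‖h‖ : ℂ)) ^ 2‖ = ‖h‖ ^ 2 := h3
  rw [h4] at h1
  have h5 : ‖U h‖⁻¹ * (‖h‖ ^ 2 * ‖U (b 0)‖) ≤ (|C| + 1) * ‖h‖ := by
    refine h1.trans ?_
    gcongr
    have := hC ⟨h, hh⟩
    have := le_abs_self C
    linarith
  rw [inv_mul_le_iff₀ hne] at h5
  rw [div_mul_eq_mul_div, div_le_iff₀ (by positivity)]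
  have h6 : ‖h‖ * (‖U (b 0)‖ * ‖h‖) ≤ ‖h‖ * (‖U h‖ * (|C| + 1)) := by nlinarith
  exact le_of_mul_le_mul_left h6 hhpos

end Inter

end Pool.Agent.MP86f994
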