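import Mathlib
import Pool.Agent.Lib_MP_86f994_an.Inter

/-!
Every unital homomorphism `B(H) → B(H)/F(H)` is intertwined with the quotient map by a left
invertible element.
-/

namespace Pool.Agent.MP86f994

set_option linter.unusedSectionVars false

open InnerProductSpace ContinuousLinearMap Filter Topology
open scoped ENNReal InnerProductSpace InnerProduct

section Inner

variable {H : Type*} [NormedAddCommGroup H] [InnerProductSpace ℂ H] [CompleteSpace H]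
variable {X : Type*} [NormedAddCommGroup X] [NormedSpace ℂ X]

/-- Steps 10-12 -/
theorem exists_intertwiner [CompleteSpace X] (b : HilbertBasis ℕ ℂ H)
    (P : (H →L[ℂ] H) →ₐ[ℂ] (X →L[ℂ] X)) (T : H →L[ℂ] X)
    (hT : FiniteDimensional ℂ (LinearMap.ker (T : H →ₗ[ℂ] X)))
    (phi : (H →L[ℂ] H) → (H →L[ℂ] H))
    (hphi : ∀ R, ∃ r, RkLE r ((P R : X →ₗ[ℂ] X) ∘ₗ (T : H →ₗ[ℂ] X)
      - (T : H →ₗ[ℂ] X) ∘ₗ (phi R : H →ₗ[ℂ] H))) :
    ∃ A B : H →L[ℂ] H, FiniteRank (B * A - 1) ∧ ∀ R, FiniteRank (phi R * A - A * R) := by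
  obtain ⟨Y0, Y, hY0, hY, hinv⟩ := almost_invariant b P T phi hphi
  obtain ⟨U, c, hc, hUb, hUint, hUmem⟩ := exists_U b P T hT Y0 Y hY0 hY hinv
  -- L = T⁻¹(Y0)
  obtain ⟨L, hL⟩ : ∃ L, L = Y0.comap (T : H →ₗ[ℂ] X) := ⟨_, rfl⟩
  have hLf : FiniteDimensional ℂ L := by rw [hL]; exact finite_comap _ hT Y0 hY0
  have hLmem : ∀ x, x ∈ L ↔ T x ∈ Y0 := fun x => by rw [hL]; rfl
  let Θ : Lᗮ × Y0 →L[ℂ] X := (T ∘L Lᗮ.subtypeL).coprod Y0.subtypeL
  have hΘ : ∀ (a : Lᗮ) (x : Y0), Θ (a, x) = T a + x := fun a x => by simp [Θ]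
  have hΘinj : Function.Injective Θ := by
    rw [injective_iff_map_eq_zero]
    rintro ⟨a, x⟩ h
    rw [hΘ] at h
    have h1 : T a = -(x : X) := by rw [← add_eq_zero_iff_eq_neg]; exact h
    have h2 : (a : H) ∈ L := by rw [hLmem, h1]; exact Y0.neg_mem x.2
    have h3 : (a : H) = 0 := by
      have := Submodule.inner_right_of_mem_orthogonal h2 a.2
      exact inner_self_eq_zero.mp this
    have h4 : (x : X) = 0 := by
      rw [h3, map_zero, zero_add] at h; exact h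
    exact Prod.ext (Subtype.ext h3) (Subtype.ext h4)
  have hrange : ∀ h, U h ∈ LinearMap.range (Θ : Lᗮ × Y0 →ₗ[ℂ] X) := by
    intro h
    obtain ⟨m, ⟨a, rfl⟩, z, hz, hsum⟩ := Submodule.mem_sup.mp (hUmem h)
    refine ⟨(⟨a - L.starProjection a, Submodule.sub_starProjection_mem_orthogonal a⟩,
      ⟨T (L.starProjection a) + z, Y0.add_mem
        ((hLmem _).mp (Submodule.starProjection_apply_mem _ _)) hz⟩), ?_⟩
    change Θ _ = _
    rw [hΘ]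
    change T (a - L.starProjection a) + (T (L.starProjection a) + z) = U h
    rw [← hsum, map_sub]
    change _ = T a + z
    abel
  let eΘ := LinearEquiv.ofInjective (Θ : Lᗮ × Y0 →ₗ[ℂ] X) hΘinj
  let Lam0 : H →ₗ[ℂ] Lᗮ × Y0 :=
    (eΘ.symm : _ →ₗ[ℂ] Lᗮ × Y0) ∘ₗ (LinearMap.codRestrict _ (U : H →ₗ[ℂ] X) hrange)
  have hLam0 : ∀ h, Θ (Lam0 h) = U h := by
    intro h
    have h1 : eΘ (Lam0 h) = LinearMap.codRestrict _ (U : H →ₗ[ℂ] X) hrange h :=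
      eΘ.apply_symm_apply _
    exact congrArg Subtype.val h1
  have hcont : Continuous Lam0 := by
    have : CompleteSpace Y0 := FiniteDimensional.complete ℂ _
    apply LinearMap.continuous_of_seq_closed_graph
    intro u x y hu hUu
    apply hΘinj
    rw [hLam0]
    have h1 : Tendsto (fun n => Θ (Lam0 (u n))) atTop (𝓝 (Θ y)) :=
      (Θ.continuous.tendsto _).comp hUu
    have h2 : Tendsto (fun n => Θ (Lam0 (u n))) atTop (𝓝 (U x)) := by
      simp only [hLam0]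
      exact (U.continuous.tendsto _).comp hu
    exact tendsto_nhds_unique h1 h2
  let Lam : H →L[ℂ] Lᗮ × Y0 := ⟨Lam0, hcont⟩
  have hLam : ∀ h, Θ (Lam h) = U h := hLam0
  let A : H →L[ℂ] H := Lᗮ.subtypeL ∘L (ContinuousLinearMap.fst ℂ Lᗮ Y0) ∘L Lam
  let xx : H →L[ℂ] Y0 := (ContinuousLinearMap.snd ℂ Lᗮ Y0) ∘L Lam
  have hAx : ∀ h, T (A h) + (xx h : X) = U h := by
    intro h
    rw [← hLam]
    have : Lam h = ((Lam h).1, (Lam h).2) := rfl
    rw [this, hΘ]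
    rfl
  -- finite codimensional kernel of xx
  let Kx : Submodule ℂ H := LinearMap.ker (xx : H →ₗ[ℂ] Y0)
  have hKcl : IsClosed (Kx : Set H) := xx.isClosed_ker
  have hKcs : CompleteSpace Kx := hKcl.completeSpace_coe
  have hKf : FiniteDimensional ℂ Kxᗮ := by
    let g : Kxᗮ →ₗ[ℂ] Y0 := (xx : H →ₗ[ℂ] Y0) ∘ₗ Kxᗮ.subtype
    apply FiniteDimensional.of_injective g
    rw [injective_iff_map_eq_zero]
    intro z hz
    have h1 : (z : H) ∈ Kx := hz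
    have := Submodule.inner_right_of_mem_orthogonal h1 z.2
    exact Subtype.ext (inner_self_eq_zero.mp this)
  obtain ⟨B, hB⟩ := left_inverse_of_bddBelow A Kxᗮ (c / (‖T‖ + 1)) (by positivity) (by
    intro h hh
    rw [Submodule.orthogonal_orthogonal] at hh
    have h0 : xx h = 0 := hh
    have h1 := hAx h
    rw [h0] at h1
    have h2 : T (A h) = U h := by rw [← h1]; simp
    have h3 := hUb h
    rw [← h2] at h3
    have h4 : ‖T (A h)‖ ≤ (‖T‖ + 1) * ‖A h‖ := by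
      refine (T.le_opNorm _).trans ?_
      gcongr
      linarith
    rw [div_mul_eq_mul_div, div_le_iff₀ (by positivity)]
    linarith)
  refine ⟨A, B, hB, fun R => ?_⟩
  rw [finiteRank_iff]
  obtain ⟨r, hr⟩ := hphi R
  -- T ∘ (phi R A - A R) = xx(R h) - P R (xx h) - Δ (A h)
  have hxx : RkLE (Module.finrank ℂ Y0) (Y0.subtype ∘ₗ (xx : H →ₗ[ℂ] Y0)) :=
    ⟨Y0, hY0, le_rfl, fun v => (xx v).2⟩
  have key : (T : H →ₗ[ℂ] X) ∘ₗ ((phi R * A - A * R : H →L[ℂ] H) : H →ₗ[ℂ] H)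
      = (Y0.subtype ∘ₗ (xx : H →ₗ[ℂ] Y0)) ∘ₗ (R : H →ₗ[ℂ] H)
        - (P R : X →ₗ[ℂ] X) ∘ₗ (Y0.subtype ∘ₗ (xx : H →ₗ[ℂ] Y0))
        - ((P R : X →ₗ[ℂ] X) ∘ₗ (T : H →ₗ[ℂ] X)
          - (T : H →ₗ[ℂ] X) ∘ₗ (phi R : H →ₗ[ℂ] H)) ∘ₗ (A : H →ₗ[ℂ] H) := by
    ext h
    change T (phi R (A h) - A (R h)) = (xx (R h) : X) - P R (xx h : X)
      - (P R (T (A h)) - T (phi R (A h)))
    have e1 : P R (T (A h)) = P R (U h) - P R (xx h : X) := by
      rw [← map_sub, ← hAx h]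
      congr 1
      abel
    have e2 : T (A (R h)) = U (R h) - (xx (R h) : X) := by
      rw [← hAx (R h)]; abel
    rw [map_sub, e2, e1, hUint]
    abel
  apply rkLE_of_comp (g := (T : H →ₗ[ℂ] X)) _ hT
  rw [key]
  exact ⟨_, ((hxx.comp_right _).sub (hxx.comp_left _)).sub (hr.comp_right _)⟩

/-- `ι` as an algebra homomorphism -/
noncomputable def iotaHom (b : HilbertBasis ℕ ℂ H) : (H →L[ℂ] H) →ₐ[ℂ] (H →L[ℂ] H) :=
  AlgHom.ofLinearMap
    { toFun := iota b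
      map_add' := iota_add b
      map_smul' := iota_smul b } (iota_one b) (iota_mul b)

/-- the representation of `B(H)` on bounded sequences modulo convergent ones -/
noncomputable def Prep (b : HilbertBasis ℕ ℂ H) (ψ : (H →L[ℂ] H) →ₐ[ℂ] QF H) :
    (H →L[ℂ] H) →ₐ[ℂ] (Hat H →L[ℂ] Hat H) :=
  actQ.comp (ψ.comp (iotaHom b))

theorem Prep_eq (b : HilbertBasis ℕ ℂ H) (ψ : (H →L[ℂ] H) →ₐ[ℂ] QF H) (R : H →L[ℂ] H) :
    Prep b ψ R = act (lft ψ (iota b R)) := by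
  change actQ (ψ (iota b R)) = _
  rw [← qf_lft]
  rfl

theorem inner_of_hom (b : HilbertBasis ℕ ℂ H) (ψ : (H →L[ℂ] H) →ₐ[ℂ] QF H) :
    ∃ A B : H →L[ℂ] H, qf B * qf A = 1 ∧ ∀ R, ψ R * qf A = qf A * qf R := by
  obtain ⟨V, W, hV, hW, ⟨r, hr1, hr2⟩, hR⟩ := exists_families b ψ
  obtain ⟨A, B, hBA, hA⟩ := exists_intertwiner b (Prep b ψ) (seqMap V hV)
    (seqMap_ker V W hV hW r hr1 hr2) (lft ψ) (by
      intro R
      obtain ⟨r, hr⟩ := hR R
      obtain ⟨M, hM⟩ := hV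
      have b1 : ∃ M' : ℝ, ∀ k, ‖lft ψ (iota b R) * V k‖ ≤ M' :=
        ⟨‖lft ψ (iota b R)‖ * M, fun k => (norm_mul_le _ _).trans (by gcongr; exact hM k)⟩
      have b2 : ∃ M' : ℝ, ∀ k, ‖V k * lft ψ R‖ ≤ M' :=
        ⟨M * ‖lft ψ R‖, fun k => (norm_mul_le _ _).trans (by gcongr; exact hM k)⟩
      have b3 : ∃ M' : ℝ, ∀ k, ‖lft ψ (iota b R) * V k - V k * lft ψ R‖ ≤ M' := by
        obtain ⟨M1, h1⟩ := b1
        obtain ⟨M2, h2⟩ := b2
        exact ⟨M1 + M2, fun k => (norm_sub_le _ _).trans (add_le_add (h1 k) (h2 k))⟩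
      refine ⟨r, ?_⟩
      have e : ((Prep b ψ R : Hat H →ₗ[ℂ] Hat H) ∘ₗ (seqMap V ⟨M, hM⟩ : H →ₗ[ℂ] Hat H)
          - (seqMap V ⟨M, hM⟩ : H →ₗ[ℂ] Hat H) ∘ₗ (lft ψ R : H →ₗ[ℂ] H))
          = (seqMap (fun k => lft ψ (iota b R) * V k - V k * lft ψ R) b3 : H →ₗ[ℂ] Hat H) := by
        ext h
        change Prep b ψ R (seqMap V ⟨M, hM⟩ h) - seqMap V ⟨M, hM⟩ (lft ψ R h) = _
        rw [Prep_eq, act_seqMap _ _ _ b1, seqMap_comp _ _ _ b2, seqMap_sub _ _ b1 b2 b3]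
        rfl
      rw [e]
      exact seqMap_rk _ _ r hr)
  refine ⟨A, B, ?_, fun R => ?_⟩
  · rw [← map_mul, ← map_one qf, qf_eq]; exact hBA
  · rw [← qf_lft, ← map_mul, ← map_mul, qf_eq]; exact hA R

end Inner

end Pool.Agent.MP86f994
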