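import Mathlib
import Pool.Agent.Lib_MP_86f994_an.Algebra

/-!
Abstract algebraic part, continued: a linear bijection preserving regular elements in both
directions is a unit times an automorphism or an anti-automorphism.
-/

namespace Pool.Agent.MP86f994

set_option linter.unusedSectionVars false

section Abstract

variable {A : Type*} [Ring A] [Algebra ℂ A] {J : Set A}

theorem Good.one_notMem (hG : Good A J) : (1 : A) ∉ J := by
  intro h
  have := hG.oneSub 1 h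
  rw [sub_self] at this
  obtain ⟨u, hu⟩ := this
  have h1 : (u : A) * ↑u⁻¹ = 1 := u.mul_inv
  rw [hu, zero_mul] at h1
  exact hG.nontriv h1.symm

theorem Good.left_group (hG : Good A J) (T : A) (hT : Reg T)
    (hR : ∀ R : A, ∃ ε : ℂ, ε ≠ 0 ∧ LInv (T - algebraMap ℂ A ε + (ε ^ 2) • R)) :
    ∃ b, b * T * T = T := by
  obtain ⟨y, hy⟩ := hT
  by_cases hq : T * y = 0
  · have : T = 0 := by rw [← hy, hq, zero_mul]
    exact ⟨0, by simp [this]⟩
  have hqq : (T * y) * (T * y) = T * y := by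
    rw [← mul_assoc, hy]
  obtain ⟨w, w', hw, hw'⟩ := hG.equi (T * y) hqq hq
  rcases hG.dich (T * w) with ⟨b, hb⟩ | ⟨z, z', hz, hzJ⟩
  · refine ⟨w * b, ?_⟩
    have e1 : w * b * T * T = w * b * T * (T * y * T) := by rw [hy]
    have e2 : w * b * T * (T * y * T) = w * (b * (T * w)) * w' * T := by
      rw [← hw']; noncomm_ring
    rw [e1, e2, hb, mul_one, hw', hy]
  · exfalso
    obtain ⟨W, hW⟩ : ∃ W, W = w * z := ⟨_, rfl⟩
    obtain ⟨W', hW'⟩ : ∃ W', W' = z' * w' := ⟨_, rfl⟩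
    have hWW : W' * W = 1 := by
      rw [hW, hW']
      have : z' * w' * (w * z) = z' * (w' * w) * z := by noncomm_ring
      rw [this, hw, mul_one, hz]
    have hTW : T * W ∈ J := by
      rw [hW, ← mul_assoc]; exact hzJ
    have hqW : T * (y * W) = W := by
      have : T * (y * W) = (T * y) * w * z := by rw [hW]; noncomm_ring
      rw [this, ← hw']
      have : w * w' * w * z = w * (w' * w) * z := by noncomm_ring
      rw [this, hw, mul_one, hW]
    obtain ⟨v, hv⟩ : ∃ v, v = y * W := ⟨_, rfl⟩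
    rw [← hv] at hqW
    obtain ⟨c, hc⟩ : ∃ c, c = W' * v := ⟨_, rfl⟩
    obtain ⟨u, hu⟩ := hG.oneSub (c * (W' * (T * W))) (hG.mulJ _ _ (hG.mulJ _ _ hTW))
    obtain ⟨β, hβ⟩ : ∃ β, β = ↑u⁻¹ * (W' - c * (W' * T)) := ⟨_, rfl⟩
    have hβv : β * v = 0 := by
      have : β * v = ↑u⁻¹ * (W' * v - c * (W' * (T * v))) := by rw [hβ]; noncomm_ring
      rw [this, hqW, hWW, hc]; simp
    have hβW : β * W = 1 := by
      have : β * W = ↑u⁻¹ * (W' * W - c * (W' * (T * W))) := by rw [hβ]; noncomm_ring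
      rw [this, hWW, ← hu, Units.inv_mul]
    obtain ⟨ε, hε, b, hb⟩ := hR (v * β)
    have key : (T - algebraMap ℂ A ε + (ε ^ 2) • (v * β)) * (v + ε⁻¹ • W) = ε⁻¹ • (T * W) := by
      have e0 : algebraMap ℂ A ε = ε • (1 : A) := Algebra.algebraMap_eq_smul_one ε
      rw [e0]
      have e1 : (T - ε • (1:A) + (ε ^ 2) • (v * β)) * (v + ε⁻¹ • W)
          = T * v + ε⁻¹ • (T * W) - ε • v - (ε * ε⁻¹) • W + (ε ^ 2) • (v * (β * v))
            + (ε ^ 2 * ε⁻¹) • (v * (β * W)) := by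
        simp only [add_mul, sub_mul, mul_add, smul_mul_assoc, mul_smul_comm, one_mul, mul_assoc]
        module
      rw [e1, hqW, hβv, hβW]
      have e2 : ε ^ 2 * ε⁻¹ = ε := by field_simp
      rw [e2, mul_inv_cancel₀ hε]
      simp only [mul_zero, smul_zero, mul_one, one_smul, add_zero]
      abel
    have hx : v + ε⁻¹ • W = (b * ε⁻¹ • (1:A)) * (T * W) := by
      have : b * ((T - algebraMap ℂ A ε + (ε ^ 2) • (v * β)) * (v + ε⁻¹ • W)) = v + ε⁻¹ • W := by
        rw [← mul_assoc, hb, one_mul]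
      rw [← this, key]
      simp
    have h1 : (1 : A) ∈ J := by
      have : (1 : A) = (ε • β) * (b * ε⁻¹ • (1:A)) * (T * W) := by
        rw [mul_assoc, ← hx, smul_mul_assoc, mul_add, hβv, mul_smul_comm, hβW, zero_add, smul_smul,
          mul_inv_cancel₀ hε, one_smul]
      rw [this]
      exact hG.mulJ _ _ hTW
    exact hG.one_notMem h1

theorem Good.idem_of (hG : Good A J) (T : A) (h0 : Reg T) (h1 : Reg (1 - T))
    (hinv : ∀ l : ℂ, l ≠ 0 → l ≠ 1 → IsUnit (T - algebraMap ℂ A l))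
    (hR0 : ∀ R : A, ∃ ε : ℂ, ε ≠ 0 ∧ LInv (T - algebraMap ℂ A ε + (ε ^ 2) • R))
    (hR1 : ∀ R : A, ∃ ε : ℂ, ε ≠ 0 ∧ LInv ((1 - T) - algebraMap ℂ A ε + (ε ^ 2) • R)) :
    T * T = T := by
  obtain ⟨b, hb⟩ := hG.left_group T h0 hR0
  obtain ⟨c, hc⟩ := hG.left_group (1 - T) h1 hR1
  obtain ⟨x, hx⟩ : ∃ x, x = T * (1 - T) := ⟨_, rfl⟩
  have hx' : x = (1 - T) * T := by rw [hx]; noncomm_ring
  have hxreg : Reg x := by
    rw [hx]; exact reg_mul_of_add_eq_one (by abel) h0 h1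
  by_contra hne
  have hx0 : x ≠ 0 := by
    intro h
    apply hne
    rw [hx, mul_sub, mul_one] at h
    exact (sub_eq_zero.mp h).symm
  have hd : c * b * x * x = x := by
    have e1 : c * b * x * x = c * (b * T * T) * (1 - T) * (1 - T) := by
      rw [hx]; noncomm_ring
    rw [e1, hb]
    have e2 : c * T * (1 - T) * (1 - T) = (c * (1 - T) * (1 - T)) * T := by noncomm_ring
    rw [e2, hc, hx']
  obtain ⟨d, hdd⟩ : ∃ d, d = c * b := ⟨_, rfl⟩
  rw [← hdd] at hd
  obtain ⟨y, hy⟩ := hxreg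
  obtain ⟨p, hp⟩ : ∃ p, p = x * y := ⟨_, rfl⟩
  have hpx : p * x = x := by rw [hp]; exact hy
  have hpp : p * p = p := by
    have : p * p = (p * x) * y := by rw [hp]; noncomm_ring
    rw [this, hpx, hp]
  have hp0 : p ≠ 0 := by
    intro h
    apply hx0
    rw [← hpx, h, zero_mul]
  obtain ⟨w, w', hw, hw'⟩ := hG.equi p hpp hp0
  have hdp : d * x * p = p := by
    have : d * x * p = (d * x * x) * y := by rw [hp]; noncomm_ring
    rw [this, hd, hp]
  have hpw : p * w = w := by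
    rw [← hw', mul_assoc, hw, mul_one]
  have hpTp : p * T * p = T * p := by
    have e1 : T * p = x * T * y := by rw [hp, hx]; noncomm_ring
    rw [mul_assoc, e1]
    have e2 : p * (x * T * y) = (p * x) * T * y := by noncomm_ring
    rw [e2, hpx]
  have hpTw : p * (T * w) = T * w := by
    have : p * (T * w) = p * T * (p * w) := by rw [hpw]; noncomm_ring
    rw [this]
    have : p * T * (p * w) = (p * T * p) * w := by noncomm_ring
    rw [this, hpTp, mul_assoc, hpw]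
  obtain ⟨l, hl⟩ := hG.spec (w' * T * w)
  apply hl
  left
  have hsub : w' * T * w - algebraMap ℂ A l = w' * ((T - algebraMap ℂ A l) * w) := by
    rw [Algebra.algebraMap_eq_smul_one]
    have : w' * ((T - l • (1:A)) * w) = w' * T * w - l • (w' * w) := by
      simp [sub_mul, mul_sub, mul_assoc]
    rw [this, hw]
  have hpl : p * ((T - algebraMap ℂ A l) * w) = (T - algebraMap ℂ A l) * w := by
    rw [Algebra.algebraMap_eq_smul_one]
    have : p * ((T - l • (1:A)) * w) = p * (T * w) - l • (p * w) := by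
      simp [sub_mul, mul_sub]
    rw [this, hpTw, hpw]
    simp [sub_mul]
  have gen : ∀ g : A, g * ((T - algebraMap ℂ A l) * w) = w →
      LInv (w' * T * w - algebraMap ℂ A l) := by
    intro g hg
    refine ⟨w' * g * w, ?_⟩
    rw [hsub]
    have : w' * g * w * (w' * ((T - algebraMap ℂ A l) * w))
        = w' * (g * ((w * w') * ((T - algebraMap ℂ A l) * w))) := by noncomm_ring
    rw [this, hw', hpl, hg, hw]
  by_cases hl0 : l = 0
  · apply gen (d * (1 - T))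
    rw [hl0, map_zero, sub_zero]
    have : d * (1 - T) * (T * w) = d * ((1 - T) * T) * w := by noncomm_ring
    rw [this, ← hx']
    have : d * x * w = d * x * (p * w) := by rw [hpw]
    rw [this, ← mul_assoc, hdp, hpw]
  by_cases hl1 : l = 1
  · apply gen (-(d * T))
    rw [hl1, map_one]
    have : -(d * T) * ((T - 1) * w) = d * (T * (1 - T)) * w := by noncomm_ring
    rw [this, ← hx]
    have : d * x * w = d * x * (p * w) := by rw [hpw]
    rw [this, ← mul_assoc, hdp, hpw]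
  obtain ⟨u, hu⟩ := hinv l hl0 hl1
  apply gen ↑u⁻¹
  rw [← hu, ← mul_assoc, Units.inv_mul, one_mul]

/-- perturbed idempotents are invertible -/
theorem Good.unit_idem (hG : Good A J) (P : A) (hP : P * P = P) (R : A) :
    ∃ ε : ℂ, ε ≠ 0 ∧ IsUnit (P - algebraMap ℂ A ε + (ε ^ 2) • R) := by
  obtain ⟨δ, hδ, H⟩ := hG.pert (P * R) ((1 - P) * R)
  obtain ⟨r, hr⟩ : ∃ r : ℝ, r = min (δ / 2) (1 / 2) := ⟨_, rfl⟩
  have hr0 : 0 < r := by rw [hr]; positivity
  have hr1 : r ≤ 1 / 2 := by rw [hr]; exact min_le_right _ _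
  have hr2 : r < δ := by
    have : r ≤ δ / 2 := by rw [hr]; exact min_le_left _ _
    linarith
  have hε0 : (r : ℂ) ≠ 0 := by exact_mod_cast hr0.ne'
  have h1r : (1 : ℂ) - r ≠ 0 := by
    have : (1 : ℝ) - r ≠ 0 := by linarith
    exact_mod_cast this
  refine ⟨(r : ℂ), hε0, ?_⟩
  have hs : ‖((r : ℂ) ^ 2 / (1 - r) : ℂ)‖ < δ := by
    have : ((r : ℂ) ^ 2 / (1 - r) : ℂ) = ((r ^ 2 / (1 - r) : ℝ) : ℂ) := by push_cast; ring
    rw [this, Complex.norm_real, Real.norm_eq_abs, abs_of_pos (by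
      apply div_pos (by positivity); linarith)]
    have h2 : r ^ 2 / (1 - r) ≤ r := by
      rw [div_le_iff₀ (by linarith)]
      nlinarith
    linarith
  have ht : ‖(-(r : ℂ))‖ < δ := by
    rw [norm_neg, Complex.norm_real, Real.norm_eq_abs, abs_of_pos hr0]; exact hr2
  have hu := H _ _ hs ht
  obtain ⟨g, hg⟩ : ∃ g : A, g = (1 - (r:ℂ))⁻¹ • P - (r:ℂ)⁻¹ • (1 - P) := ⟨_, rfl⟩
  have hP1 : P * (1 - P) = 0 := by rw [mul_sub, mul_one, hP, sub_self]
  have hP2 : (1 - P) * P = 0 := by rw [sub_mul, one_mul, hP, sub_self]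
  have hP3 : (1 - P) * (1 - P) = 1 - P := by rw [mul_sub, mul_one, hP2, sub_zero]
  have hPe : P - algebraMap ℂ A (r:ℂ) = (1 - (r:ℂ)) • P - (r:ℂ) • (1 - P) := by
    rw [Algebra.algebraMap_eq_smul_one]
    module
  have hg1 : (P - algebraMap ℂ A (r:ℂ)) * g = 1 := by
    rw [hPe, hg]
    simp only [sub_mul (((1:ℂ) - (r:ℂ)) • P), mul_sub _ ((1 - (r:ℂ))⁻¹ • P), smul_mul_smul_comm,
      hP, hP1, hP2, hP3, mul_inv_cancel₀ h1r, mul_inv_cancel₀ hε0]
    simp
  have hg2 : g * (P - algebraMap ℂ A (r:ℂ)) = 1 := by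
    rw [hPe, hg]
    simp only [sub_mul ((1 - (r:ℂ))⁻¹ • P), mul_sub _ ((1 - (r:ℂ)) • P), smul_mul_smul_comm,
      hP, hP1, hP2, hP3, inv_mul_cancel₀ h1r, inv_mul_cancel₀ hε0]
    simp
  have e1 : P - algebraMap ℂ A (r:ℂ) + ((r:ℂ) ^ 2) • R
      = (P - algebraMap ℂ A (r:ℂ)) *
        (1 + ((r : ℂ) ^ 2 / (1 - r)) • (P * R) + (-(r:ℂ)) • ((1 - P) * R)) := by
    have e2 : (1 + ((r : ℂ) ^ 2 / (1 - r)) • (P * R) + (-(r:ℂ)) • ((1 - P) * R))
        = 1 + ((r:ℂ) ^ 2) • (g * R) := by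
      have e3 : (r:ℂ) ^ 2 * (r:ℂ)⁻¹ = r := by field_simp
      have e4 : g * R = (1 - (r:ℂ))⁻¹ • (P * R) - (r:ℂ)⁻¹ • ((1 - P) * R) := by
        rw [hg, sub_mul, smul_mul_assoc, smul_mul_assoc]
      rw [e4, smul_sub, smul_smul, smul_smul, e3, ← div_eq_mul_inv, neg_smul]
      abel
    rw [e2, mul_add, mul_one, mul_smul_comm, ← mul_assoc, hg1, one_mul]
  rw [e1]
  exact (IsUnit.mul ⟨⟨_, g, hg1, hg2⟩, rfl⟩ hu)

theorem Good.idem_preserve (hG : Good A J) (F : A ≃ₗ[ℂ] A) (h1 : F 1 = 1)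
    (hReg : ∀ a, Reg (F a) ↔ Reg a) (hU : ∀ a, IsUnit (F a) ↔ IsUnit a)
    (P : A) (hP : P * P = P) : F P * F P = F P := by
  have hQ : (1 - P) * (1 - P) = 1 - P := by
    rw [mul_sub, mul_one, sub_mul, one_mul, hP, sub_self, sub_zero]
  have hal : ∀ l : ℂ, F (algebraMap ℂ A l) = algebraMap ℂ A l := by
    intro l
    rw [Algebra.algebraMap_eq_smul_one, map_smul, h1]
  have key : ∀ Q : A, Q * Q = Q → ∀ R : A, ∃ ε : ℂ, ε ≠ 0 ∧
      LInv (F Q - algebraMap ℂ A ε + (ε ^ 2) • R) := by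
    intro Q hQ R
    obtain ⟨ε, hε, hu⟩ := hG.unit_idem Q hQ (F.symm R)
    refine ⟨ε, hε, ?_⟩
    have : F Q - algebraMap ℂ A ε + (ε ^ 2) • R
        = F (Q - algebraMap ℂ A ε + (ε ^ 2) • F.symm R) := by
      rw [map_add, map_sub, hal, map_smul, F.apply_symm_apply]
    rw [this]
    obtain ⟨u, hu'⟩ := (hU _).mpr hu
    exact ⟨↑u⁻¹, by rw [← hu', Units.inv_mul]⟩
  have hsub : F (1 - P) = 1 - F P := by rw [map_sub, h1]
  apply hG.idem_of (F P)
  · exact (hReg P).mpr (reg_idem hP)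
  · rw [← hsub]; exact (hReg _).mpr (reg_idem hQ)
  · intro l hl0 hl1
    have : F P - algebraMap ℂ A l = F (P - algebraMap ℂ A l) := by rw [map_sub, hal]
    rw [this, hU]
    have h1l : (1:ℂ) - l ≠ 0 := sub_ne_zero.mpr (Ne.symm hl1)
    have hPe : P - algebraMap ℂ A l = (1 - l) • P - l • (1 - P) := by
      rw [Algebra.algebraMap_eq_smul_one]
      module
    have hP1 : P * (1 - P) = 0 := by rw [mul_sub, mul_one, hP, sub_self]
    have hP2 : (1 - P) * P = 0 := by rw [sub_mul, one_mul, hP, sub_self]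
    refine ⟨⟨P - algebraMap ℂ A l, (1 - l)⁻¹ • P - l⁻¹ • (1 - P), ?_, ?_⟩, rfl⟩
    · rw [hPe]
      simp only [sub_mul (((1:ℂ) - l) • P), mul_sub _ ((1 - l)⁻¹ • P), smul_mul_smul_comm,
        hP, hP1, hP2, hQ, mul_inv_cancel₀ h1l, mul_inv_cancel₀ hl0]
      simp
    · rw [hPe]
      simp only [sub_mul ((1 - l)⁻¹ • P), mul_sub _ ((1 - l) • P), smul_mul_smul_comm,
        hP, hP1, hP2, hQ, inv_mul_cancel₀ h1l, inv_mul_cancel₀ hl0]
      simp
  · exact key P hP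
  · rw [← hsub]; exact key _ hQ

end Abstract

end Pool.Agent.MP86f994
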