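import Mathlib
import Pool.Agent.Lib_MP_86f994_an.Preserve

/-!
Abstract algebraic part, concluded.
-/

namespace Pool.Agent.MP86f994

set_option linter.unusedSectionVars false

section Abstract

variable {A : Type*} [Ring A] [Algebra ℂ A] {J : Set A}

theorem half_zero {a : A} (h : a + a = 0) : a = 0 := by
  have : (2:ℂ) • a = 0 := by rw [two_smul]; exact h
  exact (smul_eq_zero.mp this).resolve_left two_ne_zero

/-- corners are spanned by idempotents -/
theorem Good.corner_span (hG : Good A J) (P : A) (hP : P * P = P) (z : A) (hz : P * z * P = z) :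
    z ∈ Submodule.span ℂ {e : A | e * e = e ∧ P * e = e ∧ e * P = e} := by
  by_cases hP0 : P = 0
  · have : z = 0 := by rw [← hz, hP0]; simp
    rw [this]; exact Submodule.zero_mem _
  obtain ⟨w, w', hw, hw'⟩ := hG.equi P hP hP0
  have key : ∀ y : A, w * y * w' ∈ Submodule.span ℂ {e : A | e * e = e ∧ P * e = e ∧ e * P = e} := by
    intro y
    have hy : y ∈ Submodule.span ℂ {e : A | e * e = e} := by rw [hG.span]; trivial
    induction hy using Submodule.span_induction with
    | mem e he =>
      apply Submodule.subset_span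
      refine ⟨?_, ?_, ?_⟩
      · have : w * e * w' * (w * e * w') = w * (e * (w' * w) * e) * w' := by noncomm_ring
        rw [this, hw, mul_one]
        rw [show e * e = e from he]
      · have : P * (w * e * w') = w * (w' * w) * e * w' := by rw [← hw']; noncomm_ring
        rw [this, hw, mul_one]
      · have : w * e * w' * P = w * e * (w' * w) * w' := by rw [← hw']; noncomm_ring
        rw [this, hw, mul_one]
    | zero => simp
    | add a b _ _ ha hb =>
      rw [mul_add, add_mul]
      exact Submodule.add_mem _ ha hb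
    | smul c a _ ha =>
      rw [mul_smul_comm, smul_mul_assoc]
      exact Submodule.smul_mem _ _ ha
  have : z = w * (w' * z * w) * w' := by
    have : w * (w' * z * w) * w' = (w * w') * z * (w * w') := by noncomm_ring
    rw [this, hw', hz]
  rw [this]
  exact key _

theorem idem_orth (F : A →ₗ[ℂ] A) (hI : ∀ e : A, e * e = e → F e * F e = F e)
    {e f : A} (he : e * e = e) (hf : f * f = f) (hef : e * f = 0) (hfe : f * e = 0) :
    F e * F f + F f * F e = 0 := by
  have h1 : (e + f) * (e + f) = e + f := by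
    rw [mul_add, add_mul, add_mul, he, hf, hef, hfe]; abel
  have h2 := hI _ h1
  rw [map_add, mul_add, add_mul, add_mul, hI e he, hI f hf] at h2
  have : F e * F f + F f * F e = (F e + F f * F e + (F e * F f + F f)) - (F e + F f) := by abel
  rw [this, h2, sub_self]

theorem idem_sub (F : A →ₗ[ℂ] A) (hI : ∀ e : A, e * e = e → F e * F e = F e)
    {e P : A} (he : e * e = e) (hP : P * P = P) (h1 : P * e = e) (h2 : e * P = e) :
    F P * F e + F e * F P = F e + F e := by
  have hq : (P - e) * (P - e) = P - e := by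
    rw [mul_sub, sub_mul, sub_mul, he, hP, h1, h2]; abel
  have h3 : e * (P - e) = 0 := by rw [mul_sub, h2, he, sub_self]
  have h4 : (P - e) * e = 0 := by rw [sub_mul, h1, he, sub_self]
  have h5 := idem_orth F hI he hq h3 h4
  rw [map_sub, mul_sub, sub_mul, hI e he] at h5
  have : F P * F e + F e * F P = (F e * F P - F e + (F P * F e - F e)) + (F e + F e) := by abel
  rw [this, h5, zero_add]

theorem idem_off (F : A →ₗ[ℂ] A) (hI : ∀ e : A, e * e = e → F e * F e = F e)
    {P x : A} (hP : P * P = P) (hxx : x * x = 0) (hx : P * x + x * P = x) :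
    F P * F x + F x * F P = F x := by
  have h1 : (P + x) * (P + x) = P + x := by
    have : (P + x) * (P + x) = P * P + (P * x + x * P) + x * x := by noncomm_ring
    rw [this, hP, hx, hxx, add_zero]
  have h2 : (P - x) * (P - x) = P - x := by
    have : (P - x) * (P - x) = P * P - (P * x + x * P) + x * x := by noncomm_ring
    rw [this, hP, hx, hxx, add_zero]
  have h3 := hI _ h1
  have h4 := hI _ h2
  rw [map_add, mul_add, add_mul, add_mul, hI P hP] at h3
  rw [map_sub, mul_sub, sub_mul, sub_mul, hI P hP] at h4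
  -- FP + FxFP + (FPFx + FxFx) = FP + Fx ;  FP - FxFP - (FPFx - FxFx) = FP - Fx
  have h5 : (F P * F x + F x * F P - F x) + (F P * F x + F x * F P - F x) = 0 := by
    have e1 : (F P * F x + F x * F P - F x) + (F P * F x + F x * F P - F x)
        = ((F P + F x * F P + (F P * F x + F x * F x)) - (F P + F x))
          - ((F P - F x * F P - (F P * F x - F x * F x)) - (F P - F x)) := by abel
    rw [e1, h3, h4]; simp
  exact sub_eq_zero.mp (half_zero h5)

theorem Good.jordan_idem (hG : Good A J) (F : A →ₗ[ℂ] A) (h1 : F 1 = 1)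
    (hI : ∀ e : A, e * e = e → F e * F e = F e) (P : A) (hP : P * P = P) (z : A) :
    F (P * z + z * P) = F P * F z + F z * F P := by
  have hP1 : P * (1 - P) = 0 := by rw [mul_sub, mul_one, hP, sub_self]
  have hP2 : (1 - P) * P = 0 := by rw [sub_mul, one_mul, hP, sub_self]
  have hQ : (1 - P) * (1 - P) = 1 - P := by rw [mul_sub, mul_one, hP2, sub_zero]
  -- the four Peirce pieces
  have c11 : ∀ y : A, P * y * P = y → F P * F y + F y * F P = F y + F y := by
    intro y hy
    have hy' := hG.corner_span P hP y hy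
    clear hy
    induction hy' using Submodule.span_induction with
    | mem e he => exact idem_sub F hI he.1 hP he.2.1 he.2.2
    | zero => simp
    | add a b _ _ ha hb =>
      rw [map_add, mul_add, add_mul]
      have : F P * F a + F P * F b + (F a * F P + F b * F P)
          = (F P * F a + F a * F P) + (F P * F b + F b * F P) := by abel
      rw [this, ha, hb]; abel
    | smul c a _ ha =>
      rw [map_smul, mul_smul_comm, smul_mul_assoc, ← smul_add, ha, smul_add]
  have c22 : ∀ y : A, (1 - P) * y * (1 - P) = y → F P * F y + F y * F P = 0 := by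
    intro y hy
    have hy' := hG.corner_span (1 - P) hQ y hy
    clear hy
    induction hy' using Submodule.span_induction with
    | mem e he =>
      obtain ⟨he1, he2, he3⟩ := he
      apply idem_orth F hI hP he1
      · rw [← he2, ← mul_assoc, hP1, zero_mul]
      · rw [← he3, mul_assoc, hP2, mul_zero]
    | zero => simp
    | add a b _ _ ha hb =>
      rw [map_add, mul_add, add_mul]
      have : F P * F a + F P * F b + (F a * F P + F b * F P)
          = (F P * F a + F a * F P) + (F P * F b + F b * F P) := by abel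
      rw [this, ha, hb]; abel
    | smul c a _ ha =>
      rw [map_smul, mul_smul_comm, smul_mul_assoc, ← smul_add, ha, smul_zero]
  obtain ⟨a, ha⟩ : ∃ a, a = P * z * P := ⟨_, rfl⟩
  obtain ⟨b, hb⟩ : ∃ b, b = P * z * (1 - P) := ⟨_, rfl⟩
  obtain ⟨c, hc⟩ : ∃ c, c = (1 - P) * z * P := ⟨_, rfl⟩
  obtain ⟨d, hd⟩ : ∃ d, d = (1 - P) * z * (1 - P) := ⟨_, rfl⟩
  have hz : z = a + b + c + d := by rw [ha, hb, hc, hd]; noncomm_ring
  have Pa : P * a = a := by
    have : P * a = (P * P) * z * P := by rw [ha]; noncomm_ring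
    rw [this, hP, ha]
  have aP : a * P = a := by
    have : a * P = P * z * (P * P) := by rw [ha]; noncomm_ring
    rw [this, hP, ha]
  have Pb : P * b = b := by
    have : P * b = (P * P) * z * (1 - P) := by rw [hb]; noncomm_ring
    rw [this, hP, hb]
  have bP : b * P = 0 := by
    have : b * P = P * z * ((1 - P) * P) := by rw [hb]; noncomm_ring
    rw [this, hP2, mul_zero]
  have Pc : P * c = 0 := by
    have : P * c = (P * (1 - P)) * z * P := by rw [hc]; noncomm_ring
    rw [this, hP1, zero_mul, zero_mul]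
  have cP : c * P = c := by
    have : c * P = (1 - P) * z * (P * P) := by rw [hc]; noncomm_ring
    rw [this, hP, hc]
  have Pd : P * d = 0 := by
    have : P * d = (P * (1 - P)) * z * (1 - P) := by rw [hd]; noncomm_ring
    rw [this, hP1, zero_mul, zero_mul]
  have dP : d * P = 0 := by
    have : d * P = (1 - P) * z * ((1 - P) * P) := by rw [hd]; noncomm_ring
    rw [this, hP2, mul_zero]
  have bb : b * b = 0 := by
    have : b * b = (b * P) * b := by rw [mul_assoc, Pb]
    rw [this, bP, zero_mul]
  have cc : c * c = 0 := by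
    have : c * c = c * (P * c) := by rw [← mul_assoc, cP]
    rw [this, Pc, mul_zero]
  have f1 := c11 a (by rw [Pa, aP])
  have f2 := idem_off F hI hP bb (by rw [Pb, bP, add_zero])
  have f3 := idem_off F hI hP cc (by rw [Pc, cP, zero_add])
  have f4 := c22 d (by
    have : (1 - P) * d * (1 - P) = d - P * d - d * P + (P * d) * P := by noncomm_ring
    rw [this, Pd, dP]; simp)
  have lhs : P * z + z * P = (a + a) + b + c := by
    rw [hz]
    simp only [mul_add, add_mul, Pa, Pb, Pc, Pd, aP, bP, cP, dP]
    abel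
  rw [lhs]
  have rhs : F P * F z + F z * F P = (F P * F a + F a * F P) + (F P * F b + F b * F P)
      + (F P * F c + F c * F P) + (F P * F d + F d * F P) := by
    rw [hz]
    simp only [map_add, mul_add, add_mul]
    abel
  rw [rhs, f1, f2, f3, f4]
  simp only [map_add, add_zero]

theorem Good.jordan (hG : Good A J) (F : A →ₗ[ℂ] A) (h1 : F 1 = 1)
    (hI : ∀ e : A, e * e = e → F e * F e = F e) (a z : A) :
    F (a * z + z * a) = F a * F z + F z * F a := by
  have ha : a ∈ Submodule.span ℂ {e : A | e * e = e} := by rw [hG.span]; trivial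
  induction ha using Submodule.span_induction with
  | mem e he => exact hG.jordan_idem F h1 hI e he z
  | zero => simp
  | add a b _ _ ha hb =>
    have : (a + b) * z + z * (a + b) = (a * z + z * a) + (b * z + z * b) := by noncomm_ring
    rw [this, map_add, ha, hb, map_add]
    noncomm_ring
  | smul c a _ ha =>
    rw [smul_mul_assoc, mul_smul_comm, ← smul_add, map_smul, ha, map_smul, smul_mul_assoc,
      mul_smul_comm, smul_add]

theorem Good.prime (hG : Good A J) (u v : A) (h : ∀ x, u * x * v = 0) : u = 0 ∨ v = 0 := by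
  by_contra hcon
  push Not at hcon
  obtain ⟨k, _, hk⟩ := hG.sandwich u v hcon.1 hcon.2
  exact hk (h k)

theorem semi_unit_mul (u : Aˣ) (a : A) : SemiInv ((u : A) * a) ↔ SemiInv a := by
  constructor
  · rintro (⟨b, hb⟩ | ⟨b, hb⟩)
    · exact Or.inl ⟨b * u, by rw [mul_assoc, hb]⟩
    · refine Or.inr ⟨b * u, ?_⟩
      have : a * (b * u) = (↑u⁻¹ * (u : A)) * (a * (b * u)) := by rw [Units.inv_mul, one_mul]
      rw [this]
      have : (↑u⁻¹ * (u : A)) * (a * (b * u)) = ↑u⁻¹ * ((u : A) * a * b) * u := by noncomm_ring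
      rw [this, hb, mul_one, Units.inv_mul]
  · rintro (⟨b, hb⟩ | ⟨b, hb⟩)
    · refine Or.inl ⟨b * ↑u⁻¹, ?_⟩
      have : b * ↑u⁻¹ * ((u : A) * a) = b * (↑u⁻¹ * (u : A)) * a := by noncomm_ring
      rw [this, Units.inv_mul, mul_one, hb]
    · refine Or.inr ⟨b * ↑u⁻¹, ?_⟩
      have : (u : A) * a * (b * ↑u⁻¹) = u * (a * b) * ↑u⁻¹ := by noncomm_ring
      rw [this, hb, mul_one, Units.mul_inv]

/-- Main abstract theorem. -/
theorem Good.main (hG : Good A J) (Φ : A ≃ₗ[ℂ] A) (hReg : ∀ a, Reg (Φ a) ↔ Reg a) :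
    ∃ (u : Aˣ) (F : A ≃ₗ[ℂ] A), (∀ a, Φ a = u * F a) ∧ F 1 = 1 ∧
      ((∀ a b, F (a * b) = F a * F b) ∨ (∀ a b, F (a * b) = F b * F a)) := by
  have hsemi : ∀ a, SemiInv (Φ a) ↔ SemiInv a := by
    intro a
    rw [hG.semi_iff, hG.semi_iff, hReg]
    constructor
    · rintro ⟨h1, h2⟩
      refine ⟨h1, fun s => ?_⟩
      obtain ⟨ε, hε, H⟩ := h2 (Φ s)
      refine ⟨ε, hε, fun t ht => ?_⟩
      have := H t ht
      rwa [← map_smul, ← map_add, hReg] at this
    · rintro ⟨h1, h2⟩
      refine ⟨h1, fun s => ?_⟩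
      obtain ⟨ε, hε, H⟩ := h2 (Φ.symm s)
      refine ⟨ε, hε, fun t ht => ?_⟩
      have := H t ht
      rw [← hReg, map_add, map_smul, Φ.apply_symm_apply] at this
      exact this
  have hunit : ∀ a, IsUnit (Φ a) ↔ IsUnit a := by
    intro a
    rw [hG.unit_iff, hG.unit_iff, hsemi]
    constructor
    · rintro ⟨h1, h2⟩
      refine ⟨h1, fun s => ?_⟩
      obtain ⟨x, y, hxy, H⟩ := h2 (Φ s)
      refine ⟨x, y, hxy, ?_⟩
      rwa [← map_smul, ← map_smul, ← map_add, hsemi] at H
    · rintro ⟨h1, h2⟩
      refine ⟨h1, fun s => ?_⟩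
      obtain ⟨x, y, hxy, H⟩ := h2 (Φ.symm s)
      refine ⟨x, y, hxy, ?_⟩
      rw [← hsemi, map_add, map_smul, map_smul, Φ.apply_symm_apply] at H
      exact H
  obtain ⟨u, hu⟩ := (hunit 1).mpr isUnit_one
  let L : A ≃ₗ[ℂ] A :=
    { toFun := fun a => ↑u⁻¹ * a
      invFun := fun a => ↑u * a
      map_add' := fun a b => mul_add _ _ _
      map_smul' := fun c a => by simp
      left_inv := fun a => by simp
      right_inv := fun a => by simp }
  let F : A ≃ₗ[ℂ] A := Φ.trans L
  have hF : ∀ a, F a = ↑u⁻¹ * Φ a := fun a => rfl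
  have hΦ : ∀ a, Φ a = u * F a := by
    intro a
    rw [hF, ← mul_assoc, Units.mul_inv, one_mul]
  have hF1 : F 1 = 1 := by rw [hF, ← hu, Units.inv_mul]
  have hFReg : ∀ a, Reg (F a) ↔ Reg a := by
    intro a
    rw [hF, reg_mul_unit_left, hReg]
  have hFU : ∀ a, IsUnit (F a) ↔ IsUnit a := by
    intro a
    rw [hF, Units.isUnit_units_mul, hunit]
  have hI : ∀ e : A, e * e = e → F e * F e = F e := fun e he =>
    hG.idem_preserve F hF1 hFReg hFU e he
  refine ⟨u, F, hΦ, hF1, ?_⟩
  have hJ := fun a b => hG.jordan (F : A →ₗ[ℂ] A) hF1 hI a b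
  have := jordan_hom_or_antihom (R := A) (S := A) (F : A →ₗ[ℂ] A).toAddMonoidHom F.surjective
    (fun s hs => half_zero hs) (fun a b h => hG.prime a b h) hJ
  exact this

end Abstract

end Pool.Agent.MP86f994
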