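import Mathlib
import Pool.Agent.Lib_MP_86f994_an.Jordan
import Pool.Agent.Lib_MP_86f994_an.Inner

/-!
Assembly.
-/

namespace Pool.Agent.MP86f994

set_option linter.unusedSectionVars false

open InnerProductSpace ContinuousLinearMap Filter Topology
open scoped ENNReal InnerProductSpace InnerProduct

section Final

variable {H : Type*} [NormedAddCommGroup H] [InnerProductSpace ℂ H] [CompleteSpace H]

/-- finite rank operators are regular -/
theorem finiteRank_regular (G : H →L[ℂ] H) (hG : FiniteRank G) :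
    ∃ X : H →L[ℂ] H, G * X * G = G := by
  let E : Submodule ℂ H := LinearMap.range (G : H →ₗ[ℂ] H)
  have hE : FiniteDimensional ℂ E := hG
  obtain ⟨s, hs⟩ := LinearMap.exists_rightInverse_of_surjective
    ((G : H →ₗ[ℂ] H).rangeRestrict) (LinearMap.range_rangeRestrict _)
  let sc : E →L[ℂ] H := LinearMap.toContinuousLinearMap s
  refine ⟨sc ∘L E.orthogonalProjectionOnto, ?_⟩
  ext h
  have h1 : E.orthogonalProjectionOnto (G h) = ⟨G h, ⟨h, rfl⟩⟩ := by
    have : G h = ((⟨G h, ⟨h, rfl⟩⟩ : E) : H) := rfl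
    conv_lhs => rw [this]
    exact Submodule.orthogonalProjectionOnto_mem_subspace_eq_self _
  change G (s (E.orthogonalProjectionOnto (G h))) = G h
  rw [h1]
  have h2 := congrArg (fun f => f ⟨G h, ⟨h, rfl⟩⟩) hs
  exact congrArg Subtype.val h2

/-- McCoy: generalized invertibility is regularity modulo finite rank -/
theorem genInvertible_iff (T : H →L[ℂ] H) : GenInvertible T ↔ Reg (qf T) := by
  constructor
  · rintro ⟨S, h1, -⟩
    exact ⟨qf S, by rw [← map_mul, ← map_mul, h1]⟩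
  · rintro ⟨x, hx⟩
    obtain ⟨S, rfl⟩ := qf_surj x
    rw [← map_mul, ← map_mul] at hx
    have hG : FiniteRank (T - T * S * T) := by rw [← qf_eq]; exact hx.symm
    obtain ⟨X, hX⟩ := finiteRank_regular _ hG
    obtain ⟨Y, hY⟩ : ∃ Y, Y = S + (1 - S * T) * X * (1 - T * S) := ⟨_, rfl⟩
    have hTY : T * Y * T = T := by
      have : T * Y * T = T * S * T + (T - T * S * T) * X * (T - T * S * T) := by
        rw [hY]; noncomm_ring
      rw [this, hX]; abel
    refine ⟨Y * T * Y, ?_, ?_⟩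
    · have : T * (Y * T * Y) * T = (T * Y * T) * Y * T := by noncomm_ring
      rw [this, hTY, hTY]
    · have : Y * T * Y * T * (Y * T * Y) = Y * ((T * Y * T) * Y * T) * Y := by noncomm_ring
      rw [this, hTY, hTY]

theorem Good.zero_iff {A : Type*} [Ring A] [Algebra ℂ A] {J : Set A} (hG : Good A J) (a : A) :
    a = 0 ↔ ∀ s, Reg s → Reg (s + a) := by
  constructor
  · rintro rfl s hs
    rwa [add_zero]
  · intro h
    by_contra hne
    have ha : Reg a := by
      have := h 0 ⟨0, by simp⟩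
      rwa [zero_add] at this
    obtain ⟨k, hk, hk2⟩ := hG.sandwich a 1 hne hG.nontriv
    rw [mul_one] at hk2
    obtain ⟨u, hu⟩ := hG.oneSub k hk
    obtain ⟨x, hx⟩ := ha
    have hs : Reg (-(a * (1 - k))) := by
      refine ⟨-(↑u⁻¹ * x), ?_⟩
      rw [← hu]
      have : -(a * (u : A)) * -(↑u⁻¹ * x) * -(a * (u : A)) = -(a * ((u : A) * ↑u⁻¹) * x * a * u) := by
        noncomm_ring
      rw [this, Units.mul_inv, mul_one, hx]
    have h2 := h _ hs
    have e : -(a * (1 - k)) + a = a * k := by noncomm_ring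
    rw [e] at h2
    exact hk2 (hG.J_reg (hG.mulJ _ _ hk) h2)

/-- invertible modulo finite rank implies Fredholm -/
theorem fredholm_of_inv {A S : H →L[ℂ] H} (h1 : qf S * qf A = 1) (h2 : qf A * qf S = 1) :
    IsFredholm A := by
  have hF1 : FiniteRank (S * A - 1) := by
    rw [← qf_eq, map_mul, map_one]; exact h1
  have hF2 : FiniteRank (A * S - 1) := by
    rw [← qf_eq, map_mul, map_one]; exact h2
  let Z : Submodule ℂ H := LinearMap.ker ((A * S - 1 : H →L[ℂ] H) : H →ₗ[ℂ] H)
  have hZcl : IsClosed (Z : Set H) := (A * S - 1).isClosed_ker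
  have hZf : FiniteDimensional ℂ (H ⧸ Z) := finite_quot_ker_of_rkLE ((finiteRank_iff _).mp hF2)
  have hle : Z ≤ LinearMap.range (A : H →ₗ[ℂ] H) := by
    intro x hx
    have hx' : (A * S - 1) x = 0 := hx
    rw [sub_apply, mulA, oneA, sub_eq_zero] at hx'
    exact ⟨S x, hx'⟩
  refine ⟨?_, ?_, ?_⟩
  · have hmapcl : IsClosed (((LinearMap.range (A : H →ₗ[ℂ] H)).map Z.mkQ : Submodule ℂ (H ⧸ Z)) :
        Set (H ⧸ Z)) := Submodule.closed_of_finiteDimensional _
    have hpre := hmapcl.preimage Z.mkQL.continuous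
    have e : (Z.mkQL ⁻¹' (((LinearMap.range (A : H →ₗ[ℂ] H)).map Z.mkQ : Submodule ℂ (H ⧸ Z)) :
        Set (H ⧸ Z))) = Set.range A := by
      ext x
      constructor
      · rintro ⟨y, hy, hxy⟩
        have h3 : Z.mkQ (x - y) = 0 := by
          rw [map_sub, hxy]
          change Z.mkQ x - Z.mkQ x = 0
          rw [sub_self]
        rw [Submodule.mkQ_apply, Submodule.Quotient.mk_eq_zero] at h3
        have h4 : x - y ∈ LinearMap.range (A : H →ₗ[ℂ] H) := hle h3
        have h5 : x ∈ LinearMap.range (A : H →ₗ[ℂ] H) := by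
          have := Submodule.add_mem _ h4 hy
          rwa [sub_add_cancel] at this
        exact h5
      · rintro ⟨y, rfl⟩
        exact ⟨A y, ⟨y, rfl⟩, rfl⟩
    rw [e] at hpre
    exact hpre
  · have hF1f : FiniteDimensional ℂ (LinearMap.range ((S * A - 1 : H →L[ℂ] H) : H →ₗ[ℂ] H)) := hF1
    refine Submodule.finiteDimensional_of_le
      (S₂ := LinearMap.range ((S * A - 1 : H →L[ℂ] H) : H →ₗ[ℂ] H)) ?_
    intro x hx
    have hx' : A x = 0 := hx
    refine ⟨-x, ?_⟩
    change (S * A - 1) (-x) = x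
    rw [sub_apply, mulA, oneA, map_neg, hx']
    simp
  · exact Module.Finite.of_surjective (Submodule.factor hle) (Submodule.factor_surjective hle)

/-- coordinatewise conjugation with respect to the basis -/
noncomputable def conjH (b : HilbertBasis ℕ ℂ H) : H →L⋆[ℂ] H :=
  LinearMap.mkContinuous
    { toFun := fun x => b.repr.symm (star (b.repr x))
      map_add' := fun x y => by rw [map_add, star_add, map_add]
      map_smul' := fun c x => by
        rw [map_smul, star_smul, map_smul]; rfl } 1 (fun x => by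
      change ‖b.repr.symm (star (b.repr x))‖ ≤ 1 * ‖x‖
      rw [LinearIsometryEquiv.norm_map, norm_star, LinearIsometryEquiv.norm_map, one_mul])

theorem conjH_inner (b : HilbertBasis ℕ ℂ H) (x : H) (j : ℕ) :
    ⟪b j, conjH b x⟫_ℂ = star ⟪b j, x⟫_ℂ := by
  rw [← b.repr_apply_apply, ← b.repr_apply_apply]
  change b.repr (b.repr.symm (star (b.repr x))) j = _
  rw [LinearIsometryEquiv.apply_symm_apply, lp.star_apply]

theorem conjH_basis (b : HilbertBasis ℕ ℂ H) (j : ℕ) : conjH b (b j) = b j := by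
  apply ext_inner_basis b
  intro i
  rw [conjH_inner]
  by_cases h : i = j
  · subst h
    rw [inner_self_eq_norm_sq_to_K, b.orthonormal.1]; simp
  · rw [b.orthonormal.2 h]; simp

theorem conjH_conjH (b : HilbertBasis ℕ ℂ H) (x : H) : conjH b (conjH b x) = x := by
  apply ext_inner_basis b
  intro i
  rw [conjH_inner, conjH_inner, star_star]

/-- the transpose with respect to the basis -/
noncomputable def tr (b : HilbertBasis ℕ ℂ H) (T : H →L[ℂ] H) : H →L[ℂ] H :=
  (conjH b).comp ((adjoint T).comp (conjH b))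

theorem tr_apply (b : HilbertBasis ℕ ℂ H) (T : H →L[ℂ] H) (x : H) :
    tr b T x = conjH b (adjoint T (conjH b x)) := rfl

theorem tr_entries (b : HilbertBasis ℕ ℂ H) (T : H →L[ℂ] H) (i j : ℕ) :
    ⟪b j, tr b T (b i)⟫_ℂ = ⟪b i, T (b j)⟫_ℂ := by
  rw [tr_apply, conjH_inner, conjH_basis, adjoint_inner_right]
  exact inner_conj_symm _ _

theorem tr_ext (b : HilbertBasis ℕ ℂ H) {S T : H →L[ℂ] H}
    (h : ∀ i j, ⟪b j, S (b i)⟫_ℂ = ⟪b j, T (b i)⟫_ℂ) : S = T := by
  apply ext_basis b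
  intro i
  apply ext_inner_basis b
  intro j
  exact h i j

theorem tr_add (b : HilbertBasis ℕ ℂ H) (S T : H →L[ℂ] H) : tr b (S + T) = tr b S + tr b T := by
  apply tr_ext b
  intro i j
  rw [tr_entries, add_apply, add_apply, inner_add_right, inner_add_right, tr_entries, tr_entries]

theorem tr_smul (b : HilbertBasis ℕ ℂ H) (c : ℂ) (T : H →L[ℂ] H) :
    tr b (c • T) = c • tr b T := by
  apply tr_ext b
  intro i j
  rw [tr_entries, smul_apply, smul_apply, inner_smul_right, inner_smul_right, tr_entries]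

theorem tr_mul (b : HilbertBasis ℕ ℂ H) (S T : H →L[ℂ] H) : tr b (S * T) = tr b T * tr b S := by
  ext x
  rw [mulA, tr_apply, tr_apply, tr_apply, conjH_conjH]
  have : adjoint (S * T) = adjoint T * adjoint S := star_mul S T
  rw [this, mulA]

theorem tr_one (b : HilbertBasis ℕ ℂ H) : tr b (1 : H →L[ℂ] H) = 1 := by
  ext x
  rw [tr_apply]
  have : adjoint (1 : H →L[ℂ] H) = 1 := star_one _
  rw [this, oneA, oneA, conjH_conjH]

theorem tr_tr (b : HilbertBasis ℕ ℂ H) (T : H →L[ℂ] H) : tr b (tr b T) = T := by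
  apply tr_ext b
  intro i j
  rw [tr_entries, tr_entries]

theorem FiniteRank.adjoint {T : H →L[ℂ] H} (hT : FiniteRank T) :
    FiniteRank (ContinuousLinearMap.adjoint T) := by
  let E : Submodule ℂ H := LinearMap.range (T : H →ₗ[ℂ] H)
  have hE : FiniteDimensional ℂ E := hT
  have h1 : E.starProjection * T = T := by
    ext x
    rw [mulA, Submodule.starProjection_eq_self_iff]
    exact ⟨x, rfl⟩
  have h2 : ContinuousLinearMap.adjoint T
      = ContinuousLinearMap.adjoint T * ContinuousLinearMap.adjoint E.starProjection := by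
    conv_lhs => rw [← h1]
    exact star_mul _ _
  have h3 : ContinuousLinearMap.adjoint (E.starProjection) = E.starProjection :=
    isSelfAdjoint_starProjection E
  rw [h2, h3]
  apply FiniteRank.mul_left
  rw [finiteRank_iff]
  exact ⟨_, E, hE, le_rfl, fun v => Submodule.starProjection_apply_mem _ _⟩

theorem FiniteRank.tr (b : HilbertBasis ℕ ℂ H) {T : H →L[ℂ] H} (hT : FiniteRank T) :
    FiniteRank (tr b T) := by
  have h1 : FiniteRank (ContinuousLinearMap.adjoint T) := hT.adjoint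
  rw [finiteRank_iff]
  let R : Submodule ℂ H := LinearMap.range (ContinuousLinearMap.adjoint T : H →ₗ[ℂ] H)
  have hR : FiniteDimensional ℂ R := h1
  have hR2 : (R.map (conjH b : H →ₗ⋆[ℂ] H)).FG :=
    (Module.Finite.iff_fg.mp hR).map (conjH b : H →ₗ⋆[ℂ] H)
  refine ⟨_, R.map (conjH b : H →ₗ⋆[ℂ] H), Module.Finite.iff_fg.mpr hR2, le_rfl, fun v => ?_⟩
  exact ⟨ContinuousLinearMap.adjoint T (conjH b v), ⟨_, rfl⟩, rfl⟩

/-- the transpose as a linear map -/
noncomputable def trL (b : HilbertBasis ℕ ℂ H) : (H →L[ℂ] H) →ₗ[ℂ] (H →L[ℂ] H) :=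
  { toFun := tr b
    map_add' := tr_add b
    map_smul' := tr_smul b }

/-- inner-ness for homomorphisms onto the quotient -/
theorem inner_of_surj_hom (b : HilbertBasis ℕ ℂ H) (ψ : (H →L[ℂ] H) →ₐ[ℂ] QF H)
    (hsurj : Function.Surjective ψ) (hker : ∀ R, FiniteRank R → ψ R = 0) :
    ∃ A B : H →L[ℂ] H, qf B * qf A = 1 ∧ qf A * qf B = 1 ∧
      ∀ R, ψ R = qf A * qf R * qf B := by
  obtain ⟨A, B, h1, h2⟩ := inner_of_hom b ψ
  have h3 : qf A * qf B = 1 := by
    obtain ⟨R, hR⟩ := hsurj (1 - qf A * qf B)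
    have e1 : (1 - qf A * qf B) * qf A = 0 := by
      have : (1 - qf A * qf B) * qf A = qf A - qf A * (qf B * qf A) := by noncomm_ring
      rw [this, h1, mul_one, sub_self]
    have e2 : qf A * qf R = 0 := by rw [← h2, hR, e1]
    have e3 : qf R = 0 := by
      have : qf R = qf B * qf A * qf R := by rw [h1, one_mul]
      rw [this, mul_assoc, e2, mul_zero]
    have e4 : ψ R = 0 := hker R ((qf_eq_zero R).mp e3)
    rw [e4] at hR
    exact (sub_eq_zero.mp hR.symm).symm
  refine ⟨A, B, h1, h3, fun R => ?_⟩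
  rw [← h2, mul_assoc, h3, mul_one]

/-- **Main theorem.** -/
theorem main_theorem (b : HilbertBasis ℕ ℂ H) (φ : (H →L[ℂ] H) →ₗ[ℂ] (H →L[ℂ] H))
    (hφ : PreservesGenInvertible φ) (hs : SurjectiveUpToFiniteRank φ) :
    ∃ (A B : H →L[ℂ] H) (χ : (H →L[ℂ] H) →ₗ[ℂ] (H →L[ℂ] H)),
      IsFredholm A ∧ IsFredholm B ∧ (∀ T, FiniteRank (χ T)) ∧
      ((∀ T, φ T = A * T * B + χ T) ∨ (∀ T, φ T = A * tr b T * B + χ T)) := by
  have hG := good_QF b
  have hReg : ∀ T, Reg (qf (φ T)) ↔ Reg (qf T) := fun T => by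
    rw [← genInvertible_iff, ← genInvertible_iff]; exact (hφ T).symm
  have hsq : ∀ a : QF H, ∃ S, qf (φ S) = a := by
    intro a
    obtain ⟨A, rfl⟩ := qf_surj a
    obtain ⟨S, hS⟩ := hs A
    exact ⟨S, ((qf_eq _ _).mpr hS).symm⟩
  have hzero : ∀ T, qf (φ T) = 0 ↔ qf T = 0 := by
    intro T
    rw [hG.zero_iff, hG.zero_iff]
    constructor
    · intro h s hs'
      obtain ⟨S, rfl⟩ := qf_surj s
      rw [← map_add, ← hReg, map_add, map_add]
      exact h _ ((hReg S).mpr hs')
    · intro h s hs'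
      obtain ⟨S, rfl⟩ := hsq s
      rw [← map_add, ← map_add, hReg, map_add]
      exact h _ ((hReg S).mp hs')
  let qL : (H →L[ℂ] H) →ₗ[ℂ] QF H := (qf : (H →L[ℂ] H) →ₐ[ℂ] QF H).toLinearMap
  have hqL : ∀ T, qL T = qf T := fun T => rfl
  have hker : LinearMap.ker qL = LinearMap.ker (qL ∘ₗ φ) := by
    ext T
    rw [LinearMap.mem_ker, LinearMap.mem_ker]
    exact (hzero T).symm
  let Φ : QF H ≃ₗ[ℂ] QF H :=
    (qL.quotKerEquivOfSurjective qf_surj).symm ≪≫ₗ (Submodule.quotEquivOfEq _ _ hker) ≪≫ₗ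
      ((qL ∘ₗ φ).quotKerEquivOfSurjective hsq)
  have hΦ : ∀ T, Φ (qf T) = qf (φ T) := by
    intro T
    have h1 : (qL.quotKerEquivOfSurjective qf_surj).symm (qf T)
        = Submodule.Quotient.mk T := by
      rw [LinearEquiv.symm_apply_eq]
      rfl
    change ((qL ∘ₗ φ).quotKerEquivOfSurjective hsq) ((Submodule.quotEquivOfEq _ _ hker)
      ((qL.quotKerEquivOfSurjective qf_surj).symm (qf T))) = _
    rw [h1]
    rfl
  obtain ⟨u, F, hF, hF1, hor⟩ := hG.main Φ (by
    intro a
    obtain ⟨T, rfl⟩ := qf_surj a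
    rw [hΦ]; exact hReg T)
  obtain ⟨u0, hu0⟩ := qf_surj (u : QF H)
  obtain ⟨u1, hu1⟩ := qf_surj (↑u⁻¹ : QF H)
  rcases hor with hmul | hanti
  · -- automorphism
    let ψ : (H →L[ℂ] H) →ₐ[ℂ] QF H := AlgHom.ofLinearMap ((F : QF H →ₗ[ℂ] QF H) ∘ₗ qL)
      (by change F (qf 1) = 1; rw [map_one, hF1])
      (fun R S => by
        change F (qf (R * S)) = F (qf R) * F (qf S)
        rw [map_mul, hmul])
    have hψ : ∀ R, ψ R = F (qf R) := fun R => rfl
    obtain ⟨A, B, h1, h2, h3⟩ := inner_of_surj_hom b ψ (by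
      intro a
      obtain ⟨R, hR⟩ := qf_surj (F.symm a)
      exact ⟨R, by rw [hψ, hR, F.apply_symm_apply]⟩) (by
      intro R hR
      rw [hψ, (qf_eq_zero R).mpr hR, map_zero])
    have hfin : ∀ T, FiniteRank (φ T - u0 * A * T * B) := by
      intro T
      rw [← qf_eq, ← hΦ, hF, ← hψ, h3, map_mul, map_mul, map_mul, hu0]
      simp only [mul_assoc]
    refine ⟨u0 * A, B, φ - (LinearMap.mulLeftRight ℂ (u0 * A, B)), ?_, ?_, ?_, Or.inl ?_⟩
    · apply fredholm_of_inv (S := B * u1)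
      · rw [map_mul, map_mul, hu0, hu1]
        have : qf B * ↑u⁻¹ * (↑u * qf A) = qf B * (↑u⁻¹ * ↑u) * qf A := by noncomm_ring
        rw [this, Units.inv_mul, mul_one, h1]
      · rw [map_mul, map_mul, hu0, hu1]
        have : ↑u * qf A * (qf B * ↑u⁻¹) = ↑u * (qf A * qf B) * ↑u⁻¹ := by noncomm_ring
        rw [this, h2, mul_one, Units.mul_inv]
    · exact fredholm_of_inv (S := A) h2 h1
    · intro T
      rw [LinearMap.sub_apply, LinearMap.mulLeftRight_apply]
      exact hfin T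
    · intro T
      rw [LinearMap.sub_apply, LinearMap.mulLeftRight_apply]
      abel
  · -- anti-automorphism
    let ψ : (H →L[ℂ] H) →ₐ[ℂ] QF H := AlgHom.ofLinearMap
      ((F : QF H →ₗ[ℂ] QF H) ∘ₗ qL ∘ₗ trL b)
      (by change F (qf (tr b 1)) = 1; rw [tr_one, map_one, hF1])
      (fun R S => by
        change F (qf (tr b (R * S))) = F (qf (tr b R)) * F (qf (tr b S))
        rw [tr_mul, map_mul, hanti])
    have hψ : ∀ R, ψ R = F (qf (tr b R)) := fun R => rfl
    obtain ⟨A, B, h1, h2, h3⟩ := inner_of_surj_hom b ψ (by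
      intro a
      obtain ⟨R, hR⟩ := qf_surj (F.symm a)
      exact ⟨tr b R, by rw [hψ, tr_tr, hR, F.apply_symm_apply]⟩) (by
      intro R hR
      rw [hψ, (qf_eq_zero _).mpr (hR.tr b), map_zero])
    have hfin : ∀ T, FiniteRank (φ T - u0 * A * tr b T * B) := by
      intro T
      rw [← qf_eq, ← hΦ, hF]
      have h4 := hψ (tr b T)
      rw [tr_tr] at h4
      rw [← h4, h3, map_mul, map_mul, map_mul, hu0]
      simp only [mul_assoc]
    refine ⟨u0 * A, B, φ - (LinearMap.mulLeftRight ℂ (u0 * A, B)) ∘ₗ trL b, ?_, ?_, ?_,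
      Or.inr ?_⟩
    · apply fredholm_of_inv (S := B * u1)
      · rw [map_mul, map_mul, hu0, hu1]
        have : qf B * ↑u⁻¹ * (↑u * qf A) = qf B * (↑u⁻¹ * ↑u) * qf A := by noncomm_ring
        rw [this, Units.inv_mul, mul_one, h1]
      · rw [map_mul, map_mul, hu0, hu1]
        have : ↑u * qf A * (qf B * ↑u⁻¹) = ↑u * (qf A * qf B) * ↑u⁻¹ := by noncomm_ring
        rw [this, h2, mul_one, Units.mul_inv]
    · exact fredholm_of_inv (S := A) h2 h1
    · intro T
      rw [LinearMap.sub_apply, LinearMap.comp_apply, LinearMap.mulLeftRight_apply]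
      exact hfin T
    · intro T
      rw [LinearMap.sub_apply, LinearMap.comp_apply, LinearMap.mulLeftRight_apply]
      change φ T = u0 * A * tr b T * B + (φ T - u0 * A * tr b T * B)
      abel

end Final

end Pool.Agent.MP86f994
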